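import Pool.Agent.H25.SO.Turn

/-!
# Symmetries of order three
-/

set_option autoImplicit false

open MvPolynomial Set
open Pool.Agent.H83.MC

namespace Pool.Agent.H25.SO

noncomputable section

variable {F : MvPolynomial (Fin 3) ℝ} {γ : ℝ → Fin 3 → ℝ} {d : ℕ} {T : ℝ}
  {κ : ConnectedComponents (realPart F)}

/-- the angle -/
abbrev th : ℝ := 2 * Real.pi / (3 : ℕ)

/-- the linear form -/
def lf (a b : ℝ) : MvPolynomial (Fin 3) ℝ := C a * X 0 + C b * X 1

theorem lf_homog (a b : ℝ) : (lf a b).IsHomogeneous 1 :=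
  (isHomogeneous_C_mul_X _ _).add (isHomogeneous_C_mul_X _ _)

theorem eval_lf (a b : ℝ) (v : V3) : eval v (lf a b) = a * v 0 + b * v 1 := by
  simp [lf]

theorem lf_ne {a b : ℝ} (h : a ≠ 0 ∨ b ≠ 0) : lf a b ≠ 0 := by
  intro h0
  have e0 := eval_lf a b ![1, 0, 0]
  have e1 := eval_lf a b ![0, 1, 0]
  rw [h0] at e0 e1
  simp at e0 e1
  rcases h with h | h
  · exact h e0.symm
  · exact h e1.symm

theorem cos_th : Real.cos th = -1 / 2 := by
  have h : th = Real.pi - Real.pi / 3 := by
    unfold th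
    push_cast
    ring
  rw [h, Real.cos_pi_sub, Real.cos_pi_div_three]
  norm_num

theorem sin_th : Real.sin th ^ 2 = 3 / 4 := by
  have := Real.sin_sq_add_cos_sq th
  rw [cos_th] at this
  linarith

/-- the sum over an orbit -/
theorem lf_sum (a b : ℝ) (v : V3) : eval v (lf a b) + eval (rotF th v) (lf a b) +
    eval (rotF th (rotF th v)) (lf a b) = 0 := by
  have hc := cos_th
  have hs := sin_th
  simp only [eval_lf, rotF, Matrix.cons_val_zero, Matrix.cons_val_one, Matrix.cons_val]
  rw [hc]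
  linear_combination (-a * v 0 - b * v 1) * hs

theorem rot_th_fix (v : V3) (h : rotF th (rotF th v) = v) : v 0 = 0 ∧ v 1 = 0 := by
  have hc := cos_th
  have hs := sin_th
  have h0 := congrFun h 0
  have h1 := congrFun h 1
  simp only [rotF, Matrix.cons_val_zero, Matrix.cons_val_one] at h0 h1
  rw [hc] at h0 h1
  set s := Real.sin th
  -- `(1/4 - s² - 1) v0 + s v1 = 0`
  have e0 : s * v 1 = 3 / 2 * v 0 := by linear_combination h0 + v 0 * hs
  have e1 : s * v 0 = -(3 / 2) * v 1 := by linear_combination -h1 - v 1 * hs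
  have e2 : s ^ 2 * v 0 = -(9 / 4) * v 0 := by
    calc s ^ 2 * v 0 = s * (s * v 0) := by ring
      _ = -(3 / 2) * (s * v 1) := by rw [e1]; ring
      _ = -(9 / 4) * v 0 := by rw [e0]; ring
  rw [hs] at e2
  have e3 : v 0 = 0 := by linarith
  rw [e3] at e1
  exact ⟨e3, by linarith⟩

/-- a line through the centre meets every preserved component at least twice -/
theorem Par.line (P : Par F κ γ T) (C : Curve F d)
    (hs : ∀ v, eval (rotF th v) F = eval v F) (hP : eval ![0, 0, 1] F ≠ 0)
    (h : Pres (rotL th) κ) (a b : ℝ) :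
    ∃ A : Finset RP2, A.card = 2 ∧ ∀ p ∈ A, InC κ p ∧ Zr F (lf a b) p := by
  classical
  obtain ⟨τ, hτ⟩ := C.rot_shift hs rot_th_fix hP P h
  have hT := P.pos
  set f : ℝ → ℝ := fun u => eval (γ u) (lf a b) with hf
  have hfc : Continuous f := (MvPolynomial.continuous_eval (lf a b)).comp P.sol.cont
  have hfT : ∀ u (n : ℤ), f (u + n * T) = f u := fun u n => by
    simp only [hf]
    rw [P.per_int]
  -- it suffices to find two zeros in a period
  have hend : ∀ z1 z2, f z1 = 0 → f z2 = 0 → z1 < z2 → z2 < z1 + T →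
      ∃ A : Finset RP2, A.card = 2 ∧ ∀ p ∈ A, InC κ p ∧ Zr F (lf a b) p := by
    intro z1 z2 h1 h2 h3 h4
    refine ⟨{pr (γ z1), pr (γ z2)}, Finset.card_pair (P.ne_of C h3 h4), ?_⟩
    intro p hp
    rcases Finset.mem_insert.1 hp with rfl | hp
    · exact ⟨(P.mem _).2 ⟨_, rfl⟩, Zr_of C.hF (lf_homog a b) (P.sol.norm _) (P.sol.zero _) h1⟩
    · rw [Finset.mem_singleton.1 hp]
      exact ⟨(P.mem _).2 ⟨_, rfl⟩, Zr_of C.hF (lf_homog a b) (P.sol.norm _) (P.sol.zero _) h2⟩
  by_cases hz : ∀ u, f u = 0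
  · exact hend 0 (T / 2) (hz _) (hz _) (by linarith) (by linarith)
  · push Not at hz
    obtain ⟨u, hu⟩ := hz
    have hsum : f u + f (τ + u) + f (τ + (τ + u)) = 0 := by
      have := lf_sum a b (γ u)
      rw [hτ, hτ] at this
      exact this
    have hopp : ∃ w, f u * f w < 0 := by
      have h1 : f u * f u + f u * f (τ + u) + f u * f (τ + (τ + u)) = 0 := by
        have h2 := congrArg (fun x => f u * x) hsum
        simp only [mul_zero] at h2
        linarith
      have h2 : 0 < f u * f u := mul_self_pos.2 hu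
      by_contra hcon
      push Not at hcon
      have h3 := hcon (τ + u)
      have h4 := hcon (τ + (τ + u))
      linarith
    obtain ⟨w₀, hw₀⟩ := hopp
    -- move `w₀` to the period
    obtain ⟨w, hw1, hw2, hw⟩ : ∃ w, u < w ∧ w < u + T ∧ f u * f w < 0 := by
      obtain ⟨n, hn, -⟩ := existsUnique_add_zsmul_mem_Ico hT w₀ u
      simp only [zsmul_eq_mul] at hn
      have h1 : f (w₀ + n * T) = f w₀ := hfT _ _
      refine ⟨w₀ + n * T, lt_of_le_of_ne hn.1 ?_, hn.2, by rw [h1]; exact hw₀⟩
      intro h2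
      rw [← h1, ← h2] at hw₀
      nlinarith [mul_self_nonneg (f u)]
    have key : ∀ x y, x < y → f x * f y < 0 → ∃ z, x < z ∧ z < y ∧ f z = 0 := by
      intro x y hxy hneg
      have h1 : (0 : ℝ) ∈ f '' Set.Icc x y := by
        rcases lt_or_gt_of_ne (show f x ≠ 0 by rintro h0; rw [h0, zero_mul] at hneg; exact lt_irrefl _ hneg)
          with h2 | h2
        · have h3 : 0 < f y := by nlinarith
          exact intermediate_value_Icc hxy.le hfc.continuousOn ⟨h2.le, h3.le⟩
        · have h3 : f y < 0 := by nlinarith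
          exact intermediate_value_Icc' hxy.le hfc.continuousOn ⟨h3.le, h2.le⟩
      obtain ⟨z, hz, hz0⟩ := h1
      refine ⟨z, lt_of_le_of_ne hz.1 ?_, lt_of_le_of_ne hz.2 ?_, hz0⟩
      · rintro rfl
        rw [hz0, zero_mul] at hneg
        exact lt_irrefl _ hneg
      · rintro rfl
        rw [hz0, mul_zero] at hneg
        exact lt_irrefl _ hneg
    obtain ⟨z1, a1, a2, a3⟩ := key u w hw1 hw
    obtain ⟨z2, b1, b2, b3⟩ := key w (u + T) hw2 (by
      have := hfT u 1
      rw [Int.cast_one, one_mul] at this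
      rw [this, mul_comm]
      exact hw)
    exact hend z1 z2 a3 b3 (a2.trans b1) (by linarith)

open scoped Classical in
/-- the number of the preserved components -/
theorem rot_count (C : Curve F d) (hirr : Irreducible F) (hd : 1 < d)
    (hs : ∀ v, eval (rotF th v) F = eval v F) (hP : eval ![0, 0, 1] F ≠ 0)
    [Fintype (ConnectedComponents (realPart F))]
    (hM : d < 2 * Fintype.card (ConnectedComponents (realPart F))) :
    2 * (Finset.univ.filter fun κ : ConnectedComponents (realPart F) =>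
      Pres (rotL th) κ).card + 1 ≤ d := by
  set N := Finset.univ.filter fun κ : ConnectedComponents (realPart F) => Pres (rotL th) κ with hN
  -- the inequality
  have key : ∀ a b : ℝ, (a ≠ 0 ∨ b ≠ 0) → ∀ E : Finset RP2,
      (∀ p ∈ E, Zr F (lf a b) p ∧ ∀ κ ∈ N, ¬ InC κ p) → 2 * N.card + E.card ≤ d := by
    intro a b hab E hE
    have h1 : ∀ κ : ConnectedComponents (realPart F), ∃ A : Finset RP2, κ ∈ N →
        A.card = 2 ∧ ∀ p ∈ A, InC κ p ∧ Zr F (lf a b) p := by
      intro κ
      by_cases hκ : κ ∈ N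
      · obtain ⟨γ, T, P⟩ := C.exists_par κ
        obtain ⟨A, hA⟩ := P.line C hs hP (Finset.mem_filter.1 hκ).2 a b
        exact ⟨A, fun _ => hA⟩
      · exact ⟨∅, fun h => absurd h hκ⟩
    choose A hA using h1
    have h2 := bez_wt C (lf_homog a b) hirr
      (not_dvd_of_degree hirr C.hF (lf_homog a b) (lf_ne hab) hd) (N.biUnion A ∪ E) (by
        intro p hp
        rcases Finset.mem_union.1 hp with hp | hp
        · obtain ⟨κ, hκ, hp⟩ := Finset.mem_biUnion.1 hp
          exact ((hA κ hκ).2 p hp).2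
        · exact (hE p hp).1)
    unfold wt at h2
    rw [Finset.card_union_of_disjoint, Finset.card_biUnion] at h2
    · rw [Finset.sum_congr rfl fun κ hκ => (hA κ hκ).1] at h2
      simp only [Finset.sum_const, smul_eq_mul] at h2
      omega
    · intro κ hκ κ' hκ' hne
      rw [Function.onFun, Finset.disjoint_left]
      intro p hp hp'
      exact hne (((hA κ hκ).2 p hp).1.unique ((hA κ' hκ').2 p hp').1)
    · rw [Finset.disjoint_left]
      intro p hp hpE
      obtain ⟨κ, hκ, hp⟩ := Finset.mem_biUnion.1 hp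
      exact (hE p hpE).2 κ hκ ((hA κ hκ).2 p hp).1
  have h3 : ∃ κ, κ ∉ N := by
    by_contra hcon
    push Not at hcon
    have h4 := key 1 0 (Or.inl one_ne_zero) ∅ (by simp)
    have h5 : N = Finset.univ := Finset.eq_univ_iff_forall.2 hcon
    rw [h5, Finset.card_univ] at h4
    simp at h4
    omega
  obtain ⟨κ, hκ⟩ := h3
  obtain ⟨p, hp⟩ := exists_inC κ
  obtain ⟨v, hv1, hv0, rfl⟩ := exists_unit C.hF hp.1
  have hab : -v 1 ≠ 0 ∨ v 0 ≠ 0 := by
    by_contra hcon
    push Not at hcon
    obtain ⟨e1, e0⟩ := hcon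
    have e1' : v 1 = 0 := by linarith
    apply hP
    have h8 : v = v 2 • ![0, 0, 1] := by
      funext i
      rcases fin3 i with rfl | rfl | rfl
      · simp [e0]
      · simp [e1']
      · simp
    rw [h8, eval_smul' C.hF] at hv0
    rcases mul_eq_zero.1 hv0 with h10 | h10
    · exfalso
      have h12 : v 2 = 0 := pow_eq_zero_iff C.hd0.ne' |>.1 h10
      unfold nsq at hv1
      rw [e0, e1', h12] at hv1
      norm_num at hv1
    · exact h10
  have h6 := key (-v 1) (v 0) hab {pr v} (by
    intro q hq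
    rw [Finset.mem_singleton.1 hq]
    refine ⟨Zr_of C.hF (lf_homog _ _) hv1 hv0 (by rw [eval_lf]; ring), ?_⟩
    intro κ' hκ' hC
    exact hκ (hp.unique hC ▸ hκ'))
  rw [Finset.card_singleton] at h6
  exact h6

theorem gmap_iterate (g : V3 ≃ₗ[ℝ] V3) (k : ℕ) {v : V3} (hv : v ≠ 0) :
    (gmap g)^[k] (pr v) = pr (g^[k] v) ∧ g^[k] v ≠ 0 := by
  induction k with
  | zero => exact ⟨rfl, hv⟩
  | succ k ih =>
    obtain ⟨h1, h2⟩ := ih
    rw [Function.iterate_succ_apply', Function.iterate_succ_apply', h1, gmap_pr g h2]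
    exact ⟨rfl, fun h => h2 (g.map_eq_zero_iff.1 h)⟩

/-- **A symmetry of order three of an octic with 22 components preserves exactly one of them.** -/
theorem order_three (C : Curve F 8) (hirr : Irreducible F)
    (hM : Nat.card (ConnectedComponents (realPart F)) = (8 - 1) * (8 - 2) / 2 + 1)
    (g : V3 ≃ₗ[ℝ] V3) {c : ℝ} (hg : ∀ v, eval (g v) F = c * eval v F)
    (hord : ∀ k : ℕ, (∃ a : ℝ, ∀ v, g^[k] v = a • v) ↔ 3 ∣ k) :
    {κ : ConnectedComponents (realPart F) | Pres g κ}.ncard = 1 := by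
  classical
  have hfin : Finite (ConnectedComponents (realPart F)) :=
    Nat.finite_of_card_ne_zero (by rw [hM]; omega)
  have : Fintype (ConnectedComponents (realPart F)) := Fintype.ofFinite _
  have hM22 : Fintype.card (ConnectedComponents (realPart F)) = 22 := by
    rw [← Nat.card_eq_fintype_card, hM]
  have h0 := semi_iff hirr hg
  set ρ : Function.End (ConnectedComponents (realPart F)) := tmap g h0 with hρ
  have hiter : ∀ (k : ℕ) (κ : ConnectedComponents (realPart F)) (p : RP2), InC κ p →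
      InC ((tmap g h0)^[k] κ) ((gmap g)^[k] p) := by
    intro k
    induction k with
    | zero => intro κ p hp; exact hp
    | succ k ih =>
      intro κ p hp
      rw [Function.iterate_succ_apply', Function.iterate_succ_apply']
      exact inC_tmap h0 (ih κ p hp)
  have hρ3 : ρ ^ 3 ^ 1 = 1 := by
    obtain ⟨a, ha⟩ := (hord 3).2 dvd_rfl
    funext κ
    obtain ⟨p, hp⟩ := exists_inC κ
    have h1 := hiter 3 κ p hp
    have h2 : (gmap g)^[3] p = p := by
      rw [← pr_rep p]
      have hne := ne_zero_of_nsq (nsq_rep p)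
      obtain ⟨e1, e2⟩ := gmap_iterate g 3 hne
      rw [e1]
      exact ((pr_eq hne e2).2 ⟨a, ha _⟩).symm
    rw [h2] at h1
    have h3 : (ρ ^ 3 ^ 1) κ = (tmap g h0)^[3] κ := by
      rw [pow_one]
      rfl
    rw [h3, h1.unique hp]
    rfl
  have : Fact (Nat.Prime 3) := ⟨Nat.prime_three⟩
  have hmod := Equiv.Perm.card_fixedPoints_modEq hρ3
  obtain ⟨B, m, a, ha, hB, hs, hP⟩ := exists_rot C le_rfl g hg hord
  have hM' : Nat.card (ConnectedComponents (realPart (pull F B))) = 22 := by
    rw [← hM22, ← Nat.card_eq_fintype_card]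
    exact card_components (homeoOf B (pull_iff F B))
  have hfin' : Finite (ConnectedComponents (realPart (pull F B))) :=
    Nat.finite_of_card_ne_zero (by rw [hM']; omega)
  have : Fintype (ConnectedComponents (realPart (pull F B))) := Fintype.ofFinite _
  have hle := rot_count (curve_pull C B) (irr_pull hirr B) (by norm_num) hs hP (by
    rw [← Nat.card_eq_fintype_card, hM']
    norm_num)
  -- the comparison
  have hsub : ∀ κ' : ConnectedComponents (realPart (pull F B)),
      Pres g (tmap B (pull_iff F B) κ') → Pres (rotL th) κ' := by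
    intro κ' h1
    have h2 := (pres_iff h0).1 h1
    obtain ⟨p, hp⟩ := exists_inC κ'
    have h3 := hiter m _ _ (inC_tmap (pull_iff F B) hp)
    rw [Function.iterate_fixed h2] at h3
    have hne := ne_zero_of_nsq (nsq_rep p)
    have hBne : B (rep p) ≠ 0 := fun h => hne (B.map_eq_zero_iff.1 h)
    have hRne : rotF th (rep p) ≠ 0 := ne_zero_of_nsq (by rw [nsq_rotF, nsq_rep])
    have hBRne : B (rotF th (rep p)) ≠ 0 := fun h => hRne (B.map_eq_zero_iff.1 h)
    have h4 : (gmap g)^[m] (gmap B p) = gmap B (gmap (rotL th) p) := by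
      rw [← pr_rep p, gmap_pr B hne, gmap_pr (rotL th) hne, rotL_apply, gmap_pr B hRne]
      obtain ⟨e1, e2⟩ := gmap_iterate g m hBne
      rw [e1]
      exact ((pr_eq hBRne e2).2 ⟨a, hB _⟩).symm
    rw [h4] at h3
    have h5 := inC_tmap (symm_iff (pull_iff F B)) h3
    rw [tmap_symm_tmap, gmap_symm_gmap] at h5
    exact ⟨p, hp, h5⟩
  have h6 : {κ : ConnectedComponents (realPart F) | Pres g κ}.ncard ≤
      (Finset.univ.filter fun κ : ConnectedComponents (realPart (pull F B)) =>
        Pres (rotL th) κ).card := by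
    rw [← Set.ncard_coe_finset]
    rw [← Set.ncard_image_of_injective _ (tmap_inj (pull_iff F B))]
    refine Set.ncard_le_ncard ?_ (Set.toFinite _)
    intro κ hκ
    refine ⟨tmap B.symm (symm_iff (pull_iff F B)) κ, ?_, tmap_tmap_symm (pull_iff F B) κ⟩
    simp only [Finset.coe_filter, Finset.mem_univ, true_and, Set.mem_ofPred_eq]
    apply hsub
    rw [tmap_tmap_symm]
    exact hκ
  have h7 : {κ : ConnectedComponents (realPart F) | Pres g κ}.ncard =
      Fintype.card (Function.fixedPoints ρ) := by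
    rw [← Nat.card_eq_fintype_card, Nat.card_coe_set_eq]
    congr 1
    ext κ
    exact pres_iff h0
  rw [hM22] at hmod
  rw [h7] at h6 ⊢
  have h8 : 22 % 3 = Fintype.card (Function.fixedPoints ρ) % 3 := hmod
  omega

end

end Pool.Agent.H25.SO
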