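import Pool.Agent.H25.SO.Oct
import Pool.Agent.H25.SO.Three

/-!
# Groups of symmetries of the octics with 22 components
-/

set_option autoImplicit false

open MvPolynomial Set
open Pool.Agent.H83.MC

namespace Pool.Agent.H25.SO

noncomputable section

/-- `g` is a projective symmetry of the curve `F = 0` -/
def IsSymm (F : MvPolynomial (Fin 3) ℝ) (g : (Fin 3 → ℝ) ≃ₗ[ℝ] (Fin 3 → ℝ)) : Prop :=
  ∃ c : ℝ, ∀ v, eval (g v) F = c * eval v F

/-- A faithful action of the group `Γ` on the real projective plane by symmetries of `F = 0`: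
a product of two elements acts as the product of the maps up to a factor, and only `1` acts
as a scalar. -/
structure ProjAct (Γ : Type) [Group Γ] (F : MvPolynomial (Fin 3) ℝ)
    (φ : Γ → (Fin 3 → ℝ) ≃ₗ[ℝ] (Fin 3 → ℝ)) : Prop where
  mul : ∀ x y, ∃ s : ℝ, ∀ v, φ (x * y) v = s • φ x (φ y v)
  faithful : ∀ x, (∃ s : ℝ, ∀ v, φ x v = s • v) → x = 1
  symm : ∀ x, IsSymm F (φ x)

variable {F : MvPolynomial (Fin 3) ℝ} {Γ : Type} [Group Γ]
  {φ : Γ → (Fin 3 → ℝ) ≃ₗ[ℝ] (Fin 3 → ℝ)}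

theorem factor_ne {g : V3 ≃ₗ[ℝ] V3} {f : V3 → V3} {s : ℝ} (H : ∀ v, g v = s • f v) : s ≠ 0 := by
  rintro rfl
  have h1 := H (Pi.single 0 1)
  rw [zero_smul, g.map_eq_zero_iff] at h1
  have := congrFun h1 0
  simp at this

theorem ProjAct.one (A : ProjAct Γ F φ) : ∃ s : ℝ, s ≠ 0 ∧ ∀ v, φ 1 v = s • v := by
  obtain ⟨s, hs⟩ := A.mul 1 1
  have hs0 : s ≠ 0 := factor_ne hs
  refine ⟨s⁻¹, inv_ne_zero hs0, fun w => ?_⟩
  obtain ⟨v, rfl⟩ := (φ 1).surjective w
  have h1 := hs v
  rw [one_mul] at h1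
  have h2 : s⁻¹ • φ 1 v = s⁻¹ • s • φ 1 (φ 1 v) := congrArg _ h1
  rw [h2, inv_smul_smul₀ hs0]

theorem ProjAct.pow (A : ProjAct Γ F φ) (x : Γ) (k : ℕ) :
    ∃ s : ℝ, s ≠ 0 ∧ ∀ v, φ (x ^ k) v = s • (φ x)^[k] v := by
  induction k with
  | zero =>
    obtain ⟨s, hs0, hs⟩ := A.one
    exact ⟨s, hs0, fun v => by rw [pow_zero, hs]; rfl⟩
  | succ k ih =>
    obtain ⟨s, hs0, hs⟩ := ih
    obtain ⟨t, ht⟩ := A.mul x (x ^ k)
    have ht0 : t ≠ 0 := factor_ne ht
    refine ⟨t * s, mul_ne_zero ht0 hs0, fun v => ?_⟩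
    rw [pow_succ', ht, hs, map_smul, Function.iterate_succ_apply', smul_smul]

/-- elements which act in the same way are equal -/
theorem ProjAct.eq_of (A : ProjAct Γ F φ) {x y : Γ} {t : ℝ} (h : ∀ v, φ x v = t • φ y v) :
    x = y := by
  obtain ⟨s, hs⟩ := A.mul (x * y⁻¹) y
  have hs0 : s ≠ 0 := factor_ne hs
  have h1 : x * y⁻¹ = 1 := by
    apply A.faithful
    refine ⟨s⁻¹ * t, fun w => ?_⟩
    obtain ⟨v, rfl⟩ := (φ y).surjective w
    have h2 := hs v
    rw [inv_mul_cancel_right, h] at h2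
    rw [mul_smul, h2, inv_smul_smul₀ hs0]
  exact mul_inv_eq_one.1 h1

theorem ProjAct.ord (A : ProjAct Γ F φ) (x : Γ) (k : ℕ) :
    (∃ a : ℝ, ∀ v, (φ x)^[k] v = a • v) ↔ orderOf x ∣ k := by
  obtain ⟨s, hs0, hs⟩ := A.pow x k
  rw [orderOf_dvd_iff_pow_eq_one]
  constructor
  · rintro ⟨a, ha⟩
    exact A.faithful _ ⟨s * a, fun v => by rw [hs, ha, smul_smul]⟩
  · intro h
    obtain ⟨t, -, ht⟩ := A.one
    refine ⟨s⁻¹ * t, fun v => ?_⟩
    have h1 := hs v
    rw [h, ht] at h1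
    rw [mul_smul, h1, inv_smul_smul₀ hs0]

theorem ProjAct.comm (A : ProjAct Γ F φ) {x y : Γ} (h : x * y = y * x) :
    ∀ v, φ x (φ y v) = φ y (φ x v) := by
  obtain ⟨s, hs⟩ := A.mul x y
  obtain ⟨t, ht⟩ := A.mul y x
  have hs0 : s ≠ 0 := factor_ne hs
  have h1 : ∀ v, φ x (φ y v) = (s⁻¹ * t) • φ y (φ x v) := by
    intro v
    rw [mul_smul, ← ht, ← h, hs, inv_smul_smul₀ hs0]
  have h2 := nu_one h1
  intro v
  rw [h1, h2, one_smul]

theorem ProjAct.sq (A : ProjAct Γ F φ) {x : Γ} (h : x * x = 1) :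
    ∃ a : ℝ, ∀ v, φ x (φ x v) = a • v := by
  have := (A.ord x 2).2 (orderOf_dvd_iff_pow_eq_one.2 (by rw [pow_two, h]))
  obtain ⟨a, ha⟩ := this
  exact ⟨a, ha⟩

/-- no four-group -/
theorem ProjAct.no_four (A : ProjAct Γ F φ) {d k : ℕ} (C : Curve F d) (hirr : Irreducible F)
    (hk : 3 ≤ k) (hdk : d = 2 * k)
    (hM : Nat.card (ConnectedComponents (realPart F)) = (d - 1) * (d - 2) / 2 + 1)
    {x y : Γ} (hx : x * x = 1) (hy : y * y = 1) (hxy : x * y = y * x) (hx1 : x ≠ 1) (hy1 : y ≠ 1)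
    (hne : x ≠ y) : False := by
  obtain ⟨a, ha⟩ := A.sq hx
  obtain ⟨b, hb⟩ := A.sq hy
  obtain ⟨c, hc⟩ := A.symm x
  obtain ⟨c', hc'⟩ := A.symm y
  have hcomm := A.comm hxy
  refine no_v4 C hirr hk hdk hM (φ x) (φ y) hc hc' (ν := 1) ha hb
    (fun v => by rw [one_smul, hcomm]) (fun h => hx1 (A.faithful x h))
    (fun h => hy1 (A.faithful y h)) ?_
  rintro ⟨t, ht⟩
  apply hne
  obtain ⟨s, hs⟩ := A.mul x y
  have h1 : x * y = 1 := A.faithful _ ⟨s * t, fun v => by rw [hs, ht, smul_smul]⟩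
  rw [← mul_right_inj x, hx, h1]

/-- no elementary abelian group of order nine -/
theorem ProjAct.no_nine (A : ProjAct Γ F φ) {x y : Γ} (hx : orderOf x = 3) (hy : orderOf y = 3)
    (hxy : x * y = y * x) (hne : ∀ m : ℕ, y ≠ x ^ m) : False := by
  have hord := A.ord x
  rw [hx] at hord
  obtain ⟨b, hb⟩ := (A.ord y 3).2 (by rw [hy])
  obtain ⟨m, t, h | h⟩ := comm3 (h := φ y) hord hb (A.comm hxy)
  · obtain ⟨s, hs0, hs⟩ := A.pow x m
    apply hne m
    apply A.eq_of (t := t * s⁻¹)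
    intro v
    rw [h, hs, mul_smul, inv_smul_smul₀ hs0]
  · obtain ⟨s, hs0, hs⟩ := A.pow x m
    obtain ⟨s', hs'⟩ := A.mul y (x ^ m)
    have h1 : y * x ^ m = 1 := by
      apply A.faithful
      refine ⟨s' * (s * t), fun v => ?_⟩
      rw [hs', hs, map_smul, h, smul_smul, smul_smul, mul_assoc]
    apply hne (2 * m)
    have h2 : x ^ 3 = 1 := by rw [← hx, pow_orderOf_eq_one]
    have h3 : x ^ (2 * m) * x ^ m = 1 := by
      rw [← pow_add, show 2 * m + m = 3 * m by ring, pow_mul, h2, one_pow]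
    exact mul_right_cancel (h1.trans h3.symm)

/-- **The order of a finite group of symmetries of an M-curve of even degree is not divisible
by four.** -/
theorem ProjAct.not_four [Finite Γ] (A : ProjAct Γ F φ) {d k : ℕ} (C : Curve F d)
    (hirr : Irreducible F) (hk : 3 ≤ k) (hdk : d = 2 * k)
    (hM : Nat.card (ConnectedComponents (realPart F)) = (d - 1) * (d - 2) / 2 + 1) :
    ¬ 2 ^ 2 ∣ Nat.card Γ := by
  intro h
  have : Fact (Nat.Prime 2) := ⟨Nat.prime_two⟩
  obtain ⟨K, hK⟩ := Sylow.exists_subgroup_card_pow_prime 2 h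
  have hcomm := (IsPGroup.isMulCommutative_of_card_eq_prime_sq hK).is_comm.comm
  have hsq : ∀ x : K, x * x = 1 := by
    intro x
    have h1 : orderOf x ∣ 2 ^ 2 := hK ▸ orderOf_dvd_natCard x
    have h3 : orderOf x ∣ 2 := by
      obtain ⟨i, hi, h4⟩ := (Nat.dvd_prime_pow Nat.prime_two).1 h1
      have h5 : orderOf x ≠ 4 := by
        intro h6
        obtain ⟨c, hc⟩ := A.symm (x : Γ)
        have h7 := A.ord (x : Γ)
        rw [Subgroup.orderOf_coe, h6] at h7
        exact no_order_four' C hirr hk hdk hM (φ x) hc h7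
      have h6 : i ≠ 2 := by
        rintro rfl
        exact h5 h4
      rw [h4]
      interval_cases i
      · norm_num
      · norm_num
      · exact absurd rfl h6
    rw [← pow_two]
    exact orderOf_dvd_iff_pow_eq_one.1 h3
  have hn1 : ∃ x : K, x ≠ 1 := by
    by_contra hcon
    push Not at hcon
    have : Nat.card K ≤ 1 := by
      have : Subsingleton K := ⟨fun a b => by rw [hcon a, hcon b]⟩
      exact Finite.card_le_one_iff_subsingleton.2 this
    rw [hK] at this
    norm_num at this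
  obtain ⟨x, hx⟩ := hn1
  have hn2 : ∃ y : K, y ≠ 1 ∧ y ≠ x := by
    by_contra hcon
    push Not at hcon
    classical
    have : Fintype K := Fintype.ofFinite _
    have h5 : (Finset.univ : Finset K) ⊆ {1, x} := by
      intro y _
      by_cases hy : y = 1
      · simp [hy]
      · simp [hcon y hy]
    have h6 := Finset.card_le_card h5
    have h7 := Finset.card_le_two (a := (1 : K)) (b := x)
    rw [Finset.card_univ, ← Nat.card_eq_fintype_card, hK] at h6
    omega
  obtain ⟨y, hy, hyx⟩ := hn2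
  refine A.no_four (x := x) (y := y) C hirr hk hdk hM ?_ ?_ ?_ ?_ ?_ ?_
  · exact_mod_cast congrArg Subtype.val (hsq x)
  · exact_mod_cast congrArg Subtype.val (hsq y)
  · exact_mod_cast congrArg Subtype.val (hcomm x y)
  · exact fun h => hx (Subtype.ext h)
  · exact fun h => hy (Subtype.ext h)
  · exact fun h => hyx (Subtype.ext h.symm)

/-- **The groups of symmetries of the M-curves of degree eight.** -/
theorem ProjAct.card_dvd [Finite Γ] (A : ProjAct Γ F φ) (C : Curve F 8) (hirr : Irreducible F)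
    (hM : Nat.card (ConnectedComponents (realPart F)) = (8 - 1) * (8 - 2) / 2 + 1) :
    Nat.card Γ ∣ 6 ∧ ∀ x : Γ, orderOf x ≤ 3 := by
  have hord : ∀ x : Γ, orderOf x ≤ 3 := by
    intro x
    obtain ⟨c, hc⟩ := A.symm x
    exact order_le C hirr hM (φ x) hc (orderOf_pos x) (A.ord x)
  have h4 := A.not_four C hirr (k := 4) (by norm_num) rfl hM
  have h9 : ¬ 3 ^ 2 ∣ Nat.card Γ := by
    intro h
    have : Fact (Nat.Prime 3) := ⟨Nat.prime_three⟩
    obtain ⟨K, hK⟩ := Sylow.exists_subgroup_card_pow_prime 3 h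
    have hcomm := (IsPGroup.isMulCommutative_of_card_eq_prime_sq hK).is_comm.comm
    have ho : ∀ x : K, x ≠ 1 → orderOf x = 3 := by
      intro x hx
      have h1 : orderOf x ∣ 3 ^ 2 := hK ▸ orderOf_dvd_natCard x
      have h2 := hord (x : Γ)
      rw [Subgroup.orderOf_coe] at h2
      have h5 := orderOf_pos_iff.2 (isOfFinOrder_of_finite x)
      have h6 : orderOf x ≠ 1 := fun h => hx (orderOf_eq_one_iff.1 h)
      have h7 : orderOf x ≠ 2 := by
        intro h5
        rw [h5] at h1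
        norm_num at h1
      omega
    have hn1 : ∃ x : K, x ≠ 1 := by
      by_contra hcon
      push Not at hcon
      have : Nat.card K ≤ 1 := by
        have : Subsingleton K := ⟨fun a b => by rw [hcon a, hcon b]⟩
        exact Finite.card_le_one_iff_subsingleton.2 this
      rw [hK] at this
      norm_num at this
    obtain ⟨x, hx⟩ := hn1
    have hn2 : ∃ y : K, y ∉ Subgroup.zpowers x := by
      by_contra hcon
      push Not at hcon
      have h5 : Subgroup.zpowers x = ⊤ := (Subgroup.eq_top_iff' _).2 hcon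
      have h6 := Nat.card_zpowers x
      rw [h5, ho x hx, Subgroup.card_top, hK] at h6
      norm_num at h6
    obtain ⟨y, hy⟩ := hn2
    have hy1 : y ≠ 1 := by
      rintro rfl
      exact hy (Subgroup.one_mem _)
    refine A.no_nine (x := x) (y := y) ?_ ?_ ?_ ?_
    · rw [Subgroup.orderOf_coe, ho x hx]
    · rw [Subgroup.orderOf_coe, ho y hy1]
    · exact_mod_cast congrArg Subtype.val (hcomm x y)
    · intro m hm
      apply hy
      have : y = x ^ m := Subtype.ext (by rw [hm]; rfl)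
      rw [this]
      exact Subgroup.npow_mem_zpowers x m
  refine ⟨?_, hord⟩
  rw [Nat.dvd_iff_prime_pow_dvd_dvd]
  intro p k hp hpk
  rcases Nat.eq_zero_or_pos k with rfl | hk0
  · simp
  · have : Fact p.Prime := ⟨hp⟩
    have h7 : p ∣ Nat.card Γ := (dvd_pow_self p hk0.ne').trans hpk
    obtain ⟨x, hx⟩ := exists_prime_orderOf_dvd_card' p h7
    have h8 := hord x
    rw [hx] at h8
    have h9' := hp.two_le
    have hk1 : k = 1 := by
      by_contra hk1
      have h10 : p ^ 2 ∣ Nat.card Γ := (pow_dvd_pow p (by omega)).trans hpk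
      interval_cases p
      · exact h4 h10
      · exact h9 h10
    subst hk1
    interval_cases p <;> norm_num

end

end Pool.Agent.H25.SO
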