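import Pool.Agent.H25.SO.Three

/-!
# The arrangement of the components
-/

set_option autoImplicit false

open MvPolynomial Set
open Pool.Agent.H83.MC

namespace Pool.Agent.H25.SO

noncomputable section

variable {F : MvPolynomial (Fin 3) ℝ} {d : ℕ}

/-- The nonzero vectors whose points in the projective plane are not on the component `κ`. -/
def off (κ : ConnectedComponents (realPart F)) : Set (Fin 3 → ℝ) :=
  {w | ∃ h : w ≠ 0, ¬ InC κ (mkP ⟨w, h⟩)}

/-- The component `κ'` lies in the interior of the oval `κ`: for a point `v` on `κ'` one cannot go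
from `v` to `-v` without crossing the cone over `κ`.  (The cone over an oval cuts the space into the
two cones over its interior, which are exchanged by `v ↦ -v`, and a symmetric remaining part.) -/
def Surr (κ κ' : ConnectedComponents (realPart F)) : Prop :=
  κ' ≠ κ ∧ ∃ v : NZ, InC κ' (mkP v) ∧ ¬ JoinedIn (off κ) v.1 (-v.1)

/-- The property `Q` of the components is determined by the arrangement: it is invariant under the
permutations of the components which respect the relation `Surr`. -/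
def ByArr (Q : ConnectedComponents (realPart F) → Prop) : Prop :=
  ∀ e : ConnectedComponents (realPart F) ≃ ConnectedComponents (realPart F),
    (∀ κ κ', Surr (e κ) (e κ') ↔ Surr κ κ') → ∀ κ, Q (e κ) ↔ Q κ

/-- the permutation of the components given by a symmetry -/
def perm (g : V3 ≃ₗ[ℝ] V3) (h : ∀ v, eval (g v) F = 0 ↔ eval v F = 0) :
    ConnectedComponents (realPart F) ≃ ConnectedComponents (realPart F) where
  toFun := tmap g h
  invFun := tmap g.symm (symm_iff h)
  left_inv := tmap_symm_tmap h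
  right_inv := tmap_tmap_symm h

theorem perm_apply (g : V3 ≃ₗ[ℝ] V3) (h : ∀ v, eval (g v) F = 0 ↔ eval v F = 0)
    (κ : ConnectedComponents (realPart F)) : perm g h κ = tmap g h κ := rfl

theorem surr_map {g : V3 ≃ₗ[ℝ] V3} (h : ∀ v, eval (g v) F = 0 ↔ eval v F = 0)
    {κ κ' : ConnectedComponents (realPart F)} (hS : Surr κ κ') :
    Surr (tmap g h κ) (tmap g h κ') := by
  obtain ⟨hne, v, hv, hj⟩ := hS
  have hgv : g v.1 ≠ 0 := fun h0 => v.2 (g.map_eq_zero_iff.1 h0)
  refine ⟨fun h1 => hne (tmap_inj h h1), ⟨g v.1, hgv⟩, inC_tmap h hv, fun hj' => hj ?_⟩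
  obtain ⟨p, hp⟩ := hj'
  have hc : Continuous g.symm :=
    LinearMap.continuous_of_finiteDimensional g.symm.toLinearMap
  refine ⟨(p.map hc).cast (by simp) (by simp), fun t => ?_⟩
  obtain ⟨h1, h2⟩ := hp t
  have h3 : g.symm (p t) ≠ 0 := fun h0 => h1 (g.symm.map_eq_zero_iff.1 h0)
  refine ⟨h3, fun h4 => h2 ?_⟩
  have h5 : InC (tmap g h κ) (gmap g (mkP ⟨g.symm (p t), h3⟩)) := inC_tmap h h4
  have h6 : gmap g (mkP ⟨g.symm (p t), h3⟩) = mkP ⟨p t, h1⟩ := by
    change mkP ⟨g (g.symm (p t)), _⟩ = _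
    congr 1
    apply Subtype.ext
    exact g.apply_symm_apply _
  rwa [h6] at h5

theorem surr_iff {g : V3 ≃ₗ[ℝ] V3} (h : ∀ v, eval (g v) F = 0 ↔ eval v F = 0)
    (κ κ' : ConnectedComponents (realPart F)) :
    Surr (tmap g h κ) (tmap g h κ') ↔ Surr κ κ' := by
  constructor
  · intro h1
    have h2 := surr_map (symm_iff h) h1
    rwa [tmap_symm_tmap, tmap_symm_tmap] at h2
  · exact surr_map h

theorem ByArr.inv {Q : ConnectedComponents (realPart F) → Prop} (hQ : ByArr Q)
    {g : V3 ≃ₗ[ℝ] V3} (h : ∀ v, eval (g v) F = 0 ↔ eval v F = 0)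
    (κ : ConnectedComponents (realPart F)) : Q (tmap g h κ) ↔ Q κ :=
  hQ (perm g h) (surr_iff h) κ

/-- the classes of ovals of an octic with a symmetry of order three -/
theorem class_three (C : Curve F 8) (hirr : Irreducible F)
    (hM : Nat.card (ConnectedComponents (realPart F)) = (8 - 1) * (8 - 2) / 2 + 1)
    (g : V3 ≃ₗ[ℝ] V3) {c : ℝ} (hg : ∀ v, eval (g v) F = c * eval v F)
    (hord : ∀ k : ℕ, (∃ a : ℝ, ∀ v, g^[k] v = a • v) ↔ 3 ∣ k)
    (Q : ConnectedComponents (realPart F) → Prop) (hQ : ByArr Q) :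
    {κ | Q κ}.ncard % 3 ≠ 2 := by
  classical
  have hfin : Finite (ConnectedComponents (realPart F)) :=
    Nat.finite_of_card_ne_zero (by rw [hM]; omega)
  have : Fintype (ConnectedComponents (realPart F)) := Fintype.ofFinite _
  have h1 := order_three C hirr hM g hg hord
  have h0 := semi_iff hirr hg
  obtain ⟨a, ha⟩ := (hord 3).2 dvd_rfl
  have hρ3 : ∀ κ, tmap g h0 (tmap g h0 (tmap g h0 κ)) = κ := by
    intro κ
    obtain ⟨p, hp⟩ := exists_inC κ
    have h1 := inC_tmap h0 (inC_tmap h0 (inC_tmap h0 hp))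
    have h2 : gmap g (gmap g (gmap g p)) = p := by
      rw [gmap_gmap, gmap_gmap, gmap_congr_smul (g' := LinearEquiv.refl ℝ _) (s := a), gmap_refl]
      exact ha
    rw [h2] at h1
    exact h1.unique hp
  set f : Function.End {κ // Q κ} := fun x => ⟨tmap g h0 x.1, (hQ.inv h0 x.1).2 x.2⟩ with hf
  have hf3 : f ^ 3 ^ 1 = 1 := by
    funext x
    apply Subtype.ext
    exact hρ3 x.1
  have : Fact (Nat.Prime 3) := ⟨Nat.prime_three⟩
  have hmod := Equiv.Perm.card_fixedPoints_modEq hf3
  have hle : Fintype.card (Function.fixedPoints f) ≤ 1 := by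
    rw [← h1, ← Nat.card_eq_fintype_card, ← Nat.card_coe_set_eq]
    refine Nat.card_le_card_of_injective
      (fun x => ⟨x.1.1, (pres_iff h0).2 (congrArg Subtype.val x.2)⟩) ?_
    intro x y hxy
    have h9 := Subtype.ext_iff.1 hxy
    exact Subtype.ext (Subtype.ext h9)
  have hcard : {κ | Q κ}.ncard = Fintype.card {κ // Q κ} := by
    rw [← Nat.card_coe_set_eq, ← Nat.card_eq_fintype_card]
    rfl
  rw [hcard]
  have h8 : Fintype.card {κ // Q κ} % 3 = Fintype.card (Function.fixedPoints f) % 3 := hmod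
  omega

/-- the classes of ovals of a curve with an involution -/
theorem class_two (C : Curve F d) (hirr : Irreducible F) {k : ℕ} (hk : 3 ≤ k) (hdk : d = 2 * k)
    (hM : Nat.card (ConnectedComponents (realPart F)) = (d - 1) * (d - 2) / 2 + 1)
    (g : V3 ≃ₗ[ℝ] V3) {c : ℝ} (hg : ∀ v, eval (g v) F = c * eval v F) {a : ℝ}
    (h2 : ∀ v, g (g v) = a • v) (hs : ¬ ∃ b : ℝ, ∀ v, g v = b • v)
    (m : ℕ) (Q : Fin m → ConnectedComponents (realPart F) → Prop) (hQ : ∀ i, ByArr (Q i))
    (hdis : ∀ i j κ, Q i κ → Q j κ → i = j) (hodd : ∀ i, Odd {κ | Q i κ}.ncard) : m ≤ k := by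
  classical
  have hfin : Finite (ConnectedComponents (realPart F)) :=
    Nat.finite_of_card_ne_zero (by rw [hM]; omega)
  have : Fintype (ConnectedComponents (realPart F)) := Fintype.ofFinite _
  obtain ⟨h1, -⟩ := struct_gen C hirr hk hdk hM g hg h2 hs
  have h0 := semi_iff hirr hg
  have hρ2 : ∀ κ, tmap g h0 (tmap g h0 κ) = κ := by
    intro κ
    obtain ⟨p, hp⟩ := exists_inC κ
    have h1 := inC_tmap h0 (inC_tmap h0 hp)
    have h3 : gmap g (gmap g p) = p := by
      rw [gmap_gmap, gmap_congr_smul (g' := LinearEquiv.refl ℝ _) (s := a), gmap_refl]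
      exact h2
    rw [h3] at h1
    exact h1.unique hp
  -- every class contains a preserved oval
  have hex : ∀ i, ∃ κ, Q i κ ∧ Pres g κ := by
    intro i
    by_contra hcon
    push Not at hcon
    have h3 := even_of_free (K := {κ // Q i κ})
      (fun x => ⟨tmap g h0 x.1, ((hQ i).inv h0 x.1).2 x.2⟩)
      (fun x => Subtype.ext (hρ2 x.1))
      (fun x h5 => hcon x.1 x.2 ((pres_iff h0).2 (congrArg Subtype.val h5)))
    have h5 : {κ | Q i κ}.ncard = Fintype.card {κ // Q i κ} := by
      rw [← Nat.card_coe_set_eq, ← Nat.card_eq_fintype_card]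
      rfl
    have h6 := hodd i
    rw [h5] at h6
    exact (Nat.not_even_iff_odd.2 h6) h3
  choose κ hκ1 hκ2 using hex
  have hinj : Function.Injective κ := fun i j hij => hdis i j (κ i) (hκ1 i) (hij ▸ hκ1 j)
  have h4 : (Set.range κ).ncard ≤ {κ : ConnectedComponents (realPart F) | Pres g κ}.ncard := by
    refine Set.ncard_le_ncard ?_ (Set.toFinite _)
    rintro _ ⟨i, rfl⟩
    exact hκ2 i
  rw [h1, ← Set.image_univ, Set.ncard_image_of_injective _ hinj, Set.ncard_univ,
    Nat.card_eq_fintype_card, Fintype.card_fin] at h4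
  exact h4

end

end Pool.Agent.H25.SO
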