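import Pool.Agent.H25.SO.Dim

/-!
# The theorem of Bezout with simple and double contacts
-/

set_option autoImplicit false

open MvPolynomial Module

namespace Pool.Agent.H25.SO

noncomputable section

/-- the scalar product -/
def dot (n v : Fin 3 → ℝ) : ℝ := n 0 * v 0 + n 1 * v 1 + n 2 * v 2

/-- the linear form with the coefficients `n` -/
def lin (n : Fin 3 → ℝ) : MvPolynomial (Fin 3) ℝ := C (n 0) * X 0 + C (n 1) * X 1 + C (n 2) * X 2

theorem eval_lin (n v : Fin 3 → ℝ) : eval v (lin n) = dot n v := by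
  simp [lin, dot]

theorem hom_lin (n : Fin 3 → ℝ) : (lin n).IsHomogeneous 1 :=
  ((isHomogeneous_C_mul_X _ _).add (isHomogeneous_C_mul_X _ _)).add (isHomogeneous_C_mul_X _ _)

/-- the derivative of `G` at `v` in the direction `x` -/
def dd (v x : Fin 3 → ℝ) : MvPolynomial (Fin 3) ℝ →ₗ[ℝ] ℝ where
  toFun G := pd G 0 v * x 0 + pd G 1 v * x 1 + pd G 2 v * x 2
  map_add' G H := by
    simp only [pd, map_add]
    ring
  map_smul' c G := by
    simp only [pd, Derivation.map_smul, smul_eval, RingHom.id_apply, smul_eq_mul]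
    ring

theorem dd_apply (v x : Fin 3 → ℝ) (G : MvPolynomial (Fin 3) ℝ) :
    dd v x G = pd G 0 v * x 0 + pd G 1 v * x 1 + pd G 2 v * x 2 := rfl

theorem dd_mul (v x : Fin 3 → ℝ) (G H : MvPolynomial (Fin 3) ℝ) :
    dd v x (G * H) = dd v x G * eval v H + eval v G * dd v x H := by
  simp only [dd_apply, pd, Derivation.leibniz, smul_eq_mul, map_add, map_mul]
  ring

theorem dd_lin (v x n : Fin 3 → ℝ) : dd v x (lin n) = dot n x := by
  simp [dd_apply, pd, lin, dot, Derivation.leibniz, pderiv_X]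

/-- the value at `v` -/
def ev (v : Fin 3 → ℝ) : MvPolynomial (Fin 3) ℝ →ₗ[ℝ] ℝ where
  toFun G := eval v G
  map_add' G H := map_add _ _ _
  map_smul' c G := by simp [smul_eval]

theorem ev_apply (v : Fin 3 → ℝ) (G : MvPolynomial (Fin 3) ℝ) : ev v G = eval v G := rfl

/-- the vector product -/
def cross (a b : Fin 3 → ℝ) : Fin 3 → ℝ :=
  ![a 1 * b 2 - a 2 * b 1, a 2 * b 0 - a 0 * b 2, a 0 * b 1 - a 1 * b 0]

theorem dot_self (v : Fin 3 → ℝ) : dot v v = nsq v := by
  unfold dot nsq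
  ring

theorem cross_ne {a b : Fin 3 → ℝ} (ha : a ≠ 0) (h : ¬ ∃ c : ℝ, b = c • a) : cross a b ≠ 0 := by
  intro hc
  apply h
  have c0 : a 1 * b 2 - a 2 * b 1 = 0 := congrFun hc 0
  have c1 : a 2 * b 0 - a 0 * b 2 = 0 := congrFun hc 1
  have c2 : a 0 * b 1 - a 1 * b 0 = 0 := congrFun hc 2
  have hn := nsq_pos ha
  refine ⟨dot a b / nsq a, ?_⟩
  funext i
  simp only [Pi.smul_apply, smul_eq_mul]
  rw [div_mul_eq_mul_div, eq_div_iff hn.ne']
  unfold nsq dot
  rcases fin3 i with rfl | rfl | rfl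
  · linear_combination a 2 * c1 - a 1 * c2
  · linear_combination a 0 * c2 - a 2 * c0
  · linear_combination a 1 * c0 - a 0 * c1

/-- a linear form which vanishes at `b` but not at `a` -/
theorem exists_line {a b : Fin 3 → ℝ} (ha : a ≠ 0) (h : ¬ ∃ c : ℝ, b = c • a) :
    ∃ n, dot n b = 0 ∧ dot n a ≠ 0 := by
  refine ⟨cross (cross a b) b, ?_, ?_⟩
  · simp only [dot, cross, Matrix.cons_val_zero, Matrix.cons_val_one, Matrix.cons_val]
    ring
  · have h1 := nsq_pos (cross_ne ha h)
    have : dot (cross (cross a b) b) a = -nsq (cross a b) := by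
      simp only [dot, cross, nsq, Matrix.cons_val_zero, Matrix.cons_val_one, Matrix.cons_val]
      ring
    rw [this]
    linarith

variable {ι : Type} [Fintype ι] [DecidableEq ι]

/-- the product of the squares of linear forms through the other points -/
theorem exists_Q (p : ι → Fin 3 → ℝ) (hp : ∀ i, p i ≠ 0)
    (hpp : ∀ i j, i ≠ j → ¬ ∃ c : ℝ, p j = c • p i) (i : ι) :
    ∃ Q : MvPolynomial (Fin 3) ℝ, Q.IsHomogeneous (2 * (Fintype.card ι - 1)) ∧
      eval (p i) Q ≠ 0 ∧ ∀ j, j ≠ i → ∀ (R : MvPolynomial (Fin 3) ℝ) (x : Fin 3 → ℝ),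
        eval (p j) (Q * R) = 0 ∧ dd (p j) x (Q * R) = 0 := by
  have h : ∀ j : ι, ∃ n, j ≠ i → dot n (p j) = 0 ∧ dot n (p i) ≠ 0 := by
    intro j
    by_cases hj : j = i
    · exact ⟨0, fun h => absurd hj h⟩
    · obtain ⟨n, hn⟩ := exists_line (hp i) (hpp i j (Ne.symm hj))
      exact ⟨n, fun _ => hn⟩
  choose n hn using h
  refine ⟨∏ j ∈ Finset.univ.erase i, lin (n j) ^ 2, ?_, ?_, ?_⟩
  · have h1 := IsHomogeneous.prod (Finset.univ.erase i) (fun j => lin (n j) ^ 2) (fun _ => 2)
      (fun j _ => by simpa using (hom_lin (n j)).pow 2)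
    rw [Finset.sum_const, Finset.card_erase_of_mem (Finset.mem_univ i), Finset.card_univ,
      smul_eq_mul, mul_comm] at h1
    exact h1
  · rw [map_prod, Finset.prod_ne_zero_iff]
    intro j hj
    rw [map_pow, eval_lin]
    exact pow_ne_zero _ (hn j (Finset.ne_of_mem_erase hj)).2
  · intro j hj R x
    rw [← Finset.mul_prod_erase _ _ (Finset.mem_erase.2 ⟨hj, Finset.mem_univ j⟩)]
    have h0 : eval (p j) (lin (n j)) = 0 := by rw [eval_lin]; exact (hn j hj).1
    set P := ∏ k ∈ (Finset.univ.erase i).erase j, lin (n k) ^ 2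
    have e : lin (n j) ^ 2 * P * R = lin (n j) * (lin (n j) * (P * R)) := by ring
    rw [e]
    refine ⟨by rw [map_mul, h0, zero_mul], ?_⟩
    rw [dd_mul, map_mul, h0]
    ring

/-- the values and the derivatives -/
def Lam (p x : ι → Fin 3 → ℝ) (T : Finset ι) :
    MvPolynomial (Fin 3) ℝ →ₗ[ℝ] (ι → ℝ) × (T → ℝ) :=
  (LinearMap.pi fun i => ev (p i)).prod (LinearMap.pi fun i : T => dd (p i) (x i))

omit [Fintype ι] [DecidableEq ι] in
theorem Lam_fst (p x : ι → Fin 3 → ℝ) (T : Finset ι) (G : MvPolynomial (Fin 3) ℝ) (i : ι) :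
    (Lam p x T G).1 i = eval (p i) G := rfl

omit [Fintype ι] [DecidableEq ι] in
theorem Lam_snd (p x : ι → Fin 3 → ℝ) (T : Finset ι) (G : MvPolynomial (Fin 3) ℝ) (i : T) :
    (Lam p x T G).2 i = dd (p i) (x i) G := rfl

theorem Lam_surj (p x : ι → Fin 3 → ℝ) (hp : ∀ i, p i ≠ 0)
    (hpp : ∀ i j, i ≠ j → ¬ ∃ c : ℝ, p j = c • p i) (T : Finset ι)
    (hx : ∀ i ∈ T, x i ≠ 0 ∧ dot (p i) (x i) = 0) {t : ℕ} (ht : 2 * Fintype.card ι ≤ t) :
    Function.Surjective ((Lam p x T).domRestrict (Fm t)) := by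
  choose Q hQ1 hQ2 hQ3 using exists_Q p hp hpp
  -- the two kinds of forms
  set N := t - 2 * (Fintype.card ι - 1) with hN
  have hA : ∀ i, (Q i * lin (p i) ^ N).IsHomogeneous t := by
    intro i
    have := (hQ1 i).mul ((hom_lin (p i)).pow N)
    rw [one_mul] at this
    convert this using 1
    omega
  have hcard : ∀ i : ι, 0 < Fintype.card ι := fun i => Fintype.card_pos_iff.2 ⟨i⟩
  have hB : ∀ i, (Q i * (lin (p i) ^ (N - 1) * lin (x i))).IsHomogeneous t := by
    intro i
    have := (hQ1 i).mul (((hom_lin (p i)).pow (N - 1)).mul (hom_lin (x i)))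
    rw [one_mul] at this
    convert this using 1
    have := hcard i
    omega
  rintro ⟨a, b⟩
  -- derivative of the first form
  set D : ι → ℝ := fun i => dd (p i) (x i) (Q i * lin (p i) ^ N) with hD
  set E : ι → ℝ := fun i => dd (p i) (x i) (Q i * (lin (p i) ^ (N - 1) * lin (x i))) with hE
  set V : ι → ℝ := fun i => eval (p i) (Q i * lin (p i) ^ N) with hV
  have hV0 : ∀ i, V i ≠ 0 := by
    intro i
    simp only [hV, map_mul, map_pow, eval_lin, dot_self]
    exact mul_ne_zero (hQ2 i) (pow_ne_zero _ (nsq_pos (hp i)).ne')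
  have hlx : ∀ i ∈ T, eval (p i) (lin (x i)) = 0 := by
    intro i hi
    rw [eval_lin]
    have := (hx i hi).2
    unfold dot at this ⊢
    linarith
  have hE0 : ∀ i ∈ T, E i ≠ 0 := by
    intro i hi
    have e : E i = eval (p i) (Q i * lin (p i) ^ (N - 1)) * nsq (x i) := by
      simp only [hE]
      rw [← mul_assoc, dd_mul, hlx i hi, dd_lin, dot_self]
      ring
    rw [e, map_mul, map_pow, eval_lin, dot_self]
    exact mul_ne_zero (mul_ne_zero (hQ2 i) (pow_ne_zero _ (nsq_pos (hp i)).ne'))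
      (nsq_pos (hx i hi).1).ne'
  set G : MvPolynomial (Fin 3) ℝ := ∑ i, (a i / V i) • (Q i * lin (p i) ^ N) +
    ∑ i : T, ((b i - a i * (D i / V i)) / E i) • (Q i * (lin (p i) ^ (N - 1) * lin (x i))) with hG
  have hGh : G ∈ Fm t := by
    refine Submodule.add_mem _ (Submodule.sum_mem _ fun i _ => Submodule.smul_mem _ _ (hA i))
      (Submodule.sum_mem _ fun i _ => Submodule.smul_mem _ _ (hB i))
  refine ⟨⟨G, hGh⟩, ?_⟩
  change Lam p x T G = (a, b)
  have z1 : ∀ j i, j ≠ i → eval (p j) (Q i * lin (p i) ^ N) = 0 := fun j i h => (hQ3 i j h _ 0).1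
  have z2 : ∀ j i, j ≠ i → dd (p j) (x j) (Q i * lin (p i) ^ N) = 0 := fun j i h =>
    (hQ3 i j h _ _).2
  have z3 : ∀ j i, j ≠ i → eval (p j) (Q i * (lin (p i) ^ (N - 1) * lin (x i))) = 0 :=
    fun j i h => (hQ3 i j h _ 0).1
  have z4 : ∀ j i, j ≠ i → dd (p j) (x j) (Q i * (lin (p i) ^ (N - 1) * lin (x i))) = 0 :=
    fun j i h => (hQ3 i j h _ _).2
  have z5 : ∀ i ∈ T, eval (p i) (Q i * (lin (p i) ^ (N - 1) * lin (x i))) = 0 := by
    intro i hi
    rw [map_mul, map_mul, hlx i hi]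
    ring
  refine Prod.ext ?_ ?_
  · funext j
    rw [Lam_fst, hG, map_add, map_sum, map_sum]
    simp only [smul_eval]
    rw [Finset.sum_eq_single j, Finset.sum_eq_zero]
    · rw [add_zero]
      exact div_mul_cancel₀ _ (hV0 j)
    · intro i _
      by_cases h : j = i.1
      · rw [h, z5 i.1 i.2, mul_zero]
      · rw [z3 j i.1 h, mul_zero]
    · intro i _ h
      rw [z1 j i (Ne.symm h), mul_zero]
    · intro h
      exact absurd (Finset.mem_univ _) h
  · funext j
    rw [Lam_snd, hG, map_add, map_sum, map_sum]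
    simp only [map_smul, smul_eq_mul]
    rw [Finset.sum_eq_single j.1, Finset.sum_eq_single j]
    · have h1 := hV0 j.1
      have h2 := hE0 j.1 j.2
      change a j.1 / V j.1 * D j.1 + (b j - a j.1 * (D j.1 / V j.1)) / E j.1 * E j.1 = b j
      rw [div_mul_cancel₀ _ h2]
      field_simp
      ring
    · intro i _ h
      rw [z4 j.1 i.1 (fun h' => h (Subtype.ext h'.symm)), mul_zero]
    · intro h
      exact absurd (Finset.mem_univ _) h
    · intro i _ h
      rw [z2 j.1 i (Ne.symm h), mul_zero]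
    · intro h
      exact absurd (Finset.mem_univ _) h

/-- **Bezout.** The number of common zeros of two forms without common factor, the contacts
counted twice, is at most the product of the degrees. -/
theorem bezout {F H : MvPolynomial (Fin 3) ℝ} {d e : ℕ} (C : Curve F d) (hH : H.IsHomogeneous e)
    (hirr : Irreducible F) (hFH : ¬ F ∣ H) (p : ι → Fin 3 → ℝ) (hp : ∀ i, nsq (p i) = 1)
    (hpp : ∀ i j, i ≠ j → ¬ ∃ c : ℝ, p j = c • p i) (hF0 : ∀ i, eval (p i) F = 0)
    (hH0 : ∀ i, eval (p i) H = 0) (T : Finset ι)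
    (hT : ∀ i ∈ T, dd (p i) (fld F (p i)) H = 0) :
    Fintype.card ι + T.card ≤ d * e := by
  set m := 2 * Fintype.card ι with hm
  set x : ι → Fin 3 → ℝ := fun i => fld F (p i) with hx
  have hsurj := Lam_surj p x (fun i => ne_zero_of_nsq (hp i)) hpp T (fun i _ => by
    constructor
    · intro h0
      have := C.fld_pos (hp i) (hF0 i)
      change x i = 0 at h0
      simp only [hx] at h0
      rw [h0] at this
      simp [nsq] at this
    · simp only [hx, dot, fld, Matrix.cons_val_zero, Matrix.cons_val_one, Matrix.cons_val]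
      ring) (t := d + e + m) (by omega)
  set Λ := (Lam p x T).domRestrict (Fm (d + e + m)) with hΛ
  have hker : ∀ P ∈ mulBy F (m + e) ⊔ mulBy H (m + d), Lam p x T P = 0 := by
    intro P hP
    obtain ⟨P₁, h1, P₂, h2, rfl⟩ := Submodule.mem_sup.1 hP
    obtain ⟨a, -, rfl⟩ := mem_mulBy.1 h1
    obtain ⟨b, -, rfl⟩ := mem_mulBy.1 h2
    refine Prod.ext ?_ ?_
    · funext i
      rw [Lam_fst, map_add, map_mul, map_mul, hF0, hH0]
      simp
    · funext i
      rw [Lam_snd, map_add, dd_mul, dd_mul, hF0, hH0, hT i.1 i.2]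
      have : dd (p i) (x i) F = 0 := by
        simp only [dd_apply, hx, fld, Matrix.cons_val_zero, Matrix.cons_val_one, Matrix.cons_val]
        ring
      rw [this]
      simp
  have hle : mulBy F (m + e) ⊔ mulBy H (m + d) ≤ (LinearMap.ker Λ).map (Fm (d + e + m)).subtype := by
    intro P hP
    have hPt : P ∈ Fm (d + e + m) := by
      obtain ⟨P₁, h1, P₂, h2, rfl⟩ := Submodule.mem_sup.1 hP
      obtain ⟨a, ha, rfl⟩ := mem_mulBy.1 h1
      obtain ⟨b, hb, rfl⟩ := mem_mulBy.1 h2
      refine Submodule.add_mem _ ?_ ?_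
      · have := C.hF.mul ha
        rw [show d + (m + e) = d + e + m by ring] at this
        exact this
      · have := hH.mul hb
        rw [show e + (m + d) = d + e + m by ring] at this
        exact this
    exact ⟨⟨P, hPt⟩, hker P hP, rfl⟩
  have h1 := finrank_sup (e := e) (m := m) C.hF hirr hFH
  have h2 := Submodule.finrank_mono hle
  rw [Submodule.finrank_map_subtype_eq] at h2
  have h3 := LinearMap.finrank_range_add_finrank_ker Λ
  rw [LinearMap.range_eq_top.2 hsurj, finrank_top, finrank_prod, finrank_fintype_fun_eq_card,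
    finrank_fintype_fun_eq_card, Fintype.card_coe] at h3
  omega

end

end Pool.Agent.H25.SO
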