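import Pool.Agent.H25.SO.Zeros

/-!
# Counting the components of a symmetric curve
-/

set_option autoImplicit false

open MvPolynomial Set
open Pool.Agent.H83.MC

namespace Pool.Agent.H25.SO

noncomputable section

variable {F H : MvPolynomial (Fin 3) ℝ} {γ : ℝ → Fin 3 → ℝ} {d e : ℕ} {T : ℝ} {j : Fin 3}
  {κ κ' : ConnectedComponents (realPart F)}

theorem Zr_rp (S : Sym F d j) (hH : H.IsHomogeneous e) (hs : ∀ v, eval (rf j v) H = eval v H)
    {p : RP2} (hp : Zr F H p) : Zr F H (rp j p) := by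
  rw [← pr_rep p, rp_pr (ne_zero_of_nsq (nsq_rep p))]
  refine Zr_of S.hF hH (by rw [nsq_rf, nsq_rep]) ?_ ?_
  · rw [S.hs]; exact hp.1
  · rw [hs]; exact hp.2

/-- a point of a component is a value of the parametrisation -/
theorem Par.exists_zero_time (P : Par F κ γ T) (hH : H.IsHomogeneous e) {p : RP2}
    (hp : InC κ p) (hz : Zr F H p) : ∃ t, eval (γ t) H = 0 := by
  obtain ⟨t, ht⟩ := (P.mem p).1 hp
  refine ⟨t, ?_⟩
  have h1 : pr (γ t) = pr (rep p) := by rw [pr_rep, ht]
  rcases (pr_unit (nsq_rep p) (P.sol.norm t)).1 h1.symm with h2 | h2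
  · rw [h2]; exact hz.2
  · rw [h2]; exact eval_neg_zero hH hz.2

/-- an orbit of components which do not meet the axis carries at least four zeros, if it
carries one -/
theorem Sym.four (S : Sym F d j) (hH : H.IsHomogeneous e) (he : Even e) (he0 : 0 < e)
    (hs : ∀ v, eval (rf j v) H = eval v H) (hax : ¬ Ax j κ) {p : RP2} (hp : InC κ p)
    (hz : Zr F H p) :
    ∃ A : Finset RP2, (∀ q ∈ A, (InC κ q ∨ InC (S.σ κ) q) ∧ Zr F H q) ∧ 4 ≤ wt F H A := by
  classical
  have C := S.toCurve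
  obtain ⟨γ, T, P⟩ := C.exists_par κ
  obtain ⟨t, ht⟩ := P.exists_zero_time hH hp hz
  by_cases hfix : S.σ κ = κ
  · rcases S.dich P hfix with ⟨c, hc⟩ | hrot
    · exfalso
      apply hax
      refine ⟨γ (c / 2), P.sol.norm _, ?_, (P.mem _).2 ⟨_, rfl⟩⟩
      have h1 : rf j (γ (c / 2)) = γ (c / 2) := by
        rw [hc]
        congr 1
        ring
      have := congrFun h1 j
      simp only [rf, if_true] at this
      linarith
    · obtain ⟨A, hA, hA4⟩ := P.four S hH he he0 hs hrot ht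
      exact ⟨A, fun q hq => ⟨Or.inl (hA q hq).1, (hA q hq).2⟩, hA4⟩
  · obtain ⟨A, hA, hA2⟩ := P.two C hH ht
    obtain ⟨γ', T', P'⟩ := C.exists_par (S.σ κ)
    obtain ⟨t', ht'⟩ := P'.exists_zero_time hH (S.inC hp) (Zr_rp S hH hs hz)
    obtain ⟨B, hB, hB2⟩ := P'.two C hH ht'
    have hdis : Disjoint A B := by
      rw [Finset.disjoint_left]
      intro q hqA hqB
      exact hfix ((hB q hqB).1.unique (hA q hqA).1)
    refine ⟨A ∪ B, ?_, ?_⟩
    · intro q hq
      rw [Finset.mem_union] at hq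
      rcases hq with hq | hq
      · exact ⟨Or.inl (hA q hq).1, (hA q hq).2⟩
      · exact ⟨Or.inr (hB q hq).1, (hB q hq).2⟩
    · rw [wt_union hdis]
      omega

theorem not_dvd_of_degree (hirr : Irreducible F) (hF : F.IsHomogeneous d) (hH : H.IsHomogeneous e)
    (hH0 : H ≠ 0) (hed : e < d) : ¬ F ∣ H := by
  rintro ⟨G, rfl⟩
  have hG : G ≠ 0 := right_ne_zero_of_mul hH0
  have h1 := totalDegree_mul_of_isDomain hirr.ne_zero hG
  rw [hH.totalDegree hH0, hF.totalDegree hirr.ne_zero] at h1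
  omega

/-- the points of the curve on the axis -/
theorem Sym.axis_card (S : Sym F d j) (hirr : Irreducible F) (hd : 1 < d) (A : Finset RP2)
    (hA : ∀ p ∈ A, p ∈ realPart F ∧ ∃ v, nsq v = 1 ∧ v j = 0 ∧ pr v = p) : A.card ≤ d := by
  classical
  have hX : (X j : MvPolynomial (Fin 3) ℝ).IsHomogeneous 1 := isHomogeneous_X _ _
  have h1 := bez_wt S.toCurve hX hirr
    (not_dvd_of_degree hirr S.hF hX (X_ne_zero j) hd) A (by
      intro p hp
      obtain ⟨h1, v, hv, hj, rfl⟩ := hA p hp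
      refine Zr_of S.hF hX hv ((mem_real S.hF (ne_zero_of_nsq hv)).1 h1) ?_
      rw [eval_X, hj])
  unfold wt at h1
  omega

/-- the points of a component form an infinite set -/
theorem Par.infinite (P : Par F κ γ T) (C : Curve F d) : {p : RP2 | InC κ p}.Infinite := by
  have hT := P.pos
  have hinj : Set.InjOn (fun t => pr (γ t)) (Set.Ioo 0 T) := by
    intro a ha b hb hab
    by_contra hne
    rcases lt_or_gt_of_ne hne with h | h
    · exact P.ne_of C h (by linarith [ha.1, hb.2]) hab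
    · exact P.ne_of C h (by linarith [hb.1, ha.2]) hab.symm
  refine ((Set.Ioo_infinite hT).image hinj).mono ?_
  rintro p ⟨t, -, rfl⟩
  exact (P.mem _).2 ⟨t, rfl⟩

/-- the fixed points of the reflection on the curve are on the axis -/
theorem Sym.fixed_axis (S : Sym F d j) {p : RP2} (hp : p ∈ realPart F) (h : rp j p = p) :
    ∃ v, nsq v = 1 ∧ v j = 0 ∧ pr v = p := by
  refine ⟨rep p, nsq_rep p, ?_, pr_rep p⟩
  have h0 : eval (rep p) F = 0 := by
    rw [← pr_rep p] at hp
    exact (mem_real S.hF (ne_zero_of_nsq (nsq_rep p))).1 hp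
  rw [← pr_rep p, rp_pr (ne_zero_of_nsq (nsq_rep p)), pr_rep p] at h
  have h1 : pr (rep p) = pr (rf j (rep p)) := by rw [h, pr_rep]
  rcases (pr_unit (nsq_rep p) (by rw [nsq_rf, nsq_rep])).1 h1 with h2 | h2
  · have := congrFun h2 j
    simp only [rf, if_true] at this
    linarith
  · exact (S.center (nsq_rep p) h0 h2).elim

/-- points with disjoint orbits in general position on a component -/
theorem Sym.exists_points (S : Sym F d j) (hirr : Irreducible F) (hd : 1 < d)
    (κ : ConnectedComponents (realPart F)) (n : ℕ) :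
    ∃ Q : Finset RP2, Q.card = n ∧ (∀ q ∈ Q, InC κ q) ∧ ∀ q ∈ Q, ∀ q' ∈ Q, q ≠ rp j q' := by
  classical
  obtain ⟨γ, T, P⟩ := S.toCurve.exists_par κ
  have hinf := P.infinite S.toCurve
  have hfix : {p : RP2 | InC κ p ∧ rp j p = p}.Finite := by
    by_contra hcon
    obtain ⟨A, hA, hAc⟩ := Set.Infinite.exists_subset_card_eq hcon (d + 1)
    have := S.axis_card hirr hd A (by
      intro p hp
      obtain ⟨h1, h2⟩ := hA hp
      exact ⟨h1.1, S.fixed_axis h1.1 h2⟩)
    omega
  induction n with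
  | zero => exact ⟨∅, rfl, by simp, by simp⟩
  | succ n ih =>
    obtain ⟨Q, hQc, hQ, hQQ⟩ := ih
    have hfin : ({p : RP2 | InC κ p ∧ rp j p = p} ∪ ↑Q ∪ ↑(Q.image (rp j))).Finite :=
      (hfix.union (Finset.finite_toSet _)).union (Finset.finite_toSet _)
    obtain ⟨q, hq1, hq2⟩ := (hinf.sdiff hfin).nonempty
    simp only [Set.mem_union, not_or, Finset.coe_image] at hq2
    obtain ⟨⟨h1, h2⟩, h3⟩ := hq2
    have hqq : q ≠ rp j q := fun h => h1 ⟨hq1, h.symm⟩
    refine ⟨insert q Q, ?_, ?_, ?_⟩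
    · rw [Finset.card_insert_of_notMem h2, hQc]
    · intro x hx
      rcases Finset.mem_insert.1 hx with rfl | hx
      · exact hq1
      · exact hQ x hx
    · intro x hx y hy
      rcases Finset.mem_insert.1 hx with hx' | hx' <;>
        rcases Finset.mem_insert.1 hy with hy' | hy'
      · rw [hx', hy']; exact hqq
      · intro h
        rw [hx'] at h
        exact h3 ⟨y, hy', h.symm⟩
      · intro h
        rw [hy'] at h
        apply h3
        refine ⟨x, hx', ?_⟩
        rw [h, rp_rp]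
      · exact hQQ x hx' y hy'

/-- **The main inequality.** -/
theorem Sym.main (S : Sym F d j) (hirr : Irreducible F) {k : ℕ} (hk : 2 ≤ k) (hdk : d = 2 * k)
    (U : Finset (ConnectedComponents (realPart F))) (κ₀ : ConnectedComponents (realPart F)) (n : ℕ)
    (h1 : ∀ κ ∈ U, ¬ Ax j κ) (h2 : ∀ κ ∈ U, ∀ κ' ∈ U, κ ≠ κ' → S.σ κ ≠ κ')
    (h3 : ∀ κ ∈ U, κ ≠ κ₀ ∧ S.σ κ ≠ κ₀) (h4 : U.card + n < k ^ 2) :
    4 * U.card + 2 * n ≤ d * (d - 2) := by
  classical
  have C := S.toCurve
  choose q hq using exists_inC (F := F)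
  obtain ⟨Q, hQc, hQ, hQQ⟩ := S.exists_points hirr (by omega) κ₀ n
  obtain ⟨H, hH0, hHh, hHs, hHQ⟩ := exists_aux k j ((U.image q ∪ Q).image rep) (by
    calc ((U.image q ∪ Q).image rep).card ≤ (U.image q ∪ Q).card := Finset.card_image_le
      _ ≤ (U.image q).card + Q.card := Finset.card_union_le _ _
      _ ≤ U.card + Q.card := by
        have := Finset.card_image_le (s := U) (f := q)
        omega
      _ < k ^ 2 := by rw [hQc]; exact h4)
  have he : Even (2 * k - 2) := ⟨k - 1, by omega⟩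
  have he0 : 0 < 2 * k - 2 := by omega
  have hFH := not_dvd_of_degree hirr S.hF hHh hH0 (by omega)
  have hZ : ∀ p ∈ U.image q ∪ Q, p ∈ realPart F → Zr F H p := by
    intro p hp hpF
    rw [← pr_rep p] at hpF
    exact ⟨(mem_real S.hF (ne_zero_of_nsq (nsq_rep p))).1 hpF,
      hHQ _ (Finset.mem_image_of_mem _ hp)⟩
  -- the zeros on the orbits of `U`
  have hU : ∀ κ, ∃ A : Finset RP2, κ ∈ U →
      (∀ p ∈ A, (InC κ p ∨ InC (S.σ κ) p) ∧ Zr F H p) ∧ 4 ≤ wt F H A := by
    intro κ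
    by_cases hκ : κ ∈ U
    · obtain ⟨A, hA, hA4⟩ := S.four hHh he he0 hHs (h1 κ hκ) (hq κ)
        (hZ _ (Finset.mem_union_left _ (Finset.mem_image_of_mem _ hκ)) (hq κ).1)
      exact ⟨A, fun _ => ⟨hA, hA4⟩⟩
    · exact ⟨∅, fun h => absurd h hκ⟩
  choose A hA using hU
  -- the zeros on the orbit of `κ₀`
  set B : Finset RP2 := Q ∪ Q.image (rp j) with hB
  have hBC : ∀ p ∈ B, InC κ₀ p ∨ InC (S.σ κ₀) p := by
    intro p hp
    rcases Finset.mem_union.1 hp with hp | hp
    · exact Or.inl (hQ p hp)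
    · obtain ⟨p', hp', rfl⟩ := Finset.mem_image.1 hp
      exact Or.inr (S.inC (hQ p' hp'))
  have hBZ : ∀ p ∈ B, Zr F H p := by
    have hQZ : ∀ p ∈ Q, Zr F H p := fun p hp =>
      hZ p (Finset.mem_union_right _ hp) (hQ p hp).1
    intro p hp
    rcases Finset.mem_union.1 hp with hp | hp
    · exact hQZ p hp
    · obtain ⟨p', hp', rfl⟩ := Finset.mem_image.1 hp
      exact Zr_rp S hHh hHs (hQZ p' hp')
  have hrpinj : Function.Injective (rp j) := fun a b h => by
    rw [← rp_rp (j := j) a, h, rp_rp]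
  have hBc : 2 * n ≤ wt F H B := by
    unfold wt
    rw [hB, Finset.card_union_of_disjoint, Finset.card_image_of_injective _ hrpinj, hQc]
    · omega
    · rw [Finset.disjoint_left]
      intro x hx hx'
      obtain ⟨y, hy, hyx⟩ := Finset.mem_image.1 hx'
      exact hQQ x hx y hy hyx.symm
  have hdisU : ∀ a ∈ U, ∀ b ∈ U, a ≠ b → Disjoint (A a) (A b) := by
    intro a ha b hb hab
    rw [Finset.disjoint_left]
    intro p hpa hpb
    rcases ((hA a ha).1 p hpa).1 with x | x <;> rcases ((hA b hb).1 p hpb).1 with y | y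
    · exact hab (x.unique y)
    · exact h2 b hb a ha (Ne.symm hab) (y.unique x)
    · exact h2 a ha b hb hab (x.unique y)
    · apply hab
      rw [← S.σσ a, x.unique y, S.σσ]
  have hdisB : Disjoint (U.biUnion A) B := by
    rw [Finset.disjoint_left]
    intro p hp hpB
    obtain ⟨a, ha, hpa⟩ := Finset.mem_biUnion.1 hp
    obtain ⟨n1, n2⟩ := h3 a ha
    rcases ((hA a ha).1 p hpa).1 with x | x <;> rcases hBC p hpB with y | y
    · exact n1 (x.unique y)
    · apply n2
      rw [x.unique y, S.σσ]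
    · exact n2 (x.unique y)
    · apply n1
      rw [← S.σσ a, x.unique y, S.σσ]
  have hle := bez_wt C hHh hirr hFH (U.biUnion A ∪ B) (by
    intro p hp
    rcases Finset.mem_union.1 hp with hp | hp
    · obtain ⟨a, ha, hpa⟩ := Finset.mem_biUnion.1 hp
      exact ((hA a ha).1 p hpa).2
    · exact hBZ p hp)
  rw [wt_union hdisB, wt_biUnion U A hdisU] at hle
  have hsum : U.card * 4 ≤ ∑ a ∈ U, wt F H (A a) := by
    rw [← smul_eq_mul]
    exact Finset.card_nsmul_le_sum _ _ _ fun a ha => (hA a ha).2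
  have e1 : d * (2 * k - 2) = d * (d - 2) := by rw [hdk]
  omega

end

end Pool.Agent.H25.SO
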