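import Pool.Agent.H83.MC.Base

/-!
# The notions used in the statement on the symmetries of M-curves
-/

set_option autoImplicit false

open MvPolynomial
open Pool.Agent.H83.MC

namespace Pool.Agent.H25.SD

variable {F : MvPolynomial (Fin 3) ℝ}

/-- The point `p` of the real projective plane lies on the component `κ` of the curve `F = 0`. -/
def Lies (κ : ConnectedComponents (realPart F)) (p : RP2) : Prop :=
  ∃ h : p ∈ realPart F, κ = ((⟨p, h⟩ : realPart F) : ConnectedComponents (realPart F))

/-- `g` is a projective symmetry of the curve `F = 0`. -/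
def IsSymm (F : MvPolynomial (Fin 3) ℝ) (g : (Fin 3 → ℝ) ≃ₗ[ℝ] (Fin 3 → ℝ)) : Prop :=
  ∃ c : ℝ, ∀ v, eval (g v) F = c * eval v F

/-- `g` maps a point of the component `κ` to a point of `κ`. -/
def Pres (g : (Fin 3 → ℝ) ≃ₗ[ℝ] (Fin 3 → ℝ)) (κ : ConnectedComponents (realPart F)) : Prop :=
  ∃ p, Lies κ p ∧ Lies κ (gmap g p)

/-- A faithful action of the group `Γ` on the real projective plane by symmetries of `F = 0`:
a product of two elements acts as the product of the maps up to a factor, and only `1` acts
as a scalar. -/
structure ProjAct (Γ : Type) [Group Γ] (F : MvPolynomial (Fin 3) ℝ)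
    (φ : Γ → (Fin 3 → ℝ) ≃ₗ[ℝ] (Fin 3 → ℝ)) : Prop where
  mul : ∀ x y, ∃ s : ℝ, ∀ v, φ (x * y) v = s • φ x (φ y v)
  faithful : ∀ x, (∃ s : ℝ, ∀ v, φ x v = s • v) → x = 1
  symm : ∀ x, IsSymm F (φ x)

/-- The nonzero vectors whose points in the projective plane are not on the component `κ`. -/
def off (κ : ConnectedComponents (realPart F)) : Set (Fin 3 → ℝ) :=
  {w | ∃ h : w ≠ 0, ¬ Lies κ (mkP ⟨w, h⟩)}

/-- The component `κ'` lies in the interior of the oval `κ`: for a point `v` on `κ'` one cannot go
from `v` to `-v` without crossing the cone over `κ`.  (The cone over an oval cuts the space into the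
two cones over its interior, which are exchanged by `v ↦ -v`, and a symmetric remaining part.) -/
def Surr (κ κ' : ConnectedComponents (realPart F)) : Prop :=
  κ' ≠ κ ∧ ∃ v : NZ, Lies κ' (mkP v) ∧ ¬ JoinedIn (off κ) v.1 (-v.1)

/-- The property `Q` of the components is determined by the arrangement: it is invariant under the
permutations of the components which respect the relation `Surr`. -/
def ByArr (Q : ConnectedComponents (realPart F) → Prop) : Prop :=
  ∀ e : ConnectedComponents (realPart F) ≃ ConnectedComponents (realPart F),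
    (∀ κ κ', Surr (e κ) (e κ') ↔ Surr κ κ') → ∀ κ, Q (e κ) ↔ Q κ

end Pool.Agent.H25.SD
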