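import Pool.Agent.H25.SO.EvenForm

/-!
# Components and reflections
-/

set_option autoImplicit false

open MvPolynomial Set
open Pool.Agent.H83.MC

namespace Pool.Agent.H25.SO

noncomputable section

variable {F : MvPolynomial (Fin 3) ℝ} {γ : ℝ → Fin 3 → ℝ} {d : ℕ} {T : ℝ}
  {κ κ' : ConnectedComponents (realPart F)}

/-! ### Maps of components -/

/-- the map of the components given by a linear map which preserves the curve -/
def cmap (g : (Fin 3 → ℝ) ≃ₗ[ℝ] (Fin 3 → ℝ)) (h : ∀ v, eval (g v) F = 0 ↔ eval v F = 0)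
    (κ : ConnectedComponents (realPart F)) : ConnectedComponents (realPart F) :=
  (homeoOf g h).continuous.connectedComponentsMap κ

theorem inC_cmap {g : (Fin 3 → ℝ) ≃ₗ[ℝ] (Fin 3 → ℝ)} (h : ∀ v, eval (g v) F = 0 ↔ eval v F = 0)
    {p : RP2} (hp : InC κ p) : InC (cmap g h κ) (gmap g p) := by
  obtain ⟨h1, rfl⟩ := hp
  refine ⟨(homeoOf g h ⟨p, h1⟩).2, ?_⟩
  unfold cmap
  rw [Continuous.connectedComponentsMap_mk]
  rfl

theorem exists_inC (κ : ConnectedComponents (realPart F)) : ∃ p, InC κ p := by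
  obtain ⟨q, rfl⟩ := ConnectedComponents.surjective_coe κ
  exact ⟨q.1, q.2, rfl⟩

theorem cmap_eq {g : (Fin 3 → ℝ) ≃ₗ[ℝ] (Fin 3 → ℝ)} (h : ∀ v, eval (g v) F = 0 ↔ eval v F = 0)
    {p : RP2} (hp : InC κ p) (hp' : InC κ' (gmap g p)) : cmap g h κ = κ' :=
  (inC_cmap h hp).unique hp'

/-- the reflection as a linear map -/
def rfL (j : Fin 3) : (Fin 3 → ℝ) ≃ₗ[ℝ] (Fin 3 → ℝ) where
  toFun := rf j
  map_add' v w := by
    funext i
    simp only [rf, Pi.add_apply]
    split_ifs <;> ring
  map_smul' c v := by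
    funext i
    simp only [rf, Pi.smul_apply, smul_eq_mul, RingHom.id_apply]
    split_ifs <;> ring
  invFun := rf j
  left_inv v := rf_rf j v
  right_inv v := rf_rf j v

theorem rfL_apply (j : Fin 3) (v : Fin 3 → ℝ) : rfL j v = rf j v := rfl

theorem gmap_pr (g : (Fin 3 → ℝ) ≃ₗ[ℝ] (Fin 3 → ℝ)) {v : Fin 3 → ℝ} (hv : v ≠ 0) :
    gmap g (pr v) = pr (g v) := by
  have hgv : g v ≠ 0 := fun h => hv (g.map_eq_zero_iff.1 h)
  rw [pr_of hv, pr_of hgv]
  rfl

/-- the curve is symmetric with respect to the reflection -/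
structure Sym (F : MvPolynomial (Fin 3) ℝ) (d : ℕ) (j : Fin 3) : Prop extends Curve F d where
  hs : ∀ v, eval (rf j v) F = eval v F

variable {j : Fin 3}

theorem Sym.hz (S : Sym F d j) (v : Fin 3 → ℝ) : eval (rfL j v) F = 0 ↔ eval v F = 0 := by
  rw [rfL_apply, S.hs]

/-- the involution of the components -/
def Sym.σ (S : Sym F d j) (κ : ConnectedComponents (realPart F)) :
    ConnectedComponents (realPart F) := cmap (rfL j) S.hz κ

/-- the reflection of the projective plane -/
def rp (j : Fin 3) (p : RP2) : RP2 := gmap (rfL j) p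

theorem rp_pr {v : Fin 3 → ℝ} (hv : v ≠ 0) : rp j (pr v) = pr (rf j v) := gmap_pr _ hv

theorem rp_rp (p : RP2) : rp j (rp j p) = p := by
  unfold rp
  rw [gmap_gmap]
  have : (rfL j).trans (rfL j) = LinearEquiv.refl ℝ _ := by
    apply LinearEquiv.ext
    intro v
    exact rf_rf j v
  rw [this, gmap_refl]

theorem Sym.inC (S : Sym F d j) {p : RP2} (hp : InC κ p) : InC (S.σ κ) (rp j p) :=
  inC_cmap S.hz hp

theorem Sym.σσ (S : Sym F d j) (κ : ConnectedComponents (realPart F)) : S.σ (S.σ κ) = κ := by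
  obtain ⟨p, hp⟩ := exists_inC κ
  have := S.inC (S.inC hp)
  rw [rp_rp] at this
  exact this.unique hp

/-- the component meets the axis of the reflection -/
def Ax (j : Fin 3) (κ : ConnectedComponents (realPart F)) : Prop :=
  ∃ v : Fin 3 → ℝ, nsq v = 1 ∧ v j = 0 ∧ InC κ (pr v)

theorem rf_of_zero {v : Fin 3 → ℝ} (h : v j = 0) : rf j v = v := by
  funext i
  unfold rf
  split_ifs with hi
  · rw [hi, h, neg_zero]
  · rfl

theorem Sym.fix_of_ax (S : Sym F d j) (h : Ax j κ) : S.σ κ = κ := by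
  obtain ⟨v, hv, hj, hC⟩ := h
  have := S.inC hC
  rw [rp_pr (ne_zero_of_nsq hv), rf_of_zero hj] at this
  exact this.unique hC

theorem pd_neg' {v : Fin 3 → ℝ} (C : Curve F d) (i : Fin 3) : pd F i (-v) = -pd F i v :=
  pd_neg C.hF C.hd C.hd0 i v

theorem fld_neg (C : Curve F d) (v : Fin 3 → ℝ) : fld F (-v) = fld F v := by
  have e := fun i => pd_neg' (v := v) C i
  funext i
  rcases fin3 i with rfl | rfl | rfl <;> simp [fld, e]

/-- the centre is not on the curve -/
theorem Sym.center (S : Sym F d j) {v : Fin 3 → ℝ} (h1 : nsq v = 1) (h0 : eval v F = 0)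
    (hv : rf j v = -v) : False := by
  have hpos := S.toCurve.fld_pos h1 h0
  have h2 := fld_neg S.toCurve v
  rw [← hv] at h2
  have h3 := fun i => fld_rf S.hs v i
  rw [h2] at h3
  have hz : ∀ i, i ≠ j → v i = 0 := by
    intro i hi
    have := congrFun hv i
    simp only [rf, if_neg hi, Pi.neg_apply] at this
    linarith
  have hf : ∀ i, fld F v i = 0 := by
    intro i
    by_cases hi : i = j
    · subst hi
      rcases fin3 i with rfl | rfl | rfl
      · have := hz 1 (by decide)
        have := hz 2 (by decide)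
        simp_all [fld]
      · have := hz 0 (by decide)
        have := hz 2 (by decide)
        simp_all [fld]
      · have := hz 0 (by decide)
        have := hz 1 (by decide)
        simp_all [fld]
    · have := h3 i
      rw [if_neg hi] at this
      linarith
  unfold nsq at hpos
  rw [hf, hf, hf] at hpos
  norm_num at hpos

/-- the two kinds of invariant components -/
theorem Sym.dich (S : Sym F d j) (P : Par F κ γ T) (h : S.σ κ = κ) :
    (∃ c, ∀ u, rf j (γ u) = γ (c - u)) ∨ (∀ u, -rf j (γ u) = γ (u + T / 2)) := by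
  have hp : InC κ (pr (γ 0)) := (P.mem _).2 ⟨0, rfl⟩
  have h1 := S.inC hp
  rw [h, rp_pr (P.sol.ne 0)] at h1
  obtain ⟨t, ht⟩ := (P.mem _).1 h1
  have hδ := P.sol.reflect S.hs
  have h2 : pr (γ t) = pr ((fun t => rf j (γ (-t))) 0) := by simpa using ht
  rcases S.toCurve.orb_eq P.sol hδ h2 with h3 | h3
  · left
    refine ⟨t, fun u => ?_⟩
    have := h3 (-u)
    simp only [zero_add, neg_neg] at this
    rw [this]
    congr 1
  · right
    have h4 : ∀ u, -rf j (γ u) = γ (t + u) := by
      intro u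
      have := h3 (-u)
      simp only [zero_add, neg_neg] at this
      rw [this, neg_neg]
      congr 1
      ring
    have h5 : ∀ v : Fin 3 → ℝ, rf j (-v) = -rf j v := by
      intro v
      funext i
      simp only [rf, Pi.neg_apply]
      split_ifs <;> ring
    have h6 : γ (t + (t + 0)) = γ 0 := by
      rw [← h4, ← h4, h5, rf_rf, neg_neg]
    obtain ⟨n, hn⟩ := P.inj _ _ h6
    rcases Int.even_or_odd' n with ⟨l, rfl | rfl⟩
    · exfalso
      have h7 : t = 0 + l * T := by push_cast at hn; linarith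
      have h8 := h4 0
      rw [h7, add_zero, P.per_int] at h8
      exact S.center (P.sol.norm 0) (P.sol.zero 0) (neg_eq_iff_eq_neg.1 h8)
    · intro u
      rw [h4]
      have h7 : t + u = (u + T / 2) + l * T := by push_cast at hn; linarith
      rw [h7, P.per_int]

/-- a component which meets the axis meets it in at least two points -/
theorem Sym.two_ax (S : Sym F d j) (h : Ax j κ) :
    ∃ v w : Fin 3 → ℝ, nsq v = 1 ∧ nsq w = 1 ∧ v j = 0 ∧ w j = 0 ∧ InC κ (pr v) ∧ InC κ (pr w) ∧
      pr v ≠ pr w := by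
  obtain ⟨γ, T, P⟩ := S.toCurve.exists_par κ
  have hjz : ∀ v : Fin 3 → ℝ, rf j v = v → v j = 0 := by
    intro v hv
    have := congrFun hv j
    simp only [rf, if_true] at this
    linarith
  rcases S.dich P (S.fix_of_ax h) with ⟨c, hc⟩ | hc
  · refine ⟨γ (c / 2), γ ((c + T) / 2), P.sol.norm _, P.sol.norm _, hjz _ ?_, hjz _ ?_,
      (P.mem _).2 ⟨_, rfl⟩, (P.mem _).2 ⟨_, rfl⟩, ?_⟩
    · rw [hc]
      congr 1
      ring
    · rw [hc, ← P.per]
      congr 1
      ring
    · intro he
      obtain ⟨n, hn⟩ := P.pr_inj S.toCurve he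
      have hT := P.pos
      have h1 : ((2 * n + 1 : ℤ) : ℝ) * T = 0 := by push_cast; linarith
      rcases mul_eq_zero.1 h1 with h2 | h2
      · have : (2 * n + 1 : ℤ) = 0 := by exact_mod_cast h2
        omega
      · linarith
  · exfalso
    obtain ⟨v, hv, hvj, hvC⟩ := h
    obtain ⟨t, ht⟩ := (P.mem _).1 hvC
    have h1 : γ t j = 0 := by
      rcases (pr_unit (P.sol.norm t) hv).1 ht with h1 | h1
      · rw [← h1]; exact hvj
      · rw [h1] at hvj
        simpa using hvj
    have h2 := hc t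
    rw [rf_of_zero h1] at h2
    exact P.sol.ne_neg S.hF S.hd S.hd0 _ _ h2.symm

end

end Pool.Agent.H25.SO
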