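import Pool.Agent.H25.SO.Par

/-!
# Dimensions of spaces of ternary forms
-/

set_option autoImplicit false

open MvPolynomial Module

namespace Pool.Agent.H25.SO

noncomputable section

/-- the exponents of degree `n` -/
def mons (n : ℕ) : Finset (Fin 3 →₀ ℕ) := Finset.finsuppAntidiag Finset.univ n

theorem mem_mons {n : ℕ} {m : Fin 3 →₀ ℕ} : m ∈ mons n ↔ m 0 + m 1 + m 2 = n := by
  unfold mons
  rw [Finset.mem_finsuppAntidiag]
  simp [Fin.sum_univ_three]

theorem card_mons (n : ℕ) : 2 * (mons n).card = (n + 1) * (n + 2) := by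
  unfold mons
  rw [Finset.card_finsuppAntidiag_nat_eq_choose]
  have h1 : (Finset.univ : Finset (Fin 3)).card + n - 1 = n + 2 := by
    simp
    omega
  rw [h1, Nat.choose_symm_of_eq_add (show n + 2 = n + 2 from rfl), Nat.choose_two_right]
  have : 2 ∣ (n + 2) * (n + 2 - 1) := by
    have := Nat.even_mul_succ_self (n + 1)
    rw [show (n + 2) * (n + 2 - 1) = (n + 1) * (n + 1 + 1) by
      rw [show n + 2 - 1 = n + 1 by omega]; ring]
    exact this.two_dvd
  rw [Nat.mul_div_cancel' this, show n + 2 - 1 = n + 1 by omega]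
  ring

/-- the forms of degree `n` -/
abbrev Fm (n : ℕ) : Submodule ℝ (MvPolynomial (Fin 3) ℝ) := homogeneousSubmodule (Fin 3) ℝ n

theorem coeff_Fm {n : ℕ} {P : MvPolynomial (Fin 3) ℝ} (hP : P.IsHomogeneous n) {m : Fin 3 →₀ ℕ}
    (hm : m ∉ mons n) : coeff m P = 0 := by
  by_contra hne
  apply hm
  rw [mem_mons]
  exact Pool.Agent.H83.MC.deg_le hP (mem_support_iff.2 hne)

/-- coordinates on the forms of degree `n` -/
def coordEquiv (n : ℕ) : Fm n ≃ₗ[ℝ] (mons n → ℝ) where
  toFun P m := coeff m.1 P.1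
  map_add' P Q := by
    funext m
    simp
  map_smul' c P := by
    funext m
    simp
  invFun c := ⟨∑ m : mons n, monomial m.1 (c m), by
    refine IsHomogeneous.sum _ _ _ fun m _ => isHomogeneous_monomial _ ?_
    have := mem_mons.1 m.2
    rw [Finsupp.degree_eq_sum, Fin.sum_univ_three]
    exact this⟩
  left_inv P := by
    apply Subtype.ext
    ext m
    rw [coeff_sum]
    by_cases hm : m ∈ mons n
    · rw [Finset.sum_eq_single ⟨m, hm⟩]
      · simp
      · intro b _ hb
        rw [coeff_monomial, if_neg]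
        intro h
        exact hb (Subtype.ext h)
      · intro h
        exact absurd (Finset.mem_univ _) h
    · rw [coeff_Fm P.2 hm]
      refine Finset.sum_eq_zero fun b _ => ?_
      rw [coeff_monomial, if_neg]
      intro h
      exact hm (h ▸ b.2)
  right_inv c := by
    funext m
    simp only
    rw [coeff_sum, Finset.sum_eq_single m]
    · simp
    · intro b _ hb
      rw [coeff_monomial, if_neg]
      intro h
      exact hb (Subtype.ext h)
    · intro h
      exact absurd (Finset.mem_univ _) h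

instance (n : ℕ) : FiniteDimensional ℝ (Fm n) := Module.Finite.equiv (coordEquiv n).symm

theorem finrank_Fm (n : ℕ) : 2 * finrank ℝ (Fm n) = (n + 1) * (n + 2) := by
  rw [(coordEquiv n).finrank_eq, finrank_fintype_fun_eq_card, Fintype.card_coe]
  exact card_mons n

/-- the multiples of a form -/
def mulBy (F : MvPolynomial (Fin 3) ℝ) (n : ℕ) : Submodule ℝ (MvPolynomial (Fin 3) ℝ) :=
  (Fm n).map (LinearMap.mulLeft ℝ F)

instance (F : MvPolynomial (Fin 3) ℝ) (n : ℕ) : FiniteDimensional ℝ (mulBy F n) :=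
  inferInstanceAs (FiniteDimensional ℝ ((Fm n).map (LinearMap.mulLeft ℝ F)))

theorem finrank_mulBy {F : MvPolynomial (Fin 3) ℝ} (hF : F ≠ 0) (n : ℕ) :
    finrank ℝ (mulBy F n) = finrank ℝ (Fm n) := by
  have hinj : Function.Injective (LinearMap.mulLeft ℝ F) := fun a b h => mul_left_cancel₀ hF h
  exact (Submodule.equivMapOfInjective (LinearMap.mulLeft ℝ F) hinj (Fm n)).finrank_eq.symm

theorem mem_mulBy {F P : MvPolynomial (Fin 3) ℝ} {n : ℕ} :
    P ∈ mulBy F n ↔ ∃ a, a.IsHomogeneous n ∧ F * a = P := by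
  unfold mulBy
  rw [Submodule.mem_map]
  rfl

/-- the component of a multiple of a form -/
theorem comp_mul {F c : MvPolynomial (Fin 3) ℝ} {d n : ℕ} (hF : F.IsHomogeneous d) :
    homogeneousComponent (d + n) (F * c) = F * homogeneousComponent n c := by
  have h1 : F * c = ∑ i ∈ Finset.range (c.totalDegree + 1), F * homogeneousComponent i c := by
    rw [← Finset.mul_sum, sum_homogeneousComponent]
  rw [h1, map_sum]
  have h2 : ∀ i ∈ Finset.range (c.totalDegree + 1),
      homogeneousComponent (d + n) (F * homogeneousComponent i c) =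
        if n = i then F * homogeneousComponent i c else 0 := by
    intro i _
    rw [homogeneousComponent_of_mem (hF.mul (homogeneousComponent_isHomogeneous i c))]
    simp
  rw [Finset.sum_congr rfl h2, Finset.sum_ite_eq]
  split_ifs with h
  · rfl
  · rw [Finset.mem_range, not_lt] at h
    rw [homogeneousComponent_eq_zero _ _ (by omega), mul_zero]

theorem exists_hom {F c P : MvPolynomial (Fin 3) ℝ} {d n : ℕ} (hF : F.IsHomogeneous d)
    (hP : P.IsHomogeneous (d + n)) (h : P = F * c) :
    ∃ c', c'.IsHomogeneous n ∧ P = F * c' := by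
  refine ⟨homogeneousComponent n c, homogeneousComponent_isHomogeneous n c, ?_⟩
  rw [← comp_mul hF, ← h, homogeneousComponent_of_mem hP, if_pos rfl]

theorem inf_le {F H : MvPolynomial (Fin 3) ℝ} {d e m : ℕ} (hF : F.IsHomogeneous d)
    (hirr : Irreducible F) (hFH : ¬ F ∣ H) :
    mulBy F (m + e) ⊓ mulBy H (m + d) ≤ mulBy (F * H) m := by
  intro P hP
  obtain ⟨⟨a, ha, h1⟩, ⟨b, hb, h2⟩⟩ := And.intro (mem_mulBy.1 hP.1) (mem_mulBy.1 hP.2)
  have hdvd : F ∣ H * b := ⟨a, by rw [h2, h1]⟩
  obtain ⟨c, hc⟩ := (hirr.prime.dvd_or_dvd hdvd).resolve_left hFH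
  obtain ⟨c', hc', hc2⟩ := exists_hom hF (n := m) (by rw [add_comm]; exact hb) hc
  exact mem_mulBy.2 ⟨c', hc', by rw [← h2, hc2]; ring⟩

/-- the ideal of two forms without common factor has the expected dimension -/
theorem finrank_sup {F H : MvPolynomial (Fin 3) ℝ} {d e m : ℕ} (hF : F.IsHomogeneous d)
    (hirr : Irreducible F) (hFH : ¬ F ∣ H) :
    2 * finrank ℝ (Fm (d + e + m)) ≤
      2 * finrank ℝ (mulBy F (m + e) ⊔ mulBy H (m + d) : Submodule ℝ _) + 2 * (d * e) := by
  have hH0 : H ≠ 0 := fun h => hFH (h ▸ dvd_zero F)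
  have h1 := Submodule.finrank_sup_add_finrank_inf_eq (mulBy F (m + e)) (mulBy H (m + d))
  have h2 := Submodule.finrank_mono (inf_le (e := e) (m := m) hF hirr hFH)
  rw [finrank_mulBy hirr.ne_zero, finrank_mulBy hH0] at h1
  rw [finrank_mulBy (mul_ne_zero hirr.ne_zero hH0)] at h2
  have d1 := finrank_Fm (m + e)
  have d2 := finrank_Fm (m + d)
  have d3 := finrank_Fm m
  have d4 := finrank_Fm (d + e + m)
  zify at *
  nlinarith

end

end Pool.Agent.H25.SO
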