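import Pool.Agent.H25.SO.Bez

/-!
# Forms which are even in one variable and vanish at given points
-/

set_option autoImplicit false

open MvPolynomial Module

namespace Pool.Agent.H25.SO

noncomputable section

/-- the exponents which are even at `j` -/
def expo (k : ℕ) (j : Fin 3) (i : Σ b : Fin k, Fin (2 * (b : ℕ) + 1)) : Fin 3 →₀ ℕ :=
  Finsupp.equivFunOnFinite.symm fun l =>
    if l = j then 2 * (k - 1 - i.1) else if l = j + 1 then i.2 else 2 * i.1 - i.2

theorem expo_apply (k : ℕ) (j : Fin 3) (i : Σ b : Fin k, Fin (2 * (b : ℕ) + 1)) (l : Fin 3) :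
    expo k j i l =
    if l = j then 2 * (k - 1 - i.1) else if l = j + 1 then i.2 else 2 * i.1 - i.2 := rfl

theorem fin3' (j : Fin 3) : j + 1 ≠ j ∧ j + 2 ≠ j ∧ j + 2 ≠ j + 1 := by
  revert j
  decide

theorem expo_inj (k : ℕ) (j : Fin 3) : Function.Injective (expo k j) := by
  rintro ⟨b, a⟩ ⟨b', a'⟩ h
  have h1 := DFunLike.congr_fun h j
  have h2 := DFunLike.congr_fun h (j + 1)
  simp only [expo_apply, if_true, (fin3' j).1, if_false] at h1 h2
  have hb : b = b' := by
    apply Fin.ext
    have := b.2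
    have := b'.2
    omega
  subst hb
  have ha : a = a' := Fin.ext h2
  rw [ha]

theorem expo_deg (k : ℕ) (j : Fin 3) (i : Σ b : Fin k, Fin (2 * (b : ℕ) + 1)) :
    (expo k j i).degree = 2 * k - 2 := by
  rw [Finsupp.degree_eq_sum, Fin.sum_univ_three]
  have h1 := i.1.2
  have h2 := i.2.2
  rcases fin3 j with rfl | rfl | rfl <;> simp [expo_apply] <;> omega

theorem card_idx (k : ℕ) : Fintype.card (Σ b : Fin k, Fin (2 * (b : ℕ) + 1)) = k ^ 2 := by
  rw [Fintype.card_sigma]
  simp only [Fintype.card_fin]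
  rw [Fin.sum_univ_eq_sum_range (fun b => 2 * b + 1)]
  induction k with
  | zero => simp
  | succ k ih =>
    rw [Finset.sum_range_succ, ih]
    ring

theorem exists_aux (k : ℕ) (j : Fin 3) (Q : Finset (Fin 3 → ℝ)) (hQ : Q.card < k ^ 2) :
    ∃ H : MvPolynomial (Fin 3) ℝ, H ≠ 0 ∧ H.IsHomogeneous (2 * k - 2) ∧
      (∀ v, eval (rf j v) H = eval v H) ∧ ∀ v ∈ Q, eval v H = 0 := by
  let I := Σ b : Fin k, Fin (2 * (b : ℕ) + 1)
  let Φ : (I → ℝ) →ₗ[ℝ] MvPolynomial (Fin 3) ℝ :=
    { toFun := fun c => ∑ i, monomial (expo k j i) (c i)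
      map_add' := fun c c' => by simp [Finset.sum_add_distrib]
      map_smul' := fun r c => by
        simp only [Pi.smul_apply, RingHom.id_apply, Finset.smul_sum, smul_monomial] }
  let Ψ : (I → ℝ) →ₗ[ℝ] (Q → ℝ) := LinearMap.pi fun q => (ev q.1).comp Φ
  have hlt : finrank ℝ (Q → ℝ) < finrank ℝ (I → ℝ) := by
    rw [finrank_fintype_fun_eq_card, finrank_fintype_fun_eq_card, Fintype.card_coe, card_idx]
    exact hQ
  have hker := LinearMap.ker_ne_bot_of_finrank_lt (f := Ψ) hlt
  obtain ⟨c, hc, hc0⟩ := (Submodule.ne_bot_iff _).1 hker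
  have hcoeff : ∀ i, coeff (expo k j i) (Φ c) = c i := by
    intro i
    change coeff (expo k j i) (∑ i, monomial (expo k j i) (c i)) = c i
    rw [coeff_sum, Finset.sum_eq_single i]
    · simp
    · intro b _ hb
      rw [coeff_monomial, if_neg (fun h => hb (expo_inj k j h))]
    · intro h
      exact absurd (Finset.mem_univ _) h
  refine ⟨Φ c, ?_, ?_, ?_, ?_⟩
  · intro h0
    apply hc0
    funext i
    rw [← hcoeff i, h0, coeff_zero]
    rfl
  · exact IsHomogeneous.sum _ _ _ fun i _ => isHomogeneous_monomial _ (expo_deg k j i)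
  · intro v
    change eval (rf j v) (∑ i, monomial (expo k j i) (c i)) = eval v (∑ i, monomial (expo k j i) (c i))
    rw [map_sum, map_sum]
    refine Finset.sum_congr rfl fun i _ => ?_
    rw [eval_monomial, eval_monomial]
    congr 1
    rw [Finsupp.prod_fintype _ _ (fun _ => pow_zero _), Finsupp.prod_fintype _ _ (fun _ => pow_zero _)]
    refine Finset.prod_congr rfl fun l _ => ?_
    unfold rf
    split_ifs with h
    · rw [expo_apply, if_pos h, Even.neg_pow (even_two_mul _)]
    · rfl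
  · intro v hv
    have := congrFun (LinearMap.mem_ker.1 hc) ⟨v, hv⟩
    exact this

end

end Pool.Agent.H25.SO
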