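import Pool.Agent.H25.SO.Trans

/-!
# Symmetries of order four and commuting involutions
-/

set_option autoImplicit false

open MvPolynomial Set
open Pool.Agent.H83.MC

namespace Pool.Agent.H25.SO

noncomputable section

variable {F : MvPolynomial (Fin 3) ℝ} {γ : ℝ → Fin 3 → ℝ} {d : ℕ} {T : ℝ} {j : Fin 3}
  {κ : ConnectedComponents (realPart F)}

theorem card_eq {k : ℕ} (hk : 3 ≤ k) (hdk : d = 2 * k) {M : ℕ}
    (hM : M = (d - 1) * (d - 2) / 2 + 1) : M + 3 * k = 2 * k ^ 2 + 2 := by
  rw [hM, hdk]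
  obtain ⟨l, rfl⟩ := Nat.exists_eq_add_of_le hk
  have e1 : 2 * (3 + l) - 1 = 2 * l + 5 := by omega
  have e2 : 2 * (3 + l) - 2 = 2 * (l + 2) := by omega
  rw [e1, e2, show (2 * l + 5) * (2 * (l + 2)) = 2 * ((2 * l + 5) * (l + 2)) by ring,
    Nat.mul_div_cancel_left _ (by norm_num)]
  ring

theorem semi_iff (hirr : Irreducible F) {g : V3 ≃ₗ[ℝ] V3} {c : ℝ}
    (hg : ∀ v, eval (g v) F = c * eval v F) (v : V3) : eval (g v) F = 0 ↔ eval v F = 0 := by
  have hc : c ≠ 0 := by
    rintro rfl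
    apply hirr.ne_zero
    apply MvPolynomial.funext
    intro v
    have := hg (g.symm v)
    rw [LinearEquiv.apply_symm_apply, zero_mul] at this
    rw [this, map_zero]
  rw [hg]
  constructor
  · intro h
    exact (mul_eq_zero.1 h).resolve_left hc
  · intro h
    rw [h, mul_zero]

/-- no symmetry of order four -/
theorem no_order_four (C : Curve F d) (hirr : Irreducible F) {k : ℕ} (hk : 3 ≤ k)
    (hdk : d = 2 * k) (hke : Even k)
    (hM : Nat.card (ConnectedComponents (realPart F)) = (d - 1) * (d - 2) / 2 + 1)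
    (g : V3 ≃ₗ[ℝ] V3) {c : ℝ} (hg : ∀ v, eval (g v) F = c * eval v F) {a : ℝ}
    (h4 : ∀ v, g (g (g (g v))) = a • v) (hs : ¬ ∃ b : ℝ, ∀ v, g (g v) = b • v) : False := by
  classical
  have hfin : Finite (ConnectedComponents (realPart F)) :=
    Nat.finite_of_card_ne_zero (by rw [hM]; omega)
  have : Fintype (ConnectedComponents (realPart F)) := Fintype.ofFinite _
  have hcard := card_eq hk hdk hM
  rw [Nat.card_eq_fintype_card] at hcard
  have h0 := semi_iff hirr hg
  set ρ := tmap g h0 with hρ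
  have hinj : Function.Injective ρ := tmap_inj h0
  have hρ4 : ∀ κ, ρ (ρ (ρ (ρ κ))) = κ := by
    intro κ
    obtain ⟨p, hp⟩ := exists_inC κ
    have h1 := inC_tmap h0 (inC_tmap h0 (inC_tmap h0 (inC_tmap h0 hp)))
    have h2 : gmap g (gmap g (gmap g (gmap g p))) = p := by
      rw [gmap_gmap, gmap_gmap, gmap_gmap, gmap_congr_smul (g' := LinearEquiv.refl ℝ _) (s := a),
        gmap_refl]
      exact h4
    rw [h2] at h1
    exact h1.unique hp
  have hP : ∀ κ : ConnectedComponents (realPart F), Pres (g.trans g) κ ↔ ρ (ρ κ) = κ := by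
    intro κ
    have h1 : ∀ p, gmap (g.trans g) p = gmap g (gmap g p) := fun p => (gmap_gmap g g p).symm
    constructor
    · rintro ⟨p, h2, h3⟩
      rw [h1] at h3
      exact (inC_tmap h0 (inC_tmap h0 h2)).unique h3
    · intro h2
      obtain ⟨p, hp⟩ := exists_inC κ
      refine ⟨p, hp, ?_⟩
      have h3 := inC_tmap h0 (inC_tmap h0 hp)
      rw [h1]
      rwa [← hρ, h2] at h3
  obtain ⟨s1, -⟩ := struct_gen C hirr hk hdk hM (g.trans g) (c := c * c) (by
    intro v
    rw [LinearEquiv.trans_apply, hg, hg]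
    ring) (a := a) h4 hs
  set s : Finset (ConnectedComponents (realPart F)) := Finset.univ.filter fun κ => ρ (ρ κ) ≠ κ
    with hsdef
  have hmem : ∀ κ, κ ∈ s ↔ ρ (ρ κ) ≠ κ := fun κ => by simp [hsdef]
  have hdvd : 4 ∣ s.card := by
    apply four_dvd s ρ (fun κ => ρ (ρ κ)) (fun κ => ρ (ρ (ρ κ)))
    · intro κ hκ
      rw [hmem] at hκ
      simp only [hmem]
      exact ⟨fun h => hκ (hinj h), fun h => hκ (hinj (hinj h)),
        fun h => hκ (hinj (hinj (hinj h)))⟩
    · intro κ hκ
      rw [hmem] at hκ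
      have h1 : ρ κ ≠ κ := fun h => hκ (by rw [h, h])
      refine ⟨h1, hκ, fun h => ?_, fun h => ?_, fun h => ?_, fun h => ?_⟩
      · apply h1
        have := congrArg ρ h
        rw [hρ4] at this
        exact this.symm
      · exact h1 (hinj h).symm
      · exact hκ (hinj h).symm
      · exact h1 (hinj (hinj h)).symm
    · intro κ
      simp only [hρ4]
      ext x
      simp only [Finset.mem_insert, Finset.mem_singleton]
      tauto
    · intro κ
      simp only [hρ4]
      ext x
      simp only [Finset.mem_insert, Finset.mem_singleton]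
      tauto
    · intro κ
      simp only [hρ4]
      ext x
      simp only [Finset.mem_insert, Finset.mem_singleton]
      tauto
  have hsum := Finset.card_filter_add_card_filter_not
    (s := (Finset.univ : Finset (ConnectedComponents (realPart F)))) (fun κ => ρ (ρ κ) = κ)
  rw [Finset.card_univ] at hsum
  have h5 : {κ : ConnectedComponents (realPart F) | Pres (g.trans g) κ} =
      ((Finset.univ.filter fun κ => ρ (ρ κ) = κ : Finset (ConnectedComponents (realPart F))) :
        Set (ConnectedComponents (realPart F))) := by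
    ext κ
    simp [hP]
  rw [h5, Set.ncard_coe_finset] at s1
  obtain ⟨m, hm⟩ := hke
  obtain ⟨q, hq⟩ := hdvd
  have h6 : s.card = (Finset.univ.filter fun κ => ¬ ρ (ρ κ) = κ).card := rfl
  rw [s1, ← h6, hq] at hsum
  rw [← hsum, show k ^ 2 = 4 * m ^ 2 by rw [hm]; ring] at hcard
  omega

/-- the reflection acts on a component which meets the axis as a reflection -/
theorem Sym.dich_ax (S : Sym F d j) (P : Par F κ γ T) (h : Ax j κ) :
    ∃ c, ∀ u, rf j (γ u) = γ (c - u) := by
  rcases S.dich P (S.fix_of_ax h) with hc | hc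
  · exact hc
  · exfalso
    obtain ⟨v, hv, hvj, hvC⟩ := h
    obtain ⟨t, ht⟩ := (P.mem _).1 hvC
    have h1 : γ t j = 0 := by
      rcases (pr_unit (P.sol.norm t) hv).1 ht with h1 | h1
      · rw [← h1]; exact hvj
      · rw [h1] at hvj
        simpa using hvj
    have h2 := hc t
    rw [rf_of_zero h1] at h2
    exact P.sol.ne_neg S.hF S.hd S.hd0 _ _ h2.symm

theorem rf_three (v : V3) : rf 0 (rf 1 (rf 2 v)) = -v := by
  funext i
  rcases fin3 i with rfl | rfl | rfl <;> simp [rf]

open scoped Classical in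
/-- a free action of the four-group -/
theorem v4_dvd {K : Type} [Fintype K] (s0 s1 s2 : K → K) (h00 : ∀ x, s0 (s0 x) = x)
    (h11 : ∀ x, s1 (s1 x) = x) (h22 : ∀ x, s2 (s2 x) = x) (h01 : ∀ x, s0 (s1 x) = s2 x)
    (h10 : ∀ x, s1 (s0 x) = s2 x) :
    4 ∣ (Finset.univ.filter fun x => s0 x ≠ x ∧ s1 x ≠ x ∧ s2 x ≠ x).card := by
  have h02 : ∀ x, s0 (s2 x) = s1 x := fun x => by rw [← h01, h00]
  have h12 : ∀ x, s1 (s2 x) = s0 x := fun x => by rw [← h10, h11]
  have h20 : ∀ x, s2 (s0 x) = s1 x := fun x => by rw [← h10, h00]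
  have h21 : ∀ x, s2 (s1 x) = s0 x := fun x => by rw [← h01, h11]
  have i0 : Function.Injective s0 := fun a b h => by rw [← h00 a, h, h00]
  have i1 : Function.Injective s1 := fun a b h => by rw [← h11 a, h, h11]
  have i2 : Function.Injective s2 := fun a b h => by rw [← h22 a, h, h22]
  apply four_dvd _ s0 s1 s2
  · intro x hx
    obtain ⟨-, a0, a1, a2⟩ := Finset.mem_filter.1 hx
    simp only [Finset.mem_filter, Finset.mem_univ, true_and]
    refine ⟨⟨?_, ?_, ?_⟩, ⟨?_, ?_, ?_⟩, ⟨?_, ?_, ?_⟩⟩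
    · exact fun h => a0 (i0 h)
    · rw [h10, ← h01]
      exact fun h => a1 (i0 h)
    · rw [h20, ← h02]
      exact fun h => a2 (i0 h)
    · rw [h01, ← h10]
      exact fun h => a0 (i1 h)
    · exact fun h => a1 (i1 h)
    · rw [h21, ← h12]
      exact fun h => a2 (i1 h)
    · rw [h02, ← h20]
      exact fun h => a0 (i2 h)
    · rw [h12, ← h21]
      exact fun h => a1 (i2 h)
    · exact fun h => a2 (i2 h)
  · intro x hx
    obtain ⟨-, a0, a1, a2⟩ := Finset.mem_filter.1 hx
    refine ⟨a0, a1, a2, ?_, ?_, ?_⟩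
    · intro h
      apply a2
      rw [← h01, ← h, h00]
    · intro h
      rw [← h01] at h
      exact a1 (i0 h).symm
    · intro h
      rw [← h10] at h
      exact a0 (i1 h).symm
  · intro x
    rw [h00, h10, h20]
    ext y
    simp only [Finset.mem_insert, Finset.mem_singleton]
    tauto
  · intro x
    rw [h01, h11, h21]
    ext y
    simp only [Finset.mem_insert, Finset.mem_singleton]
    tauto
  · intro x
    rw [h02, h12, h22]
    ext y
    simp only [Finset.mem_insert, Finset.mem_singleton]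
    tauto

theorem rf_01 (v : V3) : rf 0 (rf 1 v) = -rf 2 v := by
  funext i
  rcases fin3 i with rfl | rfl | rfl <;> simp [rf]

theorem rf_10 (v : V3) : rf 1 (rf 0 v) = -rf 2 v := by
  funext i
  rcases fin3 i with rfl | rfl | rfl <;> simp [rf]

theorem rf_ne {v : V3} (h : nsq v = 1) (j : Fin 3) : rf j v ≠ 0 :=
  ne_zero_of_nsq (by rw [nsq_rf, h])

theorem rp_01 (p : RP2) : rp 0 (rp 1 p) = rp 2 p := by
  have h := nsq_rep p
  rw [← pr_rep p, rp_pr (ne_zero_of_nsq h), rp_pr (ne_zero_of_nsq h), rp_pr (rf_ne h 1), rf_01,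
    pr_neg]

theorem rp_10 (p : RP2) : rp 1 (rp 0 p) = rp 2 p := by
  have h := nsq_rep p
  rw [← pr_rep p, rp_pr (ne_zero_of_nsq h), rp_pr (ne_zero_of_nsq h), rp_pr (rf_ne h 0), rf_10,
    pr_neg]

/-- an M-curve is not even in all the coordinates -/
theorem no_v4_normal (S : ∀ j, Sym F d j) (hirr : Irreducible F) {k : ℕ} (hk : 3 ≤ k)
    (hdk : d = 2 * k)
    (hM : Nat.card (ConnectedComponents (realPart F)) = (d - 1) * (d - 2) / 2 + 1) : False := by
  classical
  have hfin : Finite (ConnectedComponents (realPart F)) :=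
    Nat.finite_of_card_ne_zero (by rw [hM]; omega)
  have : Fintype (ConnectedComponents (realPart F)) := Fintype.ofFinite _
  have hcard := card_eq hk hdk hM
  rw [Nat.card_eq_fintype_card] at hcard
  have hst := fun j => (S j).struct hirr hk hdk hM
  have h01 : ∀ κ, (S 0).σ ((S 1).σ κ) = (S 2).σ κ := by
    intro κ
    obtain ⟨p, hp⟩ := exists_inC κ
    have h1 := (S 0).inC ((S 1).inC hp)
    rw [rp_01] at h1
    exact h1.unique ((S 2).inC hp)
  have h10 : ∀ κ, (S 1).σ ((S 0).σ κ) = (S 2).σ κ := by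
    intro κ
    obtain ⟨p, hp⟩ := exists_inC κ
    have h1 := (S 1).inC ((S 0).inC hp)
    rw [rp_10] at h1
    exact h1.unique ((S 2).inC hp)
  -- no component is preserved by all
  have hbad : ∀ κ, (S 0).σ κ = κ → (S 1).σ κ = κ → (S 2).σ κ = κ → False := by
    intro κ h0 h1 h2
    obtain ⟨γ, T, P⟩ := (S 0).toCurve.exists_par κ
    obtain ⟨c0, e0⟩ := (S 0).dich_ax P ((hst 0).1 κ h0)
    obtain ⟨c1, e1⟩ := (S 1).dich_ax P ((hst 1).1 κ h1)
    obtain ⟨c2, e2⟩ := (S 2).dich_ax P ((hst 2).1 κ h2)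
    have h3 := rf_three (γ 0)
    rw [e2, e1, e0] at h3
    exact P.sol.ne_neg (S 0).hF (S 0).hd (S 0).hd0 _ _ h3
  have hb1 : ∀ κ, (S 0).σ κ = κ → (S 1).σ κ = κ → False := fun κ h0 h1 =>
    hbad κ h0 h1 (by rw [← h01, h1, h0])
  have hb2 : ∀ κ, (S 0).σ κ = κ → (S 2).σ κ = κ → False := fun κ h0 h2 =>
    hb1 κ h0 (by rw [← h10, h0] at h2; exact h2)
  have hb3 : ∀ κ, (S 1).σ κ = κ → (S 2).σ κ = κ → False := fun κ h1 h2 =>
    hb1 κ (by rw [← h01, h1] at h2; exact h2) h1
  obtain ⟨q, hq⟩ := v4_dvd (S 0).σ (S 1).σ (S 2).σ (S 0).σσ (S 1).σσ (S 2).σσ h01 h10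
  have hcf : ∀ j, (Finset.univ.filter fun κ => (S j).σ κ = κ).card = k := by
    intro j
    have h5 : {κ : ConnectedComponents (realPart F) | (S j).σ κ = κ} =
        ((Finset.univ.filter fun κ => (S j).σ κ = κ :
          Finset (ConnectedComponents (realPart F))) : Set (ConnectedComponents (realPart F))) := by
      ext κ
      simp
    have h6 := (hst j).2.1
    rw [h5, Set.ncard_coe_finset] at h6
    exact h6
  have hU : (Finset.univ : Finset (ConnectedComponents (realPart F))) =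
      (((Finset.univ.filter fun κ => (S 0).σ κ = κ) ∪
        (Finset.univ.filter fun κ => (S 1).σ κ = κ)) ∪
        (Finset.univ.filter fun κ => (S 2).σ κ = κ)) ∪
        (Finset.univ.filter fun κ => (S 0).σ κ ≠ κ ∧ (S 1).σ κ ≠ κ ∧ (S 2).σ κ ≠ κ) := by
    ext κ
    simp only [Finset.mem_union, Finset.mem_filter, Finset.mem_univ, true_and, true_iff]
    tauto
  have hc := congrArg Finset.card hU
  rw [Finset.card_union_of_disjoint, Finset.card_union_of_disjoint,
    Finset.card_union_of_disjoint, hcf, hcf, hcf, hq, Finset.card_univ] at hc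
  · rw [hc] at hcard
    -- `4 q + 6 k = 2 k² + 2`
    have h7 : (2 * q + 3 * k) = k ^ 2 + 1 := by omega
    rcases Nat.even_or_odd' k with ⟨m, hm | hm⟩
    · rw [hm] at h7
      have : (2 * m) ^ 2 = 4 * m ^ 2 := by ring
      omega
    · rw [hm] at h7
      have : (2 * m + 1) ^ 2 = 4 * m ^ 2 + 4 * m + 1 := by ring
      omega
  · rw [Finset.disjoint_left]
    intro κ hκ hκ'
    exact hb1 κ (Finset.mem_filter.1 hκ).2 (Finset.mem_filter.1 hκ').2
  · rw [Finset.disjoint_left]
    intro κ hκ hκ'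
    rcases Finset.mem_union.1 hκ with h | h
    · exact hb2 κ (Finset.mem_filter.1 h).2 (Finset.mem_filter.1 hκ').2
    · exact hb3 κ (Finset.mem_filter.1 h).2 (Finset.mem_filter.1 hκ').2
  · rw [Finset.disjoint_left]
    intro κ hκ hκ'
    obtain ⟨a0, a1, a2⟩ := (Finset.mem_filter.1 hκ').2
    rcases Finset.mem_union.1 hκ with h | h
    · rcases Finset.mem_union.1 h with h | h
      · exact a0 (Finset.mem_filter.1 h).2
      · exact a1 (Finset.mem_filter.1 h).2
    · exact a2 (Finset.mem_filter.1 h).2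

/-- no two commuting involutions -/
theorem no_v4 (C : Curve F d) (hirr : Irreducible F) {k : ℕ} (hk : 3 ≤ k) (hdk : d = 2 * k)
    (hM : Nat.card (ConnectedComponents (realPart F)) = (d - 1) * (d - 2) / 2 + 1)
    (g h : V3 ≃ₗ[ℝ] V3) {c c' : ℝ} (hg : ∀ v, eval (g v) F = c * eval v F)
    (hh : ∀ v, eval (h v) F = c' * eval v F) {a b ν : ℝ}
    (hgg : ∀ v, g (g v) = a • v) (hhh : ∀ v, h (h v) = b • v)
    (hgh : ∀ v, g (h v) = ν • h (g v))
    (hsg : ¬ ∃ b : ℝ, ∀ v, g v = b • v) (hsh : ¬ ∃ b : ℝ, ∀ v, h v = b • v)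
    (hsgh : ¬ ∃ b : ℝ, ∀ v, g (h v) = b • v) : False := by
  have hν : ν = 1 := by
    have h1 : g.toLinearMap ∘ₗ h.toLinearMap = ν • (h.toLinearMap ∘ₗ g.toLinearMap) :=
      LinearMap.ext fun v => hgh v
    have h2 := congrArg LinearMap.det h1
    rw [LinearMap.det_smul, LinearMap.det_comp, LinearMap.det_comp, finrank_V3] at h2
    have h3 : LinearMap.det g.toLinearMap ≠ 0 := (LinearEquiv.isUnit_det' g).ne_zero
    have h4 : LinearMap.det h.toLinearMap ≠ 0 := (LinearEquiv.isUnit_det' h).ne_zero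
    have h5 : ν ^ 3 = 1 := by
      have h6 : (ν ^ 3 - 1) * (LinearMap.det g.toLinearMap * LinearMap.det h.toLinearMap) = 0 := by
        linear_combination -h2
      have := (mul_eq_zero.1 h6).resolve_right (mul_ne_zero h3 h4)
      linarith
    have h7 : (ν - 1) * (ν ^ 2 + ν + 1) = 0 := by linear_combination h5
    rcases mul_eq_zero.1 h7 with h8 | h8
    · linarith
    · nlinarith [sq_nonneg (ν + 1 / 2)]
  subst hν
  obtain ⟨s, e, f, hs0, hfe, hgv⟩ := exists_refl g hgg hsg
  obtain ⟨s', e', f', hs0', hfe', hhv⟩ := exists_refl h hhh hsh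
  have hcomm : ∀ v, (f' v * f e') • e = (f v * f' e) • e' := by
    intro v
    have h1 := hgh v
    rw [one_smul, hhv v, hgv v, map_smul, map_smul, hgv, hhv, smul_smul, smul_smul,
      mul_comm s' s] at h1
    have h2 := smul_right_injective V3 (mul_ne_zero hs0 hs0') h1
    simp only [map_sub, map_smul, smul_eq_mul] at h2
    have h3 : (f' v * f e') • e - (f v * f' e) • e' =
        (v - f' v • e' - (f v - f' v * f e') • e) - (v - f v • e - (f' v - f v * f' e) • e') := by
      module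
    rw [h2, sub_self] at h3
    exact sub_eq_zero.1 h3
  obtain ⟨h0, h0'⟩ := orth_of_comm hfe hfe' hcomm (by
    intro h1
    apply hsgh
    refine ⟨s * s', fun v => ?_⟩
    rw [hhv, map_smul, hgv, h1, map_sub, map_smul, hfe, smul_eq_mul]
    module)
  obtain ⟨B, hB, hB'⟩ := exists_norm2 hfe hfe' h0 h0'
  have hirr' := irr_pull hirr B
  have C' := curve_pull C B
  have S0 : Sym (pull F B) d 0 := inv_of_semi C' hirr' (by omega) (c := (s⁻¹) ^ d * c) (by
    intro v
    rw [eval_pull, eval_pull, hB]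
    have h3 : B v - f (B v) • e = s⁻¹ • g (B v) := by
      rw [hgv, smul_smul, inv_mul_cancel₀ hs0, one_smul]
    rw [h3, eval_smul' C.hF, hg]
    ring)
  have S1 : Sym (pull F B) d 1 := inv_of_semi C' hirr' (by omega) (c := (s'⁻¹) ^ d * c') (by
    intro v
    rw [eval_pull, eval_pull, hB']
    have h3 : B v - f' (B v) • e' = s'⁻¹ • h (B v) := by
      rw [hhv, smul_smul, inv_mul_cancel₀ hs0', one_smul]
    rw [h3, eval_smul' C.hF, hh]
    ring)
  have S2 : Sym (pull F B) d 2 := ⟨C', by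
    intro v
    have h1 : rf 2 v = (-1 : ℝ) • rf 0 (rf 1 v) := by rw [rf_01, neg_one_smul, neg_neg]
    rw [h1, eval_smul' C'.hF, C'.hd.neg_one_pow, one_mul, S0.hs, S1.hs]⟩
  have hM' : Nat.card (ConnectedComponents (realPart (pull F B))) =
      (d - 1) * (d - 2) / 2 + 1 := by
    rw [← hM]
    exact card_components (homeoOf B (pull_iff F B))
  refine no_v4_normal (fun j => ?_) hirr' hk hdk hM'
  rcases fin3 j with rfl | rfl | rfl <;> assumption

end

end Pool.Agent.H25.SO
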