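import Pool.Agent.H25.SO.Count

/-!
# The structure of the components of a symmetric curve with the maximal number of components
-/

set_option autoImplicit false

open MvPolynomial Set
open Pool.Agent.H83.MC

namespace Pool.Agent.H25.SO

noncomputable section

/-! ### Counting lemmas -/

open scoped Classical in
/-- representatives of the orbits of an involution -/
theorem exists_reps {K : Type} [Fintype K] (σ : K → K) (hσ : ∀ x, σ (σ x) = x) (A : K → Prop)
    (hA : ∀ x, A x → σ x = x) :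
    ∃ R : Finset K, (∀ x ∈ R, ¬ A x) ∧ (∀ x ∈ R, ∀ y ∈ R, x ≠ y → σ x ≠ y) ∧
      Fintype.card K + (Finset.univ.filter fun x => σ x = x ∧ ¬ A x).card =
        (Finset.univ.filter A).card + 2 * R.card := by
  let e := Fintype.equivFin K
  have hinj : Function.Injective σ := fun a b h => by rw [← hσ a, h, hσ]
  have hA' : ∀ x, A (σ x) ↔ A x := by
    intro x
    constructor
    · intro h
      have h1 := hA _ h
      rw [hσ] at h1
      rwa [← h1] at h
    · intro h
      rwa [hA x h]
  set R : Finset K := Finset.univ.filter fun x => ¬ A x ∧ e x ≤ e (σ x) with hR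
  have hU : R ∪ R.image σ = Finset.univ.filter fun x => ¬ A x := by
    ext x
    simp only [hR, Finset.mem_union, Finset.mem_filter, Finset.mem_univ, true_and,
      Finset.mem_image]
    constructor
    · rintro (⟨h, -⟩ | ⟨y, ⟨h, -⟩, rfl⟩)
      · exact h
      · rwa [hA']
    · intro h
      rcases le_total (e x) (e (σ x)) with h1 | h1
      · exact Or.inl ⟨h, h1⟩
      · refine Or.inr ⟨σ x, ⟨by rwa [hA'], by rwa [hσ]⟩, hσ x⟩
  have hI : R ∩ R.image σ = Finset.univ.filter fun x => σ x = x ∧ ¬ A x := by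
    ext x
    simp only [hR, Finset.mem_inter, Finset.mem_filter, Finset.mem_univ, true_and,
      Finset.mem_image]
    constructor
    · rintro ⟨⟨h, h1⟩, y, ⟨h2, h3⟩, rfl⟩
      rw [hσ] at h1
      have h4 : y = σ y := e.injective (le_antisymm h3 h1)
      exact ⟨by rw [← h4, ← h4], h⟩
    · rintro ⟨h1, h2⟩
      exact ⟨⟨h2, by rw [h1]⟩, x, ⟨h2, by rw [h1]⟩, h1⟩
  refine ⟨R, fun x hx => (Finset.mem_filter.1 hx).2.1, ?_, ?_⟩
  · intro x hx y hy hxy h
    apply hxy
    have h1 := (Finset.mem_filter.1 hx).2.2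
    have h2 := (Finset.mem_filter.1 hy).2.2
    rw [← h, hσ] at h2
    rw [← h]
    exact e.injective (le_antisymm h1 h2)
  · have h1 := Finset.card_union_add_card_inter R (R.image σ)
    rw [Finset.card_image_of_injective _ hinj, hU, hI] at h1
    have h2 := Finset.card_filter_add_card_filter_not (s := (Finset.univ : Finset K)) A
    rw [Finset.card_univ] at h2
    omega

open scoped Classical in
/-- a free action of a group with four elements -/
theorem four_dvd {K : Type} (s : Finset K) (f1 f2 f3 : K → K)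
    (hc : ∀ x ∈ s, f1 x ∈ s ∧ f2 x ∈ s ∧ f3 x ∈ s)
    (hd : ∀ x ∈ s, f1 x ≠ x ∧ f2 x ≠ x ∧ f3 x ≠ x ∧ f1 x ≠ f2 x ∧ f1 x ≠ f3 x ∧ f2 x ≠ f3 x)
    (h1 : ∀ x, ({f1 x, f1 (f1 x), f2 (f1 x), f3 (f1 x)} : Finset K) = {x, f1 x, f2 x, f3 x})
    (h2 : ∀ x, ({f2 x, f1 (f2 x), f2 (f2 x), f3 (f2 x)} : Finset K) = {x, f1 x, f2 x, f3 x})
    (h3 : ∀ x, ({f3 x, f1 (f3 x), f2 (f3 x), f3 (f3 x)} : Finset K) = {x, f1 x, f2 x, f3 x}) :
    4 ∣ s.card := by
  set O : K → Finset K := fun x => {x, f1 x, f2 x, f3 x} with hO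
  have hOy : ∀ x, ∀ y ∈ O x, O y = O x := by
    intro x y hy
    simp only [hO, Finset.mem_insert, Finset.mem_singleton] at hy
    rcases hy with rfl | rfl | rfl | rfl
    · rfl
    · exact h1 x
    · exact h2 x
    · exact h3 x
  rw [Finset.card_eq_sum_card_image O s]
  apply Finset.dvd_sum
  intro b hb
  obtain ⟨x, hx, rfl⟩ := Finset.mem_image.1 hb
  have h4 : s.filter (fun y => O y = O x) = O x := by
    ext y
    simp only [Finset.mem_filter]
    constructor
    · rintro ⟨-, h⟩
      rw [← h]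
      simp [hO]
    · intro h
      refine ⟨?_, hOy x y h⟩
      simp only [hO, Finset.mem_insert, Finset.mem_singleton] at h
      obtain ⟨c1, c2, c3⟩ := hc x hx
      rcases h with rfl | rfl | rfl | rfl <;> assumption
  rw [h4]
  obtain ⟨d1, d2, d3, d4, d5, d6⟩ := hd x hx
  have h5 : (O x).card = 4 := by
    simp only [hO]
    rw [Finset.card_insert_of_notMem, Finset.card_insert_of_notMem,
      Finset.card_insert_of_notMem, Finset.card_singleton]
    · simpa using d6
    · simp [d4, d5]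
    · simp [d1.symm, d2.symm, d3.symm]
  rw [h5]

variable {F : MvPolynomial (Fin 3) ℝ} {d : ℕ} {j : Fin 3}

theorem Sym.rp_fix (v : Fin 3 → ℝ) (h1 : nsq v = 1) (h : v j = 0) : rp j (pr v) = pr v := by
  rw [rp_pr (ne_zero_of_nsq h1), rf_of_zero h]

/-- the fixed points on the components -/
theorem Sym.axis_sum (S : Sym F d j) (hirr : Irreducible F) (hd : 1 < d)
    (A : Finset (ConnectedComponents (realPart F)))
    (f : ConnectedComponents (realPart F) → Finset RP2)
    (hf : ∀ κ ∈ A, ∀ p ∈ f κ, InC κ p ∧ rp j p = p) : ∑ κ ∈ A, (f κ).card ≤ d := by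
  classical
  rw [← Finset.card_biUnion]
  · apply S.axis_card hirr hd
    intro p hp
    obtain ⟨κ, hκ, hp⟩ := Finset.mem_biUnion.1 hp
    obtain ⟨h1, h2⟩ := hf κ hκ p hp
    exact ⟨h1.1, S.fixed_axis h1.1 h2⟩
  · intro κ hκ κ' hκ' hne
    rw [Function.onFun, Finset.disjoint_left]
    intro p hp hp'
    exact hne ((hf κ hκ p hp).1.unique (hf κ' hκ' p hp').1)

/-- **The structure theorem.** -/
theorem Sym.struct (S : Sym F d j) (hirr : Irreducible F) {k : ℕ} (hk : 3 ≤ k) (hdk : d = 2 * k)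
    (hM : Nat.card (ConnectedComponents (realPart F)) = (d - 1) * (d - 2) / 2 + 1) :
    (∀ κ, S.σ κ = κ → Ax j κ) ∧ {κ | S.σ κ = κ}.ncard = k ∧
      ∀ κ, S.σ κ = κ → {p | InC κ p ∧ rp j p = p}.ncard = 2 := by
  classical
  have hfin : Finite (ConnectedComponents (realPart F)) :=
    Nat.finite_of_card_ne_zero (by rw [hM]; omega)
  have : Fintype (ConnectedComponents (realPart F)) := Fintype.ofFinite _
  rw [Nat.card_eq_fintype_card] at hM
  have hM' : Fintype.card (ConnectedComponents (realPart F)) + 3 * k = 2 * k ^ 2 + 2 := by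
    rw [hM, hdk]
    obtain ⟨l, rfl⟩ := Nat.exists_eq_add_of_le hk
    have e1 : 2 * (3 + l) - 1 = 2 * l + 5 := by omega
    have e2 : 2 * (3 + l) - 2 = 2 * (l + 2) := by omega
    rw [e1, e2, show (2 * l + 5) * (2 * (l + 2)) = 2 * ((2 * l + 5) * (l + 2)) by ring,
      Nat.mul_div_cancel_left _ (by norm_num)]
    ring
  obtain ⟨R, hR1, hR2, hR3⟩ := exists_reps S.σ S.σσ (Ax j) fun κ h => S.fix_of_ax h
  set A := Finset.univ.filter (Ax (F := F) j) with hA
  set N := Finset.univ.filter (fun κ => S.σ κ = κ ∧ ¬ Ax j κ) with hN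
  -- two points for every component
  have h2 : ∀ κ : ConnectedComponents (realPart F), ∃ f : Finset RP2,
      Ax j κ → f.card = 2 ∧ ∀ p ∈ f, InC κ p ∧ rp j p = p := by
    intro κ
    by_cases h : Ax j κ
    · obtain ⟨v, w, hv, hw, hvj, hwj, hvC, hwC, hne⟩ := S.two_ax h
      refine ⟨{pr v, pr w}, fun _ => ⟨Finset.card_pair hne, ?_⟩⟩
      intro p hp
      rcases Finset.mem_insert.1 hp with rfl | hp
      · exact ⟨hvC, Sym.rp_fix v hv hvj⟩
      · rw [Finset.mem_singleton.1 hp]
        exact ⟨hwC, Sym.rp_fix w hw hwj⟩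
    · exact ⟨∅, fun h' => absurd h' h⟩
  choose f hf using h2
  have hsum : ∀ B ⊆ A, ∑ κ ∈ B, (f κ).card = 2 * B.card := by
    intro B hB
    rw [Finset.sum_congr rfl fun κ hκ => (hf κ (Finset.mem_filter.1 (hB hκ)).2).1]
    simp [mul_comm]
  have ha : A.card ≤ k := by
    have h3 := S.axis_sum hirr (by omega) A f
      (fun κ hκ p hp => (hf κ (Finset.mem_filter.1 hκ).2).2 p hp)
    rw [hsum A (Finset.Subset.refl _)] at h3
    omega
  -- the bound for the representatives
  have hkey : ∀ κ₀ : ConnectedComponents (realPart F), ∀ R' ⊆ R,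
      (∀ κ ∈ R', κ ≠ κ₀ ∧ S.σ κ ≠ κ₀) → R'.card ≤ (k - 1) ^ 2 := by
    intro κ₀ R' hR' h3
    by_contra hcon
    push Not at hcon
    obtain ⟨U, hU, hUc⟩ := Finset.exists_subset_card_eq (show (k - 1) ^ 2 + 1 ≤ R'.card by omega)
    obtain ⟨l, rfl⟩ := Nat.exists_eq_add_of_le hk
    have e1 : 3 + l - 1 = l + 2 := by omega
    have h4 := S.main hirr (k := 3 + l) (by omega) hdk U κ₀ (2 * l + 3)
      (fun κ hκ => hR1 κ (hR' (hU hκ)))
      (fun κ hκ κ' hκ' => hR2 κ (hR' (hU hκ)) κ' (hR' (hU hκ')))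
      (fun κ hκ => h3 κ (hU hκ)) (by
        rw [hUc, e1]
        nlinarith)
    rw [hUc, e1, hdk, show 2 * (3 + l) - 2 = 2 * (l + 2) by omega] at h4
    nlinarith
  have hcase : A.Nonempty := by
    by_contra hcon
    rw [Finset.not_nonempty_iff_eq_empty] at hcon
    have hRne : R.Nonempty := by
      rw [Finset.nonempty_iff_ne_empty]
      intro h
      rw [h, hcon, Finset.card_empty] at hR3
      nlinarith
    obtain ⟨κ₀, hκ₀⟩ := hRne
    have h3 := hkey κ₀ (R.erase κ₀) (Finset.erase_subset _ _) (by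
      intro κ hκ
      obtain ⟨h4, h5⟩ := Finset.mem_erase.1 hκ
      exact ⟨h4, hR2 κ h5 κ₀ hκ₀ h4⟩)
    rw [Finset.card_erase_of_mem hκ₀] at h3
    rw [hcon, Finset.card_empty] at hR3
    obtain ⟨l, rfl⟩ := Nat.exists_eq_add_of_le hk
    have e1 : 3 + l - 1 = l + 2 := by omega
    rw [e1] at h3
    have : R.card ≤ (l + 2) ^ 2 + 1 := by omega
    nlinarith
  obtain ⟨κ₀, hκ₀⟩ := hcase
  have hκ₀' := (Finset.mem_filter.1 hκ₀).2
  have hRle := hkey κ₀ R (Finset.Subset.refl _) (by
    intro κ hκ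
    have h3 : κ ≠ κ₀ := by
      rintro rfl
      exact hR1 _ hκ hκ₀'
    refine ⟨h3, fun h4 => h3 ?_⟩
    rw [← S.σσ κ, h4, S.fix_of_ax hκ₀'])
  have hk2 : (k - 1) ^ 2 + 2 * k = k ^ 2 + 1 := by
    obtain ⟨l, rfl⟩ := Nat.exists_eq_add_of_le hk
    have e1 : 3 + l - 1 = l + 2 := by omega
    rw [e1]
    ring
  have hN0 : N.card = 0 := by omega
  have hAk : A.card = k := by omega
  have hfix : ∀ κ, S.σ κ = κ → Ax j κ := by
    intro κ h
    by_contra hcon
    have : κ ∈ N := Finset.mem_filter.2 ⟨Finset.mem_univ _, h, hcon⟩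
    rw [Finset.card_eq_zero.1 hN0] at this
    exact absurd this (Finset.notMem_empty _)
  refine ⟨hfix, ?_, ?_⟩
  · have : {κ | S.σ κ = κ} = (A : Set (ConnectedComponents (realPart F))) := by
      ext κ
      simp only [hA, Set.mem_ofPred_eq, Finset.coe_filter, Finset.mem_univ, true_and]
      exact ⟨hfix κ, S.fix_of_ax⟩
    rw [this, Set.ncard_coe_finset, hAk]
  · intro κ hκ
    have hκA : κ ∈ A := Finset.mem_filter.2 ⟨Finset.mem_univ _, hfix κ hκ⟩
    have hle : ∀ Y : Finset RP2, (∀ p ∈ Y, InC κ p ∧ rp j p = p) → Y.card ≤ 2 := by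
      intro Y hY
      have h3 := S.axis_sum hirr (by omega) A (Function.update f κ Y) (by
        intro κ' hκ' p hp
        by_cases h : κ' = κ
        · subst h
          rw [Function.update_self] at hp
          exact hY p hp
        · rw [Function.update_of_ne h] at hp
          exact (hf κ' (Finset.mem_filter.1 hκ').2).2 p hp)
      rw [← Finset.add_sum_erase A _ hκA, Function.update_self] at h3
      have h4 : ∑ x ∈ A.erase κ, (Function.update f κ Y x).card = ∑ x ∈ A.erase κ, (f x).card := by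
        apply Finset.sum_congr rfl
        intro x hx
        rw [Function.update_of_ne (Finset.ne_of_mem_erase hx)]
      rw [h4, hsum _ (Finset.erase_subset _ _), Finset.card_erase_of_mem hκA, hAk] at h3
      omega
    obtain ⟨h5, h6⟩ := hf κ (hfix κ hκ)
    have hsub : {p | InC κ p ∧ rp j p = p} = (f κ : Set RP2) := by
      apply Set.Subset.antisymm
      · intro p hp
        by_contra hcon
        have h7 := hle (insert p (f κ)) (by
          intro q hq
          rcases Finset.mem_insert.1 hq with rfl | hq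
          · exact hp
          · exact h6 q hq)
        rw [Finset.card_insert_of_notMem (by simpa using hcon), h5] at h7
        omega
      · intro p hp
        exact h6 p hp
    rw [hsub, Set.ncard_coe_finset, h5]

end

end Pool.Agent.H25.SO
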