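import Pool.Agent.H83.MC.Red
import Pool.Agent.H25.SO.Struct

/-!
# Normal forms of the involutions
-/

set_option autoImplicit false

open MvPolynomial Set
open Pool.Agent.H83.MC

namespace Pool.Agent.H25.SO

noncomputable section

/-- the space -/
abbrev V3 : Type := Fin 3 → ℝ

theorem finrank_V3 : Module.finrank ℝ V3 = 3 := by simp

/-- a map of rank at most one -/
theorem rank_one (T : V3 →ₗ[ℝ] V3) (h : Module.finrank ℝ (LinearMap.range T) ≤ 1) :
    ∃ (e : V3) (f : V3 →ₗ[ℝ] ℝ), ∀ v, T v = f v • e := by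
  obtain ⟨e, he⟩ := finrank_le_one_iff.1 h
  by_cases h0 : (e : V3) = 0
  · refine ⟨0, 0, fun v => ?_⟩
    obtain ⟨c, hc⟩ := he ⟨T v, LinearMap.mem_range_self _ _⟩
    have := congrArg Subtype.val hc
    simp only [SetLike.val_smul, h0, smul_zero] at this
    rw [← this]
    simp
  · obtain ⟨i, hi⟩ := Function.ne_iff.1 h0
    have hi' : (e : V3) i ≠ 0 := hi
    refine ⟨e, ((e : V3) i)⁻¹ • (LinearMap.proj i ∘ₗ T), fun v => ?_⟩
    obtain ⟨c, hc⟩ := he ⟨T v, LinearMap.mem_range_self _ _⟩
    have h1 := congrArg Subtype.val hc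
    simp only [SetLike.val_smul] at h1
    have h2 := congrFun h1 i
    simp only [Pi.smul_apply, smul_eq_mul] at h2
    simp only [LinearMap.smul_apply, LinearMap.comp_apply, LinearMap.proj_apply, smul_eq_mul]
    rw [← h2, mul_comm c, inv_mul_cancel_left₀ hi', h1]

/-- the reflection given by a vector and a functional -/
theorem exists_refl (g : V3 ≃ₗ[ℝ] V3) {a : ℝ} (h : ∀ v, g (g v) = a • v)
    (hs : ¬ ∃ b : ℝ, ∀ v, g v = b • v) :
    ∃ (s : ℝ) (e : V3) (f : V3 →ₗ[ℝ] ℝ), s ≠ 0 ∧ f e = 2 ∧ ∀ v, g v = s • (v - f v • e) := by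
  have ha0 : a ≠ 0 := by
    rintro rfl
    have h1 := h (Pi.single 0 1)
    rw [zero_smul, g.map_eq_zero_iff, g.map_eq_zero_iff] at h1
    have := congrFun h1 0
    simp at this
  have ha : 0 < a := by
    have h1 : g.toLinearMap ∘ₗ g.toLinearMap = a • LinearMap.id :=
      LinearMap.ext fun v => h v
    have h2 := congrArg LinearMap.det h1
    rw [LinearMap.det_comp, LinearMap.det_smul, LinearMap.det_id, finrank_V3, mul_one] at h2
    have h3 : 0 ≤ a ^ 3 := h2 ▸ mul_self_nonneg _
    rcases lt_or_gt_of_ne ha0 with h4 | h4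
    · exfalso
      nlinarith [mul_pos (neg_pos.2 h4) (mul_pos (neg_pos.2 h4) (neg_pos.2 h4))]
    · exact h4
  have key : ∀ s : ℝ, s * s = a → s ≠ 0 →
      Module.finrank ℝ (LinearMap.range (s • LinearMap.id - g.toLinearMap)) ≤ 1 →
      ∃ (s : ℝ) (e : V3) (f : V3 →ₗ[ℝ] ℝ), s ≠ 0 ∧ f e = 2 ∧ ∀ v, g v = s • (v - f v • e) := by
    intro s hss hs0 hr
    obtain ⟨e, f, hf⟩ := rank_one _ hr
    have hf' : ∀ v, s • v - g v = f v • e := fun v => hf v
    have hg : ∀ v, g v = s • v - f v • e := fun v => by rw [← hf' v]; abel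
    have hne : ∃ v, f v • e ≠ 0 := by
      by_contra hcon
      push Not at hcon
      exact hs ⟨s, fun v => by rw [hg, hcon, sub_zero]⟩
    obtain ⟨v, hv⟩ := hne
    have h1 : (f v * f e) • e = (2 * s * f v) • e := by
      have h2 : s • (s • v - g v) - g (s • v - g v) = (2 * s) • (s • v - g v) := by
        rw [map_sub, map_smul, h, ← hss]
        module
      have h3 := hf' (s • v - g v)
      rw [h2, hf' v, map_smul, smul_smul, smul_eq_mul] at h3
      exact h3.symm
    have he : e ≠ 0 := fun h0 => hv (by rw [h0, smul_zero])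
    have hfv : f v ≠ 0 := fun h0 => hv (by rw [h0, zero_smul])
    have h5 : f v * f e = 2 * s * f v := smul_left_injective ℝ he h1
    have h6 : f e = 2 * s := by
      apply mul_left_cancel₀ hfv
      rw [h5]
      ring
    refine ⟨s, e, s⁻¹ • f, hs0, ?_, fun v => ?_⟩
    · rw [LinearMap.smul_apply, smul_eq_mul, h6]
      field_simp
    · rw [hg, LinearMap.smul_apply, smul_eq_mul, smul_sub, smul_smul, ← mul_assoc,
        mul_inv_cancel₀ hs0, one_mul]
  set s := √a with hsdef
  have hs0 : s ≠ 0 := (Real.sqrt_pos.2 ha).ne'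
  have hss : s * s = a := Real.mul_self_sqrt ha.le
  set P := s • LinearMap.id - g.toLinearMap with hP
  set Q := (-s) • LinearMap.id - g.toLinearMap with hQ
  have hPQ : LinearMap.range P ≤ LinearMap.ker Q := by
    rintro _ ⟨v, rfl⟩
    rw [LinearMap.mem_ker]
    change (-s) • (s • v - g v) - g (s • v - g v) = 0
    rw [map_sub, map_smul, h, ← hss]
    module
  have h1 := Submodule.finrank_mono hPQ
  have h2 := LinearMap.finrank_range_add_finrank_ker Q
  rw [finrank_V3] at h2
  rcases le_or_gt (Module.finrank ℝ (LinearMap.range P)) 1 with h3 | h3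
  · exact key s hss hs0 h3
  · exact key (-s) (by rw [neg_mul_neg, hss]) (neg_ne_zero.2 hs0) (by rw [← hQ]; omega)

/-- a common zero of two functionals -/
theorem exists_common (f f' : V3 →ₗ[ℝ] ℝ) : ∃ u : V3, u ≠ 0 ∧ f u = 0 ∧ f' u = 0 := by
  have h := LinearMap.ker_ne_bot_of_finrank_lt (f := f.prod f') (by simp)
  obtain ⟨u, hu, hu0⟩ := Submodule.exists_mem_ne_zero_of_ne_bot h
  rw [LinearMap.mem_ker] at hu
  exact ⟨u, hu0, congrArg Prod.fst hu, congrArg Prod.snd hu⟩

/-- the map given by the images of the basis -/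
def bas (u0 u1 u2 : V3) : V3 →ₗ[ℝ] V3 where
  toFun v := v 0 • u0 + v 1 • u1 + v 2 • u2
  map_add' v w := by
    simp only [Pi.add_apply]
    module
  map_smul' c v := by
    simp only [Pi.smul_apply, smul_eq_mul, RingHom.id_apply]
    module

theorem bas_apply (u0 u1 u2 v : V3) : bas u0 u1 u2 v = v 0 • u0 + v 1 • u1 + v 2 • u2 := rfl

/-- the normal form of a reflection -/
theorem exists_norm1 {e : V3} {f : V3 →ₗ[ℝ] ℝ} (h : f e = 2) :
    ∃ B : V3 ≃ₗ[ℝ] V3, ∀ v, B (rf 2 v) = B v - f (B v) • e := by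
  obtain ⟨u, hu, hfu, -⟩ := exists_common f f
  obtain ⟨i, hi⟩ := Function.ne_iff.1 hu
  have hi' : u i ≠ 0 := hi
  obtain ⟨w, hw, hfw, hwi⟩ := exists_common f (LinearMap.proj i)
  have hwi' : w i = 0 := hwi
  have hfB : ∀ v, f (bas u w e v) = 2 * v 2 := by
    intro v
    rw [bas_apply, map_add, map_add, map_smul, map_smul, map_smul, hfu, hfw, h]
    simp only [smul_eq_mul]
    ring
  have hinj : Function.Injective (bas u w e) := by
    rw [← LinearMap.ker_eq_bot, LinearMap.ker_eq_bot']
    intro v hv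
    have h2 : v 2 = 0 := by
      have := hfB v
      rw [hv, map_zero] at this
      linarith
    rw [bas_apply, h2, zero_smul, add_zero] at hv
    have h0 : v 0 = 0 := by
      have := congrFun hv i
      simp only [Pi.add_apply, Pi.smul_apply, smul_eq_mul, hwi', mul_zero, add_zero,
        Pi.zero_apply] at this
      exact (mul_eq_zero.1 this).resolve_right hi'
    rw [h0, zero_smul, zero_add] at hv
    have h1 : v 1 = 0 := (smul_eq_zero.1 hv).resolve_right hw
    funext l
    rcases fin3 l with rfl | rfl | rfl <;> assumption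
  refine ⟨LinearEquiv.ofInjectiveEndo _ hinj, fun v => ?_⟩
  have r0 : rf 2 v 0 = v 0 := by simp [rf]
  have r1 : rf 2 v 1 = v 1 := by simp [rf]
  have r2 : rf 2 v 2 = -v 2 := by simp [rf]
  rw [LinearEquiv.coe_ofInjectiveEndo, hfB, bas_apply, bas_apply, r0, r1, r2]
  module

/-- the simultaneous normal form of two reflections -/
theorem exists_norm2 {e e' : V3} {f f' : V3 →ₗ[ℝ] ℝ} (h : f e = 2) (h' : f' e' = 2)
    (h0 : f e' = 0) (h0' : f' e = 0) :
    ∃ B : V3 ≃ₗ[ℝ] V3, (∀ v, B (rf 0 v) = B v - f (B v) • e) ∧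
      ∀ v, B (rf 1 v) = B v - f' (B v) • e' := by
  obtain ⟨u, hu, hfu, hfu'⟩ := exists_common f f'
  have hfB : ∀ v, f (bas e e' u v) = 2 * v 0 := by
    intro v
    rw [bas_apply, map_add, map_add, map_smul, map_smul, map_smul, hfu, h, h0]
    simp only [smul_eq_mul]
    ring
  have hfB' : ∀ v, f' (bas e e' u v) = 2 * v 1 := by
    intro v
    rw [bas_apply, map_add, map_add, map_smul, map_smul, map_smul, hfu', h', h0']
    simp only [smul_eq_mul]
    ring
  have hinj : Function.Injective (bas e e' u) := by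
    rw [← LinearMap.ker_eq_bot, LinearMap.ker_eq_bot']
    intro v hv
    have h2 : v 0 = 0 := by
      have := hfB v
      rw [hv, map_zero] at this
      linarith
    have h3 : v 1 = 0 := by
      have := hfB' v
      rw [hv, map_zero] at this
      linarith
    rw [bas_apply, h2, h3, zero_smul, zero_smul, zero_add, zero_add] at hv
    have h1 : v 2 = 0 := (smul_eq_zero.1 hv).resolve_right hu
    funext l
    rcases fin3 l with rfl | rfl | rfl <;> assumption
  refine ⟨LinearEquiv.ofInjectiveEndo _ hinj, fun v => ?_, fun v => ?_⟩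
  · have r0 : rf 0 v 0 = -v 0 := by simp [rf]
    have r1 : rf 0 v 1 = v 1 := by simp [rf]
    have r2 : rf 0 v 2 = v 2 := by simp [rf]
    rw [LinearEquiv.coe_ofInjectiveEndo, hfB, bas_apply, bas_apply, r0, r1, r2]
    module
  · have r0 : rf 1 v 0 = v 0 := by simp [rf]
    have r1 : rf 1 v 1 = -v 1 := by simp [rf]
    have r2 : rf 1 v 2 = v 2 := by simp [rf]
    rw [LinearEquiv.coe_ofInjectiveEndo, hfB', bas_apply, bas_apply, r0, r1, r2]
    module

/-- commuting reflections are orthogonal -/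
theorem orth_of_comm {e e' : V3} {f f' : V3 →ₗ[ℝ] ℝ} (h : f e = 2) (h' : f' e' = 2)
    (hc : ∀ v, (f' v * f e') • e = (f v * f' e) • e')
    (hne : ¬ ∀ v, f' v • e' = f v • e) : f e' = 0 ∧ f' e = 0 := by
  have he : e ≠ 0 := by
    rintro rfl
    rw [map_zero] at h
    norm_num at h
  have he' : e' ≠ 0 := by
    rintro rfl
    rw [map_zero] at h'
    norm_num at h'
  have h1 := hc e
  have h2 := hc e'
  rw [h] at h1
  rw [h'] at h2
  by_cases h3 : f' e = 0
  · rw [h3, mul_zero, zero_smul, smul_eq_zero] at h2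
    refine ⟨?_, h3⟩
    rcases h2 with h2 | h2
    · linarith
    · exact absurd h2 he
  · exfalso
    apply hne
    -- `e' = t e`
    have h4 : e' = (f e' / 2) • e := by
      have h5 : (2 * f' e) • e' = (f' e * f e') • e := h1.symm
      calc e' = (2 * f' e)⁻¹ • ((2 * f' e) • e') := by
            rw [smul_smul, inv_mul_cancel₀ (by positivity), one_smul]
        _ = (2 * f' e)⁻¹ • ((f' e * f e') • e) := by rw [h5]
        _ = (f e' / 2) • e := by
            rw [smul_smul]
            congr 1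
            field_simp
    set t := f e' / 2 with ht
    have ht0 : t ≠ 0 := by
      intro h0
      rw [h0, zero_smul] at h4
      exact he' h4
    have h6 : f' e' = t * f' e := by
      conv_lhs => rw [h4]
      rw [map_smul, smul_eq_mul]
    intro v
    have h7 := hc v
    rw [h4, smul_smul] at h7
    have h8 : f' v * f e' = f v * f' e * t := by
      have h9 : f (t • e) = f e' := by rw [← h4]
      rw [h9] at h7
      exact smul_left_injective ℝ he h7
    rw [h4, smul_smul]
    congr 1
    have h10 : f e' = 2 * t := by rw [ht]; ring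
    rw [h10] at h8
    rw [h'] at h6
    linear_combination (1 / 2) * h8 - (f v / 2) * h6

end

end Pool.Agent.H25.SO
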