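import Pool.Agent.H83.MC.Big
import Pool.Agent.H25.SO.Groups

/-!
# The symmetries of the octics with 22 components
-/

set_option autoImplicit false

open MvPolynomial Set
open Pool.Agent.H83.MC

namespace Pool.Agent.H25.SO

noncomputable section

variable {F : MvPolynomial (Fin 3) ℝ} {d : ℕ}

/-- symmetries of finite order -/
theorem order_le (C : Curve F 8) (hirr : Irreducible F)
    (hM : Nat.card (ConnectedComponents (realPart F)) = (8 - 1) * (8 - 2) / 2 + 1)
    (g : V3 ≃ₗ[ℝ] V3) {c : ℝ} (hg : ∀ v, eval (g v) F = c * eval v F) {n : ℕ} (hn : 0 < n)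
    (hord : ∀ k : ℕ, (∃ a : ℝ, ∀ v, g^[k] v = a • v) ↔ n ∣ k) : n ≤ 3 := by
  by_contra hlt
  rcases (show n = 4 ∨ 5 ≤ n by omega) with rfl | h5
  · obtain ⟨a, ha⟩ := (hord 4).2 dvd_rfl
    refine no_order_four C hirr (k := 4) (by norm_num) rfl ⟨2, rfl⟩ hM g hg (a := a) ha ?_
    intro h2
    have := (hord 2).1 h2
    omega
  · obtain ⟨F', S, ⟨f⟩⟩ := exists_setup C.hF C.hd C.hns (by omega) (by omega) g c hg hord
    have hcard := card_components f
    rw [hM] at hcard
    rcases (show (n + 2 ≤ 8 ∨ 8 < n) ∨ (n + 1 = 8 ∨ n + 0 = 8) by omega) with h | h | h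
    · exact S.main (by omega) h hcard
    · exact S.main_big le_rfl le_rfl h hcard
    · exact S.main_big le_rfl (by omega) h hcard

theorem nu_one {g h : V3 ≃ₗ[ℝ] V3} {ν : ℝ} (hgh : ∀ v, g (h v) = ν • h (g v)) : ν = 1 := by
  have h1 : g.toLinearMap ∘ₗ h.toLinearMap = ν • (h.toLinearMap ∘ₗ g.toLinearMap) :=
    LinearMap.ext fun v => hgh v
  have h2 := congrArg LinearMap.det h1
  rw [LinearMap.det_smul, LinearMap.det_comp, LinearMap.det_comp, finrank_V3] at h2
  have h3 : LinearMap.det g.toLinearMap ≠ 0 := (LinearEquiv.isUnit_det' g).ne_zero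
  have h4 : LinearMap.det h.toLinearMap ≠ 0 := (LinearEquiv.isUnit_det' h).ne_zero
  have h5 : ν ^ 3 = 1 := by
    have h6 : (ν ^ 3 - 1) * (LinearMap.det g.toLinearMap * LinearMap.det h.toLinearMap) = 0 := by
      linear_combination -h2
    have := (mul_eq_zero.1 h6).resolve_right (mul_ne_zero h3 h4)
    linarith
  have h7 : (ν - 1) * (ν ^ 2 + ν + 1) = 0 := by linear_combination h5
  rcases mul_eq_zero.1 h7 with h8 | h8
  · linarith
  · nlinarith [sq_nonneg (ν + 1 / 2)]

theorem cube_eq {x y : ℝ} (h : x ^ 3 = y ^ 3) : x = y := by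
  have h1 : (x - y) * (x ^ 2 + x * y + y ^ 2) = 0 := by linear_combination h
  rcases mul_eq_zero.1 h1 with h2 | h2
  · linarith
  · have h3 : (x + y / 2) ^ 2 + 3 / 4 * y ^ 2 = 0 := by linear_combination h2
    have h4 : y = 0 := by
      have : y ^ 2 = 0 := by nlinarith [sq_nonneg (x + y / 2), sq_nonneg y]
      exact pow_eq_zero_iff (two_ne_zero) |>.1 this
    have h5 : x = 0 := by
      rw [h4] at h3
      have : x ^ 2 = 0 := by nlinarith
      exact pow_eq_zero_iff (two_ne_zero) |>.1 this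
    rw [h4, h5]

/-- commuting projective transformations of order three are powers of each other -/
theorem comm3 {g h : V3 ≃ₗ[ℝ] V3} {b : ℝ}
    (hord : ∀ k : ℕ, (∃ a : ℝ, ∀ v, g^[k] v = a • v) ↔ 3 ∣ k)
    (h3 : ∀ v, h (h (h v)) = b • v) (hgh : ∀ v, g (h v) = h (g v)) :
    ∃ (m : ℕ) (t : ℝ), (∀ w, h w = t • g^[m] w) ∨ (∀ w, h (g^[m] w) = t • w) := by
  set M := LinearMap.toMatrix' g.toLinearMap with hM
  have hord' : ∀ k : ℕ, (∃ a : ℝ, M ^ k = a • (1 : Matrix (Fin 3) (Fin 3) ℝ)) ↔ 3 ∣ k := by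
    intro k
    rw [← hord k]
    constructor
    · rintro ⟨a, ha⟩
      refine ⟨a, fun v => ?_⟩
      rw [← matrix_iterate, ← hM, ha, Matrix.smul_mulVec, Matrix.one_mulVec]
    · rintro ⟨a, ha⟩
      refine ⟨a, ?_⟩
      ext i j
      have h1 := matrix_iterate g k (Pi.single j 1)
      rw [ha, ← hM, Matrix.mulVec_single_one] at h1
      have h2 := congrFun h1 i
      simp only [Matrix.col_apply] at h2
      rw [h2, Matrix.smul_apply, Matrix.one_apply]
      simp [Pi.single_apply]
  obtain ⟨B, m, a, ha, hB⟩ := exists_normal M le_rfl hord'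
  have hB' : ∀ v, g^[m] (B v) = a • B (rotF (2 * Real.pi / (3 : ℕ)) v) := by
    intro v
    rw [← hB, hM, matrix_iterate]
  set θ := 2 * Real.pi / (3 : ℕ) with hθ
  have hθ' : θ = Real.pi - Real.pi / 3 := by
    rw [hθ]
    push_cast
    ring
  have hc : Real.cos θ = -1 / 2 := by
    rw [hθ', Real.cos_pi_sub, Real.cos_pi_div_three]
    norm_num
  have hs : Real.sin θ ^ 2 = 3 / 4 := by
    have := Real.sin_sq_add_cos_sq θ
    rw [hc] at this
    linarith
  set s := Real.sin θ with hsdef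
  have hs0 : s ≠ 0 := by
    rintro h0
    rw [h0] at hs
    norm_num at hs
  have hgm : ∀ (k : ℕ) (w : V3), h (g^[k] w) = g^[k] (h w) := by
    intro k
    induction k with
    | zero => intro w; rfl
    | succ k ih =>
      intro w
      rw [Function.iterate_succ_apply', Function.iterate_succ_apply', ← hgh, ih]
  set N : V3 ≃ₗ[ℝ] V3 := (B.trans h).trans B.symm with hN
  have hBN : ∀ v, B (N v) = h (B v) := by
    intro v
    rw [hN, LinearEquiv.trans_apply, LinearEquiv.trans_apply, LinearEquiv.apply_symm_apply]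
  have hNR : ∀ v, N (rotF θ v) = rotF θ (N v) := by
    intro v
    apply B.injective
    apply smul_right_injective V3 ha
    change a • B (N (rotF θ v)) = a • B (rotF θ (N v))
    rw [← hB', hBN, hBN, ← hgm, hB', map_smul]
  have hN3 : ∀ v, N (N (N v)) = b • v := by
    intro v
    apply B.injective
    rw [hBN, hBN, hBN, h3, map_smul]
  -- the matrix of `N`
  set n : Fin 3 → Fin 3 → ℝ := fun i j => N (Pi.single j 1) i with hn
  have hNv : ∀ v i, N v i = n i 0 * v 0 + n i 1 * v 1 + n i 2 * v 2 := by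
    intro v i
    rw [lin_apply N v i, Fin.sum_univ_three]
  have rel : ∀ v : V3, ∀ i, N (rotF θ v) i = rotF θ (N v) i := fun v i => by rw [hNR]
  have r0 : ∀ w : V3, rotF θ w 0 = -1 / 2 * w 0 - s * w 1 := by
    intro w
    simp [rotF, hc, hsdef]
  have r1 : ∀ w : V3, rotF θ w 1 = s * w 0 + -1 / 2 * w 1 := by
    intro w
    simp [rotF, hc, hsdef]
  have r2 : ∀ w : V3, rotF θ w 2 = w 2 := by
    intro w
    simp [rotF]
  have A0 := fun v : V3 => rel v 0
  have A1 := fun v : V3 => rel v 1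
  have A2 := fun v : V3 => rel v 2
  simp only [hNv, r0, r1, r2] at A0 A1 A2
  have a00 := A0 ![1, 0, 0]
  have a01 := A0 ![0, 1, 0]
  have a02 := A0 ![0, 0, 1]
  have a10 := A1 ![1, 0, 0]
  have a12 := A1 ![0, 0, 1]
  have a20 := A2 ![1, 0, 0]
  have a21 := A2 ![0, 1, 0]
  simp only [Matrix.cons_val_zero, Matrix.cons_val_one, Matrix.cons_val, mul_one, mul_zero,
    add_zero, zero_add, sub_zero, zero_sub] at a00 a01 a02 a10 a12 a20 a21
  have n01 : n 0 1 = -n 1 0 := by
    apply mul_left_cancel₀ hs0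
    linarith
  have n11 : n 1 1 = n 0 0 := by
    apply mul_left_cancel₀ hs0
    linarith
  have n12 : n 1 2 = 0 := by
    have e1 : s * n 1 2 = -(3 / 2) * n 0 2 := by linarith
    have e2 : s * n 0 2 = 3 / 2 * n 1 2 := by linarith
    have e3 : s ^ 2 * n 1 2 = -(9 / 4) * n 1 2 := by
      calc s ^ 2 * n 1 2 = s * (s * n 1 2) := by ring
        _ = -(3 / 2) * (s * n 0 2) := by rw [e1]; ring
        _ = -(9 / 4) * n 1 2 := by rw [e2]; ring
    rw [hs] at e3
    linarith
  have n02 : n 0 2 = 0 := by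
    rw [n12] at a02
    linarith
  have n20 : n 2 0 = 0 := by
    have e1 : s * n 2 1 = 3 / 2 * n 2 0 := by linarith
    have e2 : s * n 2 0 = -(3 / 2) * n 2 1 := by linarith
    have e3 : s ^ 2 * n 2 0 = -(9 / 4) * n 2 0 := by
      calc s ^ 2 * n 2 0 = s * (s * n 2 0) := by ring
        _ = -(3 / 2) * (s * n 2 1) := by rw [e2]; ring
        _ = -(9 / 4) * n 2 0 := by rw [e1]; ring
    rw [hs] at e3
    linarith
  have n21 : n 2 1 = 0 := by
    rw [n20] at a21
    linarith
  set p := n 0 0 with hp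
  set q := n 1 0 with hq
  set r := n 2 2 with hr
  have N0 : ∀ v : V3, N v 0 = p * v 0 - q * v 1 := fun v => by
    rw [hNv, n01, n02]
    ring
  have N1 : ∀ v : V3, N v 1 = q * v 0 + p * v 1 := fun v => by
    rw [hNv, n11, n12]
    ring
  have N2 : ∀ v : V3, N v 2 = r * v 2 := fun v => by
    rw [hNv, n20, n21]
    ring
  have b0 := congrFun (hN3 ![1, 0, 0]) 0
  have b1 := congrFun (hN3 ![1, 0, 0]) 1
  have b2 := congrFun (hN3 ![0, 0, 1]) 2
  simp only [N0, N1, N2, Pi.smul_apply, smul_eq_mul, Matrix.cons_val_zero, Matrix.cons_val_one,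
    Matrix.cons_val, mul_one, mul_zero, add_zero, sub_zero] at b0 b1 b2
  have hqq : q * (3 * p ^ 2 - q ^ 2) = 0 := by linear_combination b1
  rcases mul_eq_zero.1 hqq with hq0 | hq3
  · -- `N` is a scalar
    have hpr : p = r := by
      apply cube_eq
      rw [hq0] at b0
      linear_combination b0 - b2
    refine ⟨0, r, Or.inl fun w => ?_⟩
    obtain ⟨v, rfl⟩ := B.surjective w
    rw [← hBN, Function.iterate_zero, id_eq, ← map_smul]
    congr 1
    funext i
    rcases fin3 i with rfl | rfl | rfl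
    · rw [N0, hq0, hpr, Pi.smul_apply, smul_eq_mul]; ring
    · rw [N1, hq0, hpr, Pi.smul_apply, smul_eq_mul]; ring
    · rw [N2, Pi.smul_apply, smul_eq_mul]
  · have hpr : -2 * p = r := by
      apply cube_eq
      linear_combination b0 - b2 - 3 * p * hq3
    have hp' : p = -1 / 2 * r := by rw [← hpr]; ring
    have hqs : (q - s * r) * (q + s * r) = 0 := by
      have e1 : s ^ 2 * r ^ 2 = 3 / 4 * r ^ 2 := by rw [hs]
      have e2 : r ^ 2 = 4 * p ^ 2 := by rw [← hpr]; ring
      linear_combination -hq3 - e1 - 3 / 4 * e2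
    rcases mul_eq_zero.1 hqs with h5 | h5
    · have hq' : q = s * r := by linarith
      refine ⟨m, a⁻¹ * r, Or.inl fun w => ?_⟩
      obtain ⟨v, rfl⟩ := B.surjective w
      rw [← hBN, hB', smul_smul, mul_right_comm, inv_mul_cancel₀ ha, one_mul, ← map_smul]
      congr 1
      funext i
      rcases fin3 i with rfl | rfl | rfl
      · rw [N0, Pi.smul_apply, smul_eq_mul, r0, hq', hp']; ring
      · rw [N1, Pi.smul_apply, smul_eq_mul, r1, hq', hp']; ring
      · rw [N2, Pi.smul_apply, smul_eq_mul, r2]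
    · have hq' : q = -(s * r) := by linarith
      refine ⟨m, a * r, Or.inr fun w => ?_⟩
      obtain ⟨v, rfl⟩ := B.surjective w
      rw [hB', map_smul, ← hBN, mul_smul]
      congr 1
      rw [← map_smul]
      congr 1
      funext i
      rcases fin3 i with rfl | rfl | rfl
      · rw [N0, Pi.smul_apply, smul_eq_mul, r0, r1, hq', hp']
        linear_combination (r * v 0) * hs
      · rw [N1, Pi.smul_apply, smul_eq_mul, r0, r1, hq', hp']
        linear_combination (r * v 1) * hs
      · rw [N2, Pi.smul_apply, smul_eq_mul, r2]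

end

end Pool.Agent.H25.SO
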