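import Pool.Agent.H83.MC.Red

/-!
# The Hamiltonian flow of a form on the sphere
-/

set_option autoImplicit false

open MvPolynomial Set Filter Topology
open Pool.Agent.H83.MC

namespace Pool.Agent.H25.SO

noncomputable section

/-- the squared euclidean norm -/
def nsq (v : Fin 3 → ℝ) : ℝ := v 0 ^ 2 + v 1 ^ 2 + v 2 ^ 2

/-- the derivatives -/
def pd (F : MvPolynomial (Fin 3) ℝ) (i : Fin 3) (v : Fin 3 → ℝ) : ℝ := eval v (pderiv i F)

/-- the vector product of `v` and the gradient of `F` -/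
def fld (F : MvPolynomial (Fin 3) ℝ) (v : Fin 3 → ℝ) : Fin 3 → ℝ :=
  ![v 1 * pd F 2 v - v 2 * pd F 1 v, v 2 * pd F 0 v - v 0 * pd F 2 v,
    v 0 * pd F 1 v - v 1 * pd F 0 v]

theorem contDiff_eval (F : MvPolynomial (Fin 3) ℝ) : ContDiff ℝ 1 fun v : Fin 3 → ℝ => eval v F := by
  induction F using MvPolynomial.induction_on with
  | C a => simpa using contDiff_const
  | add p q hp hq => simpa using hp.add hq
  | mul_X p j hp =>
    have h : ContDiff ℝ 1 fun v : Fin 3 → ℝ => v j := contDiff_apply ℝ ℝ j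
    simpa using hp.mul h

theorem contDiff_coord (i : Fin 3) : ContDiff ℝ 1 fun v : Fin 3 → ℝ => v i := contDiff_apply ℝ ℝ i

theorem contDiff_fld (F : MvPolynomial (Fin 3) ℝ) : ContDiff ℝ 1 (fld F) := by
  rw [contDiff_pi]
  have h := fun i => contDiff_eval (pderiv i F)
  have c := contDiff_coord
  intro i
  fin_cases i
  · exact ((c 1).mul (h 2)).sub ((c 2).mul (h 1))
  · exact ((c 2).mul (h 0)).sub ((c 0).mul (h 2))
  · exact ((c 0).mul (h 1)).sub ((c 1).mul (h 0))

/-! ### Global solutions of bounded Lipschitz autonomous fields (as in the library file `GR.Flow`) -/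

lemma exists_solution_Ioo {E : Type} [NormedAddCommGroup E] [NormedSpace ℝ E] [CompleteSpace E]
    {X : E → E} {K M : NNReal} (hK : LipschitzWith K X) (hM : ∀ x, ‖X x‖ ≤ M) (x : E) (n : ℕ) :
    ∃ γ : ℝ → E, γ 0 = x ∧ ∀ t ∈ Ioo (-((n:ℝ) + 1)) ((n:ℝ) + 1), HasDerivAt γ (X (γ t)) t := by
  have h0 : (0:ℝ) ∈ Icc (-((n:ℝ) + 1)) ((n:ℝ) + 1) := ⟨by linarith [n.cast_nonneg (α := ℝ)],
    by positivity⟩
  have hpl : IsPicardLindelof (fun _ => X) (⟨0, h0⟩ : Icc (-((n:ℝ) + 1)) ((n:ℝ) + 1)) x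
      (M * (n + 1)) 0 M K := by
    refine IsPicardLindelof.of_time_independent (fun y _ => hM y) (hK.lipschitzOnWith) ?_
    simp
  obtain ⟨γ, h1, h2⟩ := hpl.exists_eq_forall_mem_Icc_hasDerivWithinAt₀
  exact ⟨γ, h1, fun t ht => (h2 t (Ioo_subset_Icc_self ht)).hasDerivAt (Icc_mem_nhds ht.1 ht.2)⟩

lemma exists_solution {E : Type} [NormedAddCommGroup E] [NormedSpace ℝ E] [CompleteSpace E]
    {X : E → E} {K M : NNReal} (hK : LipschitzWith K X) (hM : ∀ x, ‖X x‖ ≤ M) (x : E) :
    ∃ γ : ℝ → E, γ 0 = x ∧ ∀ t, HasDerivAt γ (X (γ t)) t := by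
  choose γ h0 h1 using exists_solution_Ioo hK hM x
  have hun : ∀ n k : ℕ, n ≤ k → EqOn (γ n) (γ k) (Ioo (-((n:ℝ) + 1)) ((n:ℝ) + 1)) := by
    intro n k hnk
    have hnk' : (n:ℝ) ≤ k := by exact_mod_cast hnk
    have hn : (0:ℝ) ≤ n := n.cast_nonneg
    refine ODE_solution_unique_of_mem_Ioo (v := fun _ => X) (s := fun _ => univ) (K := K) (t₀ := 0)
      (fun t _ => hK.lipschitzOnWith) ⟨by linarith, by linarith⟩
      (fun t ht => ⟨h1 n t ht, trivial⟩) (fun t ht => ⟨h1 k t ⟨?_, ?_⟩, trivial⟩) ?_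
    · linarith [ht.1]
    · linarith [ht.2]
    · rw [h0, h0]
  refine ⟨fun t => γ ⌈|t|⌉₊ t, ?_, ?_⟩
  · simp only; rw [h0]
  · intro t
    set N : ℕ := ⌈|t|⌉₊ + 1 with hN
    have hval : ∀ s : ℝ, |s| < |t| + 1 → γ ⌈|s|⌉₊ s = γ N s := by
      intro s hs
      have h2 : ⌈|s|⌉₊ ≤ N := by
        have h3 : |s| ≤ ((⌈|t|⌉₊ + 1 : ℕ) : ℝ) := by
          push_cast
          linarith [Nat.le_ceil |t|]
        exact Nat.ceil_le.2 h3
      refine hun _ _ h2 ?_
      have h3 := Nat.le_ceil |s|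
      exact abs_lt.1 (by linarith : |s| < (⌈|s|⌉₊:ℝ) + 1)
    have h3 : HasDerivAt (γ N) (X (γ N t)) t := by
      apply h1
      have h4 := Nat.le_ceil |t|
      refine abs_lt.1 ?_
      rw [hN]; push_cast
      linarith
    have h4 : (fun s => γ ⌈|s|⌉₊ s) =ᶠ[𝓝 t] γ N := by
      have : ∀ᶠ s in 𝓝 t, |s| < |t| + 1 :=
        (continuous_abs.tendsto t).eventually (gt_mem_nhds (by linarith))
      exact this.mono hval
    change HasDerivAt _ (X (γ ⌈|t|⌉₊ t)) t
    rw [hval t (by linarith)]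
    exact h3.congr_of_eventuallyEq h4

/-! ### The solutions on the sphere -/

/-- `γ` is a solution on the sphere, on the curve `F = 0` -/
structure IsSol (F : MvPolynomial (Fin 3) ℝ) (γ : ℝ → Fin 3 → ℝ) : Prop where
  deriv : ∀ t, HasDerivAt γ (fld F (γ t)) t
  norm : ∀ t, nsq (γ t) = 1
  zero : ∀ t, eval (γ t) F = 0

variable {F : MvPolynomial (Fin 3) ℝ} {γ δ : ℝ → Fin 3 → ℝ}

theorem abs_le_one {v : Fin 3 → ℝ} (h : nsq v = 1) (i : Fin 3) : |v i| ≤ 1 := by
  have : v i ^ 2 ≤ 1 := by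
    unfold nsq at h
    fin_cases i <;> simp only [Fin.mk_zero, Fin.mk_one, Fin.reduceFinMk] <;> nlinarith [sq_nonneg (v 0), sq_nonneg (v 1), sq_nonneg (v 2)]
  exact abs_le_one_iff_mul_self_le_one.2 (by nlinarith)

/-- the cube -/
def cube : Set (Fin 3 → ℝ) := Set.pi univ fun _ => Icc (-2 : ℝ) 2

theorem isCompact_cube : IsCompact cube := isCompact_univ_pi fun _ => isCompact_Icc

theorem mem_cube {v : Fin 3 → ℝ} (h : nsq v = 1) : v ∈ cube := fun i _ => by
  have := abs_le.1 (abs_le_one h i)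
  exact ⟨by linarith [this.1], by linarith [this.2]⟩

theorem exists_lip (F : MvPolynomial (Fin 3) ℝ) : ∃ K, LipschitzOnWith K (fld F) cube :=
  (((contDiff_fld F).locallyLipschitz).locallyLipschitzOn).exists_lipschitzOnWith_of_compact
    isCompact_cube

/-- the projection to the cube -/
def clamp (v : Fin 3 → ℝ) : Fin 3 → ℝ := fun i => max (-2) (min 2 (v i))

theorem clamp_mem (v : Fin 3 → ℝ) : clamp v ∈ cube := fun i _ =>
  ⟨le_max_left _ _, max_le (by norm_num) (min_le_left _ _)⟩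

theorem clamp_eq {v : Fin 3 → ℝ} (h : ∀ i, |v i| < 2) : clamp v = v := by
  funext i
  have := abs_lt.1 (h i)
  unfold clamp
  rw [min_eq_right this.2.le, max_eq_right this.1.le]

theorem lip_clamp : LipschitzWith 1 clamp := by
  refine LipschitzWith.of_dist_le_mul fun v w => ?_
  rw [NNReal.coe_one, one_mul]
  refine (dist_pi_le_iff dist_nonneg).2 fun i => ?_
  refine le_trans ?_ (dist_le_pi_dist v w i)
  have h1 : LipschitzWith 1 fun x : ℝ => max (-2 : ℝ) (min 2 x) :=
    (LipschitzWith.id.const_min 2).const_max (-2)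
  have := h1.dist_le_mul (v i) (w i)
  rw [NNReal.coe_one, one_mul] at this
  exact this

theorem hasDeriv_nsq {c' : Fin 3 → ℝ} {t : ℝ} (h : HasDerivAt γ c' t) :
    HasDerivAt (fun t => nsq (γ t)) (2 * (γ t 0 * c' 0 + γ t 1 * c' 1 + γ t 2 * c' 2)) t := by
  have h' := hasDerivAt_pi.1 h
  have := (((h' 0).pow 2).add ((h' 1).pow 2)).add ((h' 2).pow 2)
  refine this.congr_deriv ?_
  simp
  ring

theorem hasDeriv_eval (G : MvPolynomial (Fin 3) ℝ) {c' : Fin 3 → ℝ} {t : ℝ}
    (h : HasDerivAt γ c' t) : HasDerivAt (fun t => eval (γ t) G)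
      (pd G 0 (γ t) * c' 0 + pd G 1 (γ t) * c' 1 + pd G 2 (γ t) * c' 2) t := by
  have := hasDerivAt_eval G γ c' t (hasDerivAt_pi.1 h)
  rwa [Fin.sum_univ_three] at this

theorem exists_sol {v : Fin 3 → ℝ} (h1 : nsq v = 1) (h0 : eval v F = 0) :
    ∃ γ, IsSol F γ ∧ γ 0 = v := by
  obtain ⟨K, hK⟩ := exists_lip F
  have hY : LipschitzWith (K * 1) (fld F ∘ clamp) := by
    have := hK.comp (lip_clamp.lipschitzOnWith (s := univ)) (fun v _ => clamp_mem v)
    exact lipschitzOnWith_univ.1 this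
  obtain ⟨M, hM⟩ := (isCompact_cube.image (contDiff_fld F).continuous).isBounded.exists_norm_le
  have hM' : ∀ v, ‖(fld F ∘ clamp) v‖ ≤ (⟨max M 0, le_max_right _ _⟩ : NNReal) := fun v =>
    (hM _ ⟨_, clamp_mem v, rfl⟩).trans (le_max_left _ _)
  obtain ⟨γ, hγ0, hγ⟩ := exists_solution hY hM' v
  have hcont : Continuous γ := continuous_iff_continuousAt.2 fun t => (hγ t).continuousAt
  have hev : Continuous fun t => eval (γ t) F := (contDiff_eval F).continuous.comp hcont
  have hci : ∀ i, Continuous fun t => γ t i := fun i => (continuous_apply i).comp hcont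
  have hns : Continuous fun t => nsq (γ t) :=
    (((hci 0).pow 2).add ((hci 1).pow 2)).add ((hci 2).pow 2)
  set A : Set ℝ := {t | nsq (γ t) = 1 ∧ eval (γ t) F = 0} with hA
  have hAc : IsClosed A := (isClosed_eq hns continuous_const).inter (isClosed_eq hev continuous_const)
  have hnear : ∀ t ∈ A, ∀ᶠ s in 𝓝 t, HasDerivAt γ (fld F (γ s)) s := by
    intro t ht
    have h2 : ∀ i, ∀ᶠ s in 𝓝 t, |γ s i| < 2 := fun i =>
      ((hci i).abs.tendsto t).eventually (gt_mem_nhds (by
        have := abs_le_one ht.1 i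
        linarith))
    filter_upwards [eventually_all.2 h2] with s hs
    have := hγ s
    rwa [Function.comp_apply, clamp_eq hs] at this
  have hAo : IsOpen A := by
    rw [isOpen_iff_mem_nhds]
    intro t ht
    obtain ⟨ε, hε, hb⟩ := Metric.eventually_nhds_iff_ball.1 (hnear t ht)
    have key : ∀ f : ℝ → ℝ, (∀ s ∈ Metric.ball t ε, HasDerivAt f 0 s) →
        ∀ s ∈ Metric.ball t ε, f s = f t := by
      intro f hf s hs
      refine IsOpen.is_const_of_deriv_eq_zero (𝕜 := ℝ) Metric.isOpen_ball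
        (convex_ball t ε).isPreconnected (fun x hx => (hf x hx).differentiableAt.differentiableWithinAt)
        (fun x hx => (hf x hx).deriv) hs (Metric.mem_ball_self hε)
    refine Filter.mem_of_superset (Metric.ball_mem_nhds t hε) fun s hs => ⟨?_, ?_⟩
    · rw [key (fun t => nsq (γ t)) (fun x hx => ?_) s hs]
      · exact ht.1
      · refine (hasDeriv_nsq (hb x hx)).congr_deriv ?_
        simp only [fld, Matrix.cons_val_zero, Matrix.cons_val_one, Matrix.cons_val]
        ring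
    · have := key (fun t => eval (γ t) F) (fun x hx => by
        refine (hasDeriv_eval F (hb x hx)).congr_deriv ?_
        simp only [fld, Matrix.cons_val_zero, Matrix.cons_val_one, Matrix.cons_val]
        ring) s hs
      exact this.trans ht.2
  have hAu : A = univ := by
    have : IsClopen A := ⟨hAc, hAo⟩
    exact this.eq_univ ⟨0, by simp only [hA, mem_ofPred_eq, hγ0]; exact ⟨h1, h0⟩⟩
  have hall : ∀ t, t ∈ A := fun t => by rw [hAu]; trivial
  refine ⟨γ, ⟨fun t => (hnear t (hall t)).self_of_nhds, fun t => (hall t).1, fun t => (hall t).2⟩, hγ0⟩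

theorem IsSol.cont (hγ : IsSol F γ) : Continuous γ :=
  continuous_iff_continuousAt.2 fun t => (hγ.deriv t).continuousAt

theorem IsSol.unique (hγ : IsSol F γ) (hδ : IsSol F δ) {t : ℝ} (h : γ t = δ t) : γ = δ := by
  obtain ⟨K, hK⟩ := exists_lip F
  exact ODE_solution_unique_univ (v := fun _ => fld F) (s := fun _ => cube) (K := K)
    (fun _ => hK) (fun t => ⟨hγ.deriv t, mem_cube (hγ.norm t)⟩)
    (fun t => ⟨hδ.deriv t, mem_cube (hδ.norm t)⟩) h

theorem IsSol.shift (hγ : IsSol F γ) (c : ℝ) : IsSol F fun t => γ (t + c) := by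
  refine ⟨fun t => ?_, fun t => hγ.norm _, fun t => hγ.zero _⟩
  exact hasDerivAt_pi.2 fun i => (hasDerivAt_pi.1 (hγ.deriv (t + c)) i).comp_add_const t c

/-- two solutions with a common point differ by a shift -/
theorem IsSol.shift_eq (hγ : IsSol F γ) (hδ : IsSol F δ) {t s : ℝ} (h : γ t = δ s) (u : ℝ) :
    γ (t + u) = δ (s + u) := by
  have h1 : (fun x => γ (x + t)) = fun x => δ (x + s) :=
    (hγ.shift t).unique (hδ.shift s) (t := 0) (by simpa using h)
  have := congrFun h1 u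
  rwa [add_comm u t, add_comm u s] at this

theorem hasDerivAt_rev {c' : Fin 3 → ℝ} {t : ℝ} (h : HasDerivAt γ c' (-t)) :
    HasDerivAt (fun t => γ (-t)) (-c') t := by
  refine hasDerivAt_pi.2 fun i => ?_
  have := (hasDerivAt_pi.1 h i).comp t (hasDerivAt_neg t)
  refine this.congr_deriv ?_
  simp

theorem pd_neg {d : ℕ} (hF : F.IsHomogeneous d) (hd : Even d) (hd0 : 0 < d) (i : Fin 3)
    (v : Fin 3 → ℝ) : pd F i (-v) = -pd F i v := by
  have h1 : (pderiv i F).IsHomogeneous (d - 1) := hF.pderiv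
  have h2 := eval_smul' h1 (-1) v
  rw [neg_one_smul] at h2
  unfold pd
  rw [h2, Odd.neg_one_pow (by
    obtain ⟨k, hk⟩ := hd
    exact ⟨k - 1, by omega⟩)]
  ring

theorem nsq_neg (v : Fin 3 → ℝ) : nsq (-v) = nsq v := by
  simp [nsq]

theorem IsSol.neg (hγ : IsSol F γ) {d : ℕ} (hF : F.IsHomogeneous d) (hd : Even d) (hd0 : 0 < d) :
    IsSol F fun t => -γ (-t) := by
  refine ⟨fun t => ?_, fun t => by rw [nsq_neg]; exact hγ.norm _, fun t => ?_⟩
  · have h := (hasDerivAt_rev (hγ.deriv (-t))).neg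
    refine h.congr_deriv ?_
    rw [neg_neg]
    have e := pd_neg hF hd hd0
    ext i
    fin_cases i <;> simp [fld, e]
  · have := eval_smul' hF (-1) (γ (-t))
    rw [neg_one_smul] at this
    rw [this, hγ.zero, mul_zero]

theorem ne_zero_of_nsq {v : Fin 3 → ℝ} (h : nsq v = 1) : v ≠ 0 := by
  rintro rfl
  simp [nsq] at h

/-- antipodal points are not on the same orbit -/
theorem IsSol.ne_neg (hγ : IsSol F γ) {d : ℕ} (hF : F.IsHomogeneous d) (hd : Even d) (hd0 : 0 < d)
    (t s : ℝ) : γ t ≠ -γ s := by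
  intro h
  have h1 := (hγ.neg hF hd hd0)
  have h2 : γ t = (fun t => -γ (-t)) (-s) := by simpa using h
  have h3 := hγ.shift_eq h1 h2 ((s - t) / 2)
  rw [show -(-s + (s - t) / 2) = t + (s - t) / 2 by ring] at h3
  have h4 : γ (t + (s - t) / 2) = 0 := by
    ext i
    have := congrFun h3 i
    simp only [Pi.neg_apply] at this
    simp only [Pi.zero_apply]
    linarith
  exact ne_zero_of_nsq (hγ.norm _) h4

/-- the reflection which changes the sign of the coordinate `j` -/
def rf (j : Fin 3) (v : Fin 3 → ℝ) : Fin 3 → ℝ := fun i => if i = j then -v i else v i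

theorem rf_rf (j : Fin 3) (v : Fin 3 → ℝ) : rf j (rf j v) = v := by
  funext i
  unfold rf
  split_ifs <;> simp

theorem nsq_rf (j : Fin 3) (v : Fin 3 → ℝ) : nsq (rf j v) = nsq v := by
  unfold nsq rf
  fin_cases j <;> simp

theorem pd_rf {j : Fin 3} (hs : ∀ v, eval (rf j v) F = eval v F) (i : Fin 3)
    (v : Fin 3 → ℝ) : pd F i (rf j v) = if i = j then -pd F i v else pd F i v := by
  have h1 := deriv_line F (rf j v) (rf j (Pi.single i 1))
  have h2 := deriv_line F v (Pi.single i 1)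
  have h3 : (fun y : ℝ => eval (rf j v + y • rf j (Pi.single i 1)) F) =
      fun y : ℝ => eval (v + y • (Pi.single i 1 : Fin 3 → ℝ)) F := by
    funext y
    have e : rf j v + y • rf j (Pi.single i 1) = rf j (v + y • (Pi.single i 1 : Fin 3 → ℝ)) := by
      ext k
      simp only [rf, Pi.add_apply, Pi.smul_apply, smul_eq_mul]
      split_ifs <;> ring
    rw [e, hs]
  rw [h3] at h1
  have h4 := h1.unique h2
  have e1 : ∀ k, rf j (Pi.single i (1 : ℝ)) k =
      if k = i then (if i = j then -1 else 1) else 0 := by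
    intro k
    unfold rf
    by_cases hki : k = i
    · subst hki
      simp
    · simp [hki]
  simp only [e1, Pi.single_apply] at h4
  simp only [mul_ite, mul_zero, Finset.sum_ite_eq', Finset.mem_univ, if_true, mul_one] at h4
  unfold pd
  split_ifs at h4 ⊢ with h
  · linarith
  · exact h4

theorem fin3 (k : Fin 3) : k = 0 ∨ k = 1 ∨ k = 2 := by
  revert k
  decide

theorem fld_rf {j : Fin 3} (hs : ∀ v, eval (rf j v) F = eval v F) (v : Fin 3 → ℝ) (i : Fin 3) :
    fld F (rf j v) i = if i = j then fld F v i else -fld F v i := by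
  have e := fun i => pd_rf hs i v
  rcases fin3 j with rfl | rfl | rfl <;> rcases fin3 i with rfl | rfl | rfl <;>
    simp [fld, e, rf] <;> ring

theorem IsSol.reflect (hγ : IsSol F γ) {j : Fin 3} (hs : ∀ v, eval (rf j v) F = eval v F) :
    IsSol F fun t => rf j (γ (-t)) := by
  refine ⟨fun t => ?_, fun t => by rw [nsq_rf]; exact hγ.norm _, fun t => by
    rw [hs]; exact hγ.zero _⟩
  have h := hasDerivAt_pi.1 (hasDerivAt_rev (hγ.deriv (-t)))
  rw [hasDerivAt_pi]
  intro i
  have h1 : HasDerivAt (fun t => rf j (γ (-t)) i)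
      (if i = j then - ((-fld F (γ (-t))) i) else (-fld F (γ (-t))) i) t := by
    unfold rf
    split_ifs
    · exact (h i).neg
    · exact h i
  refine h1.congr_deriv ?_
  rw [fld_rf hs]
  simp only [Pi.neg_apply, neg_neg]

end

end Pool.Agent.H25.SO
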