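import Pool.Agent.H25.SO.Ode

/-!
# The components of the real part are the closed orbits of the flow
-/

set_option autoImplicit false

open MvPolynomial Set Filter Topology
open Pool.Agent.H83.MC

namespace Pool.Agent.H25.SO

noncomputable section

/-- `F` is a form of even degree `d > 0` without real singular points -/
structure Curve (F : MvPolynomial (Fin 3) ℝ) (d : ℕ) : Prop where
  hF : F.IsHomogeneous d
  hd : Even d
  hd0 : 0 < d
  hns : ∀ v : Fin 3 → ℝ, v ≠ 0 → eval v F = 0 → ∃ i, eval v (pderiv i F) ≠ 0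

variable {F : MvPolynomial (Fin 3) ℝ} {γ δ : ℝ → Fin 3 → ℝ} {d : ℕ}

theorem euler (hF : F.IsHomogeneous d) (v : Fin 3 → ℝ) :
    v 0 * pd F 0 v + v 1 * pd F 1 v + v 2 * pd F 2 v = d * eval v F := by
  have e := congrArg (eval v) (hF.sum_X_mul_pderiv)
  simpa [Fin.sum_univ_three, pd, nsmul_eq_mul] using e

theorem Curve.fld_pos (C : Curve F d) {v : Fin 3 → ℝ} (h1 : nsq v = 1) (h0 : eval v F = 0) :
    0 < nsq (fld F v) := by
  by_contra hcon
  have hz : nsq (fld F v) = 0 := le_antisymm (not_lt.1 hcon) (by unfold nsq; positivity)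
  have he := euler C.hF v
  rw [h0, mul_zero] at he
  obtain ⟨i, hi⟩ := C.hns v (ne_zero_of_nsq h1) h0
  have key : nsq v * (pd F 0 v ^ 2 + pd F 1 v ^ 2 + pd F 2 v ^ 2) = 0 := by
    have : nsq v * (pd F 0 v ^ 2 + pd F 1 v ^ 2 + pd F 2 v ^ 2) = nsq (fld F v) +
        (v 0 * pd F 0 v + v 1 * pd F 1 v + v 2 * pd F 2 v) ^ 2 := by
      simp only [nsq, fld, Matrix.cons_val_zero, Matrix.cons_val_one, Matrix.cons_val]
      ring
    rw [this, hz, he]
    ring
  rw [h1, one_mul] at key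
  apply hi
  change pd F i v = 0
  rcases fin3 i with rfl | rfl | rfl <;> nlinarith [sq_nonneg (pd F 0 v), sq_nonneg (pd F 1 v), sq_nonneg (pd F 2 v)]

/-- the coordinates near a point of the curve -/
def Psi (F : MvPolynomial (Fin 3) ℝ) (x w : Fin 3 → ℝ) : Fin 3 → ℝ :=
  ![eval w F, nsq w, x 0 * w 0 + x 1 * w 1 + x 2 * w 2]

theorem contDiff_Psi (F : MvPolynomial (Fin 3) ℝ) (x : Fin 3 → ℝ) : ContDiff ℝ 1 (Psi F x) := by
  rw [contDiff_pi]
  have c := contDiff_coord
  intro i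
  rcases fin3 i with rfl | rfl | rfl
  · exact contDiff_eval F
  · exact (((c 0).pow 2).add ((c 1).pow 2)).add ((c 2).pow 2)
  · exact ((contDiff_const.mul (c 0)).add (contDiff_const.mul (c 1))).add (contDiff_const.mul (c 2))

theorem Curve.injOn (C : Curve F d) {v : Fin 3 → ℝ} (h1 : nsq v = 1) (h0 : eval v F = 0) :
    ∃ W : Set (Fin 3 → ℝ), W ∈ 𝓝 v ∧ InjOn (Psi F (fld F v)) W := by
  set x := fld F v with hx
  set L := fderiv ℝ (Psi F x) v with hL
  have hc := contDiff_Psi F x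
  have hd : HasFDerivAt (Psi F x) L v := (hc.differentiable (by norm_num) v).hasFDerivAt
  have hLu : ∀ u : Fin 3 → ℝ, L u = ![pd F 0 v * u 0 + pd F 1 v * u 1 + pd F 2 v * u 2,
      2 * (v 0 * u 0 + v 1 * u 1 + v 2 * u 2), x 0 * u 0 + x 1 * u 1 + x 2 * u 2] := by
    intro u
    have hline : HasDerivAt (fun y : ℝ => v + y • u) u 0 := by
      have := ((hasDerivAt_id (0 : ℝ)).smul_const u).const_add v
      simpa using this
    have hline' : ∀ i, HasDerivAt (fun y : ℝ => (v + y • u) i) (u i) 0 := fun i =>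
      hasDerivAt_pi.1 hline i
    have h2 : HasDerivAt (fun y : ℝ => Psi F x (v + y • u)) (L u) 0 := by
      have := HasFDerivAt.comp_hasDerivAt (x := (0 : ℝ)) (f := fun y : ℝ => v + y • u)
        (l := Psi F x) (l' := L) (by simpa using hd) hline
      exact this
    have h3 := hasDerivAt_pi.1 h2
    funext i
    rcases fin3 i with rfl | rfl | rfl
    · have := hasDeriv_eval F hline
      simp only [zero_smul, add_zero] at this
      exact (h3 0).unique this
    · have := hasDeriv_nsq hline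
      simp only [zero_smul, add_zero] at this
      exact (h3 1).unique this
    · have := (((hline' 0).const_mul (x 0)).add ((hline' 1).const_mul (x 1))).add
        ((hline' 2).const_mul (x 2))
      exact (h3 2).unique this
  have hinj : Function.Injective L.toLinearMap := by
    rw [← LinearMap.ker_eq_bot, LinearMap.ker_eq_bot']
    intro u hu
    have hu' : L u = 0 := hu
    rw [hLu] at hu'
    have e0 : pd F 0 v * u 0 + pd F 1 v * u 1 + pd F 2 v * u 2 = 0 := congrFun hu' 0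
    have e1 : 2 * (v 0 * u 0 + v 1 * u 1 + v 2 * u 2) = 0 := congrFun hu' 1
    have e2 : x 0 * u 0 + x 1 * u 1 + x 2 * u 2 = 0 := congrFun hu' 2
    have hpos := C.fld_pos h1 h0
    rw [← hx] at hpos
    have x0 : x 0 = v 1 * pd F 2 v - v 2 * pd F 1 v := rfl
    have x1 : x 1 = v 2 * pd F 0 v - v 0 * pd F 2 v := rfl
    have x2 : x 2 = v 0 * pd F 1 v - v 1 * pd F 0 v := rfl
    have k0 : u 1 * x 2 - u 2 * x 1 = 0 := by
      rw [x1, x2]; linear_combination v 0 * e0 - pd F 0 v * e1 / 2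
    have k1 : u 2 * x 0 - u 0 * x 2 = 0 := by
      rw [x0, x2]; linear_combination v 1 * e0 - pd F 1 v * e1 / 2
    have k2 : u 0 * x 1 - u 1 * x 0 = 0 := by
      rw [x0, x1]; linear_combination v 2 * e0 - pd F 2 v * e1 / 2
    have h5 : nsq x * nsq u = 0 := by
      have : nsq x * nsq u = (u 1 * x 2 - u 2 * x 1) ^ 2 + (u 2 * x 0 - u 0 * x 2) ^ 2 +
          (u 0 * x 1 - u 1 * x 0) ^ 2 + (x 0 * u 0 + x 1 * u 1 + x 2 * u 2) ^ 2 := by
        unfold nsq; ring
      rw [this, k0, k1, k2, e2]; ring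
    have h6 : nsq u = 0 := (mul_eq_zero.1 h5).resolve_left hpos.ne'
    unfold nsq at h6
    funext i
    simp only [Pi.zero_apply]
    rcases fin3 i with rfl | rfl | rfl <;> nlinarith [sq_nonneg (u 0), sq_nonneg (u 1), sq_nonneg (u 2)]
  set E : (Fin 3 → ℝ) ≃L[ℝ] (Fin 3 → ℝ) :=
    (LinearEquiv.ofInjectiveEndo L.toLinearMap hinj).toContinuousLinearEquiv with hE
  have hEL : (E : (Fin 3 → ℝ) →L[ℝ] (Fin 3 → ℝ)) = L := by
    ext u
    simp [hE]
  have hs : HasStrictFDerivAt (Psi F x) (E : (Fin 3 → ℝ) →L[ℝ] (Fin 3 → ℝ)) v := by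
    rw [hEL]
    exact hc.contDiffAt.hasStrictFDerivAt' hd (by norm_num)
  refine ⟨(hs.toOpenPartialHomeomorph _).source, ?_, ?_⟩
  · exact (hs.toOpenPartialHomeomorph _).open_source.mem_nhds hs.mem_toOpenPartialHomeomorph_source
  · exact (hs.toOpenPartialHomeomorph _).injOn

/-- near a point of a solution all points of the curve are on the solution -/
theorem Curve.near (C : Curve F d) (hγ : IsSol F γ) (t₀ : ℝ) {ε : ℝ} (hε : 0 < ε) :
    ∃ U ∈ 𝓝 (γ t₀), ∀ w ∈ U, nsq w = 1 → eval w F = 0 → ∃ t, |t - t₀| < ε ∧ γ t = w := by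
  obtain ⟨W, hW, hinj⟩ := C.injOn (hγ.norm t₀) (hγ.zero t₀)
  set x := fld F (γ t₀) with hx
  set τ : ℝ → ℝ := fun t => x 0 * γ t 0 + x 1 * γ t 1 + x 2 * γ t 2 with hτ
  have hpos := C.fld_pos (hγ.norm t₀) (hγ.zero t₀)
  rw [← hx] at hpos
  have hγi := hasDerivAt_pi.1 (hγ.deriv t₀)
  have hder : HasDerivAt τ (nsq x) t₀ := by
    have := (((hγi 0).const_mul (x 0)).add ((hγi 1).const_mul (x 1))).add
      ((hγi 2).const_mul (x 2))
    refine this.congr_deriv ?_
    rw [← hx]
    unfold nsq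
    ring
  have hγc : ∀ i, Continuous fun t => γ t i := fun i => (continuous_apply i).comp hγ.cont
  have hτc : Continuous τ := ((continuous_const.mul (hγc 0)).add (continuous_const.mul (hγc 1))).add
    (continuous_const.mul (hγc 2))
  have hsl : ∀ᶠ t in 𝓝[≠] t₀, 0 < slope τ t₀ t :=
    (hasDerivAt_iff_tendsto_slope.1 hder).eventually (lt_mem_nhds hpos)
  have hWe : ∀ᶠ t in 𝓝 t₀, γ t ∈ W := hγ.cont.continuousAt.eventually hW
  rw [eventually_nhdsWithin_iff] at hsl
  obtain ⟨η, hη, hb⟩ := Metric.eventually_nhds_iff_ball.1 (hsl.and hWe)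
  set r := min (η / 2) (ε / 2) with hr
  have hr0 : 0 < r := lt_min (by linarith) (by linarith)
  have hrη : r < η := lt_of_le_of_lt (min_le_left _ _) (by linarith)
  have hrε : r < ε := lt_of_le_of_lt (min_le_right _ _) (by linarith)
  have b1 := (hb (t₀ - r) (by rw [Metric.mem_ball, Real.dist_eq]; simpa [abs_of_pos hr0] using hrη)).1
    (by simpa using hr0.ne')
  have b2 := (hb (t₀ + r) (by rw [Metric.mem_ball, Real.dist_eq]; simpa [abs_of_pos hr0] using hrη)).1
    (by simpa using hr0.ne')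
  have c1 : τ (t₀ - r) < τ t₀ := by
    rw [slope_def_field] at b1
    have e : t₀ - r - t₀ = -r := by ring
    rw [e, div_pos_iff] at b1
    rcases b1 with b | b
    · linarith [b.2]
    · linarith [b.1]
  have c2 : τ t₀ < τ (t₀ + r) := by
    rw [slope_def_field] at b2
    have e : t₀ + r - t₀ = r := by ring
    rw [e, div_pos_iff] at b2
    rcases b2 with b | b
    · linarith [b.1]
    · linarith [b.2]
  have hlin : Continuous fun w : Fin 3 → ℝ => x 0 * w 0 + x 1 * w 1 + x 2 * w 2 := by fun_prop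
  have hN : {w : Fin 3 → ℝ | τ (t₀ - r) < x 0 * w 0 + x 1 * w 1 + x 2 * w 2} ∈ 𝓝 (γ t₀) :=
    (isOpen_lt continuous_const hlin).mem_nhds c1
  have hN' : {w : Fin 3 → ℝ | x 0 * w 0 + x 1 * w 1 + x 2 * w 2 < τ (t₀ + r)} ∈ 𝓝 (γ t₀) :=
    (isOpen_lt hlin continuous_const).mem_nhds c2
  refine ⟨_, inter_mem hW (inter_mem hN hN'), ?_⟩
  rintro w ⟨hw1, hw2, hw3⟩ hn hz
  obtain ⟨t, ht, htw⟩ := intermediate_value_Icc (show t₀ - r ≤ t₀ + r by linarith)
    hτc.continuousOn (show x 0 * w 0 + x 1 * w 1 + x 2 * w 2 ∈ _ from ⟨le_of_lt hw2, le_of_lt hw3⟩)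
  have habs : |t - t₀| ≤ r := abs_le.2 ⟨by linarith [ht.1], by linarith [ht.2]⟩
  refine ⟨t, lt_of_le_of_lt habs hrε, ?_⟩
  refine hinj (hb t ?_).2 hw1 ?_
  · rw [Metric.mem_ball, Real.dist_eq]
    exact lt_of_le_of_lt habs hrη
  · funext i
    rcases fin3 i with rfl | rfl | rfl
    · exact (hγ.zero t).trans hz.symm
    · exact (hγ.norm t).trans hn.symm
    · exact htw

theorem continuous_nsq : Continuous nsq := by
  unfold nsq
  fun_prop

theorem isCompact_unit : IsCompact {v : Fin 3 → ℝ | nsq v = 1 ∧ eval v F = 0} := by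
  refine isCompact_cube.of_isClosed_subset ?_ fun v hv => mem_cube hv.1
  exact (isClosed_eq continuous_nsq continuous_const).inter
    (isClosed_eq (contDiff_eval F).continuous continuous_const)

theorem Curve.exists_period (C : Curve F d) (hγ : IsSol F γ) :
    ∃ T > 0, ∀ t, γ (t + T) = γ t := by
  obtain ⟨a, ha, φ, hφ, hlim⟩ := (isCompact_unit (F := F)).tendsto_subseq
    (x := fun n : ℕ => γ n) (fun n => ⟨hγ.norm _, hγ.zero _⟩)
  obtain ⟨δ, hδ, hδ0⟩ := exists_sol ha.1 ha.2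
  obtain ⟨U, hU, hloc⟩ := C.near hδ 0 (ε := 1 / 3) (by norm_num)
  rw [hδ0] at hU
  obtain ⟨N, hN⟩ := eventually_atTop.1 (hlim.eventually hU)
  obtain ⟨τ₁, h1, h1'⟩ := hloc _ (hN N le_rfl) (hγ.norm _) (hγ.zero _)
  obtain ⟨τ₂, h2, h2'⟩ := hloc _ (hN (N + 1) (by omega)) (hγ.norm _) (hγ.zero _)
  have hlt : φ N + 1 ≤ φ (N + 1) := hφ (by omega)
  have hlt' : (φ N : ℝ) + 1 ≤ φ (N + 1) := by exact_mod_cast hlt
  rw [sub_zero, abs_lt] at h1 h2
  simp only [Function.comp_apply] at h1' h2'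
  refine ⟨φ (N + 1) - φ N + τ₁ - τ₂, by linarith [h1.1, h2.2], fun t => ?_⟩
  have e1 := hγ.shift_eq hδ h1'.symm (t - φ N)
  have e2 := hγ.shift_eq hδ h2'.symm (t - φ N + τ₁ - τ₂)
  rw [show (φ N : ℝ) + (t - φ N) = t by ring] at e1
  rw [show (φ (N + 1) : ℝ) + (t - φ N + τ₁ - τ₂) = t + (φ (N + 1) - φ N + τ₁ - τ₂) by ring,
    show τ₂ + (t - φ N + τ₁ - τ₂) = τ₁ + (t - φ N) by ring] at e2
  rw [e1, e2]

theorem Curve.exists_min_period (C : Curve F d) (hγ : IsSol F γ) :
    ∃ T > 0, (∀ t, γ (t + T) = γ t) ∧ ∀ t s, γ t = γ s → ∃ n : ℤ, t = s + n * T := by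
  obtain ⟨T₀, hT₀, hper⟩ := C.exists_period hγ
  let H : AddSubgroup ℝ :=
    { carrier := {c | ∀ t, γ (t + c) = γ t}
      add_mem' := by
        intro a b ha hb t
        rw [← add_assoc, hb, ha]
      zero_mem' := by
        intro t
        rw [add_zero]
      neg_mem' := by
        intro a ha t
        have := ha (t + -a)
        rw [← this]
        congr 1
        ring }
  have hne : fld F (γ 0) ≠ 0 := by
    intro h
    have := C.fld_pos (hγ.norm 0) (hγ.zero 0)
    rw [h] at this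
    simp [nsq] at this
  have hev := (hγ.deriv 0).eventually_ne (c := γ 0) hne
  rw [eventually_nhdsWithin_iff] at hev
  obtain ⟨ε, hε, hb⟩ := Metric.eventually_nhds_iff_ball.1 hev
  have hdis : Disjoint (H : Set ℝ) (Ioo 0 ε) := by
    rw [Set.disjoint_left]
    intro c hc hc'
    refine hb c ?_ hc'.1.ne' ?_
    · rw [Metric.mem_ball, Real.dist_eq, sub_zero, abs_of_pos hc'.1]
      exact hc'.2
    · have := hc 0
      rwa [zero_add] at this
  obtain ⟨b, hbH⟩ := AddSubgroup.cyclic_of_isolated_zero hε hdis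
  have hb0 : b ≠ 0 := by
    rintro rfl
    have : T₀ ∈ H := hper
    rw [hbH, AddSubgroup.mem_closure_singleton] at this
    obtain ⟨n, hn⟩ := this
    simp at hn
    linarith
  have hbm : b ∈ H := by
    rw [hbH]
    exact AddSubgroup.mem_closure_singleton_self b
  refine ⟨|b|, abs_pos.2 hb0, ?_, ?_⟩
  · rcases abs_choice b with h | h
    · rw [h]; exact hbm
    · rw [h]; exact H.neg_mem hbm
  · intro t s hts
    have hmem : t - s ∈ H := by
      intro x
      have := hγ.shift_eq hγ hts (x - s)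
      rw [show t + (x - s) = x + (t - s) by ring, show s + (x - s) = x by ring] at this
      exact this
    rw [hbH, AddSubgroup.mem_closure_singleton] at hmem
    obtain ⟨n, hn⟩ := hmem
    rw [zsmul_eq_mul] at hn
    rcases abs_choice b with h | h
    · exact ⟨n, by rw [h]; linarith⟩
    · exact ⟨-n, by rw [h]; push_cast; linarith⟩

end

end Pool.Agent.H25.SO
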