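import Pool.Agent.H25.SO.Orbit

/-!
# Parametrisation of the components of the real part
-/

set_option autoImplicit false

open MvPolynomial Set Filter Topology
open Pool.Agent.H83.MC

namespace Pool.Agent.H25.SO

noncomputable section

theorem e0_ne : (![1, 0, 0] : Fin 3 → ℝ) ≠ 0 := by
  intro h
  have := congrFun h 0
  simp at this

open Classical in
/-- the point of the projective plane with the coordinates `v` -/
def pr (v : Fin 3 → ℝ) : RP2 := if h : v ≠ 0 then mkP ⟨v, h⟩ else mkP ⟨![1, 0, 0], e0_ne⟩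

theorem pr_of {v : Fin 3 → ℝ} (h : v ≠ 0) : pr v = mkP ⟨v, h⟩ := dif_pos h

theorem pr_eq {v w : Fin 3 → ℝ} (hv : v ≠ 0) (hw : w ≠ 0) :
    pr v = pr w ↔ ∃ c : ℝ, w = c • v := by
  rw [pr_of hv, pr_of hw]
  exact mkP_eq

theorem pr_neg (v : Fin 3 → ℝ) : pr (-v) = pr v := by
  by_cases h : v = 0
  · simp [h]
  · exact ((pr_eq h (neg_ne_zero.2 h)).2 ⟨-1, by simp⟩).symm

theorem nsq_smul (c : ℝ) (v : Fin 3 → ℝ) : nsq (c • v) = c ^ 2 * nsq v := by
  unfold nsq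
  simp only [Pi.smul_apply, smul_eq_mul]
  ring

theorem pr_unit {v w : Fin 3 → ℝ} (hv : nsq v = 1) (hw : nsq w = 1) :
    pr v = pr w ↔ w = v ∨ w = -v := by
  constructor
  · intro h
    obtain ⟨c, hc⟩ := (pr_eq (ne_zero_of_nsq hv) (ne_zero_of_nsq hw)).1 h
    rw [hc, nsq_smul, hv, mul_one] at hw
    have h2 : (c - 1) * (c + 1) = 0 := by linarith
    rcases mul_eq_zero.1 h2 with h1 | h1
    · left; rw [hc, show c = 1 by linarith, one_smul]
    · right; rw [hc, show c = -1 by linarith, neg_one_smul]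
  · rintro (h | h)
    · rw [h]
    · rw [h, pr_neg]

theorem nsq_pos {v : Fin 3 → ℝ} (h : v ≠ 0) : 0 < nsq v := sq_sum_pos ⟨v, h⟩

/-- the unit vector -/
def nrm (v : Fin 3 → ℝ) : Fin 3 → ℝ := (√(nsq v))⁻¹ • v

theorem nsq_nrm {v : Fin 3 → ℝ} (h : v ≠ 0) : nsq (nrm v) = 1 := by
  unfold nrm
  rw [nsq_smul, inv_pow, Real.sq_sqrt (nsq_pos h).le, inv_mul_cancel₀ (nsq_pos h).ne']

theorem pr_nrm {v : Fin 3 → ℝ} (h : v ≠ 0) : pr (nrm v) = pr v := by
  have h1 := ne_zero_of_nsq (nsq_nrm h)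
  refine (pr_eq h1 h).2 ⟨√(nsq v), ?_⟩
  unfold nrm
  rw [smul_smul, mul_inv_cancel₀ (Real.sqrt_pos.2 (nsq_pos h)).ne', one_smul]

theorem nrm_of_unit {v : Fin 3 → ℝ} (h : nsq v = 1) : nrm v = v := by
  unfold nrm
  rw [h]
  simp

variable {F : MvPolynomial (Fin 3) ℝ} {γ δ : ℝ → Fin 3 → ℝ} {d : ℕ}

theorem eval_nrm (hF : F.IsHomogeneous d) {v : Fin 3 → ℝ} (h : eval v F = 0) :
    eval (nrm v) F = 0 := by
  unfold nrm
  rw [eval_smul' hF, h, mul_zero]

theorem mem_real (hF : F.IsHomogeneous d) {v : Fin 3 → ℝ} (hv : v ≠ 0) :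
    pr v ∈ realPart F ↔ eval v F = 0 := by
  rw [pr_of hv]
  exact mem_realPart hF _

theorem exists_unit (hF : F.IsHomogeneous d) {p : RP2} (hp : p ∈ realPart F) :
    ∃ v, nsq v = 1 ∧ eval v F = 0 ∧ pr v = p := by
  obtain ⟨v, rfl, h⟩ := hp
  exact ⟨nrm v.1, nsq_nrm v.2, eval_nrm hF h, by rw [pr_nrm v.2, pr_of v.2]; rfl⟩

/-- multiplication by a number -/
def sc (c : ℝ) (hc : c ≠ 0) (w : NZ) : NZ := ⟨c • w.1, smul_ne_zero hc w.2⟩

theorem continuous_sc (c : ℝ) (hc : c ≠ 0) : Continuous (sc c hc) := by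
  refine Continuous.subtype_mk ?_ _
  exact (continuous_const_smul c).comp continuous_subtype_val

theorem isOpenMap_mkP : IsOpenMap mkP := by
  intro U hU
  have h1 : IsOpen (mkP ⁻¹' (mkP '' U)) := by
    have : mkP ⁻¹' (mkP '' U) = ⋃ c : {c : ℝ // c ≠ 0}, sc c.1 c.2 ⁻¹' U := by
      ext w
      simp only [mem_preimage, mem_image, mem_iUnion]
      constructor
      · rintro ⟨u, hu, h⟩
        obtain ⟨c, hc⟩ := mkP_eq.1 h.symm
        have hc0 := smul_ne hc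
        refine ⟨⟨c, hc0⟩, ?_⟩
        have : sc c hc0 w = u := Subtype.ext hc.symm
        change sc c hc0 w ∈ U
        rw [this]
        exact hu
      · rintro ⟨c, hc⟩
        exact ⟨_, hc, (mkP_eq.2 ⟨c.1, rfl⟩).symm⟩
    rw [this]
    exact isOpen_iUnion fun c => hU.preimage (continuous_sc c.1 c.2)
  exact isQuotientMap_quotient_mk'.isOpen_preimage.1 h1

theorem IsSol.ne (hγ : IsSol F γ) (t : ℝ) : γ t ≠ 0 := ne_zero_of_nsq (hγ.norm t)

theorem IsSol.continuous_pr (hγ : IsSol F γ) : Continuous fun t => pr (γ t) := by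
  have : (fun t => pr (γ t)) = fun t => mkP ⟨γ t, hγ.ne t⟩ := by
    funext t
    exact pr_of _
  rw [this]
  exact continuous_mkP.comp (hγ.cont.subtype_mk _)

theorem IsSol.mem (C : Curve F d) (hγ : IsSol F γ) (t : ℝ) : pr (γ t) ∈ realPart F :=
  (mem_real C.hF (hγ.ne t)).2 (hγ.zero t)

theorem continuous_nrm : Continuous fun w : NZ => nrm w.1 := by
  unfold nrm
  have h : Continuous fun w : NZ => √(nsq w.1) :=
    Real.continuous_sqrt.comp (continuous_nsq.comp continuous_subtype_val)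
  exact (h.inv₀ fun w => (Real.sqrt_pos.2 (nsq_pos w.2)).ne').smul continuous_subtype_val

/-- the orbit of a solution in the real part -/
def Orb (F : MvPolynomial (Fin 3) ℝ) (γ : ℝ → Fin 3 → ℝ) : Set (realPart F) :=
  {q | ∃ t, pr (γ t) = q.1}

theorem Curve.isOpen_orb (C : Curve F d) (hγ : IsSol F γ) : IsOpen (Orb F γ) := by
  rw [isOpen_iff_mem_nhds]
  rintro q ⟨t₀, ht⟩
  obtain ⟨U, hU, hloc⟩ := C.near hγ t₀ one_pos
  obtain ⟨U', hU', hUo, hm⟩ := mem_nhds_iff.1 hU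
  have hNo : IsOpen (mkP '' {w : NZ | nrm w.1 ∈ U'}) :=
    isOpenMap_mkP _ (hUo.preimage continuous_nrm)
  have hmem : q.1 ∈ mkP '' {w : NZ | nrm w.1 ∈ U'} := by
    refine ⟨⟨γ t₀, hγ.ne t₀⟩, ?_, ?_⟩
    · change nrm (γ t₀) ∈ U'
      rw [nrm_of_unit (hγ.norm t₀)]
      exact hm
    · rw [← ht, pr_of (hγ.ne t₀)]
  refine Filter.mem_of_superset ((hNo.preimage continuous_subtype_val).mem_nhds hmem) ?_
  rintro q' ⟨w, hw, hwq⟩
  have hz : eval w.1 F = 0 := (mem_realPart C.hF w).1 (by rw [hwq]; exact q'.2)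
  obtain ⟨t, -, ht'⟩ := hloc _ (hU' hw) (nsq_nrm w.2) (eval_nrm C.hF hz)
  exact ⟨t, by rw [ht', pr_nrm w.2, pr_of w.2]; exact hwq⟩

/-- two solutions whose images in the projective plane meet -/
theorem Curve.orb_eq (C : Curve F d) (hγ : IsSol F γ) (hδ : IsSol F δ) {t s : ℝ}
    (h : pr (γ t) = pr (δ s)) :
    (∀ u, δ (s + u) = γ (t + u)) ∨ (∀ u, δ (s + u) = -γ (t - u)) := by
  rcases (pr_unit (hγ.norm t) (hδ.norm s)).1 h with h1 | h1
  · left
    exact hδ.shift_eq hγ h1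
  · right
    intro u
    have h2 : δ s = (fun t => -γ (-t)) (-t) := by simpa using h1
    have := hδ.shift_eq (hγ.neg C.hF C.hd C.hd0) h2 u
    rw [this]
    congr 2
    ring

theorem Curve.isClopen_orb (C : Curve F d) (hγ : IsSol F γ) : IsClopen (Orb F γ) := by
  refine ⟨⟨?_⟩, C.isOpen_orb hγ⟩
  rw [isOpen_iff_mem_nhds]
  intro q hq
  obtain ⟨v, hv1, hv0, hvq⟩ := exists_unit C.hF q.2
  obtain ⟨δ, hδ, hδ0⟩ := exists_sol hv1 hv0
  refine Filter.mem_of_superset ((C.isOpen_orb hδ).mem_nhds ⟨0, by rw [hδ0, hvq]⟩) ?_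
  rintro q' ⟨s, hs⟩ ⟨t, ht⟩
  apply hq
  rcases C.orb_eq hγ hδ (ht.trans hs.symm) with h | h
  · refine ⟨t + -s, ?_⟩
    rw [← h, add_neg_cancel, hδ0, hvq]
  · refine ⟨t - -s, ?_⟩
    have := h (-s)
    rw [add_neg_cancel, hδ0] at this
    rw [← hvq, this, pr_neg]

/-- `γ` is a parametrisation of the component `κ` with the period `T` -/
structure Par (F : MvPolynomial (Fin 3) ℝ) (κ : ConnectedComponents (realPart F))
    (γ : ℝ → Fin 3 → ℝ) (T : ℝ) : Prop where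
  sol : IsSol F γ
  pos : 0 < T
  per : ∀ t, γ (t + T) = γ t
  inj : ∀ t s, γ t = γ s → ∃ n : ℤ, t = s + n * T
  mem : ∀ p, InC κ p ↔ ∃ t, pr (γ t) = p

theorem Curve.exists_par_of (C : Curve F d) (hγ : IsSol F γ) :
    ∃ κ T, Par F κ γ T ∧ InC κ (pr (γ 0)) := by
  obtain ⟨T, hT, hper, hinj⟩ := C.exists_min_period hγ
  set q₀ : realPart F := ⟨pr (γ 0), hγ.mem C 0⟩ with hq₀
  have hO : connectedComponent q₀ = Orb F γ := by
    apply Subset.antisymm
    · exact (C.isClopen_orb hγ).connectedComponent_subset ⟨0, rfl⟩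
    · have hc : Continuous fun t => (⟨pr (γ t), hγ.mem C t⟩ : realPart F) :=
        hγ.continuous_pr.subtype_mk _
      have hr : Orb F γ = Set.range fun t => (⟨pr (γ t), hγ.mem C t⟩ : realPart F) := by
        ext q
        constructor
        · rintro ⟨t, ht⟩
          exact ⟨t, Subtype.ext ht⟩
        · rintro ⟨t, rfl⟩
          exact ⟨t, rfl⟩
      rw [hr]
      exact (isPreconnected_range hc).subset_connectedComponent ⟨0, rfl⟩
  refine ⟨(q₀ : ConnectedComponents (realPart F)), T, ⟨hγ, hT, hper, hinj, fun p => ?_⟩,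
    ⟨q₀.2, rfl⟩⟩
  constructor
  · rintro ⟨hp, h⟩
    rw [eq_comm, ConnectedComponents.coe_eq_coe', hO] at h
    exact h
  · rintro ⟨t, ht⟩
    have hp : p ∈ realPart F := by rw [← ht]; exact hγ.mem C t
    refine ⟨hp, ?_⟩
    rw [eq_comm, ConnectedComponents.coe_eq_coe', hO]
    exact ⟨t, ht⟩

theorem Curve.exists_par (C : Curve F d) (κ : ConnectedComponents (realPart F)) :
    ∃ γ T, Par F κ γ T := by
  obtain ⟨q, rfl⟩ := ConnectedComponents.surjective_coe κ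
  obtain ⟨v, hv1, hv0, hvq⟩ := exists_unit C.hF q.2
  obtain ⟨γ, hγ, hγ0⟩ := exists_sol hv1 hv0
  obtain ⟨κ, T, hp, hm⟩ := C.exists_par_of hγ
  have : κ = (q : ConnectedComponents (realPart F)) := by
    have h : pr (γ 0) = q.1 := by rw [hγ0, hvq]
    refine InC.unique hm ⟨by rw [h]; exact q.2, ?_⟩
    congr 1
    exact Subtype.ext h.symm
  exact ⟨γ, T, this ▸ hp⟩

theorem Par.pr_inj {κ : ConnectedComponents (realPart F)} {T : ℝ} (P : Par F κ γ T)
    (C : Curve F d) {t s : ℝ} (h : pr (γ t) = pr (γ s)) : ∃ n : ℤ, t = s + n * T := by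
  rcases (pr_unit (P.sol.norm t) (P.sol.norm s)).1 h with h1 | h1
  · exact P.inj t s h1.symm
  · exact absurd h1 (P.sol.ne_neg C.hF C.hd C.hd0 s t)

theorem Par.per_int {κ : ConnectedComponents (realPart F)} {T : ℝ} (P : Par F κ γ T) (n : ℤ)
    (t : ℝ) : γ (t + n * T) = γ t := by
  have h : Function.Periodic γ T := P.per
  exact h.int_mul n t

end

end Pool.Agent.H25.SO
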