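import Pool.Agent.H25.SO.Inv

/-!
# Change of the coordinates
-/

set_option autoImplicit false

open MvPolynomial Set
open Pool.Agent.H83.MC

namespace Pool.Agent.H25.SO

noncomputable section

variable {F F' : MvPolynomial (Fin 3) ℝ} {d : ℕ}

/-- the map of the components given by a linear map which matches two curves -/
def tmap (g : V3 ≃ₗ[ℝ] V3) (h : ∀ v, eval (g v) F' = 0 ↔ eval v F = 0)
    (κ : ConnectedComponents (realPart F)) : ConnectedComponents (realPart F') :=
  (homeoOf g h).continuous.connectedComponentsMap κ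

theorem inC_tmap {g : V3 ≃ₗ[ℝ] V3} (h : ∀ v, eval (g v) F' = 0 ↔ eval v F = 0)
    {κ : ConnectedComponents (realPart F)} {p : RP2} (hp : InC κ p) :
    InC (tmap g h κ) (gmap g p) := by
  obtain ⟨h1, rfl⟩ := hp
  refine ⟨(homeoOf g h ⟨p, h1⟩).2, ?_⟩
  unfold tmap
  rw [Continuous.connectedComponentsMap_mk]
  rfl

theorem gmap_symm_gmap (g : V3 ≃ₗ[ℝ] V3) (p : RP2) : gmap g.symm (gmap g p) = p := by
  rw [gmap_gmap, LinearEquiv.self_trans_symm, gmap_refl]

theorem gmap_gmap_symm (g : V3 ≃ₗ[ℝ] V3) (p : RP2) : gmap g (gmap g.symm p) = p := by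
  rw [gmap_gmap, LinearEquiv.symm_trans_self, gmap_refl]

theorem gmap_inj (g : V3 ≃ₗ[ℝ] V3) : Function.Injective (gmap g) := fun a b h => by
  rw [← gmap_symm_gmap g a, h, gmap_symm_gmap]

theorem symm_iff {g : V3 ≃ₗ[ℝ] V3} (h : ∀ v, eval (g v) F' = 0 ↔ eval v F = 0) (v : V3) :
    eval (g.symm v) F = 0 ↔ eval v F' = 0 := by
  rw [← h, LinearEquiv.apply_symm_apply]

theorem tmap_symm_tmap {g : V3 ≃ₗ[ℝ] V3} (h : ∀ v, eval (g v) F' = 0 ↔ eval v F = 0)
    (κ : ConnectedComponents (realPart F)) : tmap g.symm (symm_iff h) (tmap g h κ) = κ := by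
  obtain ⟨p, hp⟩ := exists_inC κ
  have h1 := inC_tmap (symm_iff h) (inC_tmap h hp)
  rw [gmap_symm_gmap] at h1
  exact h1.unique hp

theorem tmap_tmap_symm {g : V3 ≃ₗ[ℝ] V3} (h : ∀ v, eval (g v) F' = 0 ↔ eval v F = 0)
    (κ : ConnectedComponents (realPart F')) : tmap g h (tmap g.symm (symm_iff h) κ) = κ := by
  obtain ⟨p, hp⟩ := exists_inC κ
  have h1 := inC_tmap h (inC_tmap (symm_iff h) hp)
  rw [gmap_gmap_symm] at h1
  exact h1.unique hp

theorem tmap_inj {g : V3 ≃ₗ[ℝ] V3} (h : ∀ v, eval (g v) F' = 0 ↔ eval v F = 0) :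
    Function.Injective (tmap g h) := fun a b hab => by
  rw [← tmap_symm_tmap h a, hab, tmap_symm_tmap]

/-! ### The pull-back of a form -/

theorem pull_mul (F G : MvPolynomial (Fin 3) ℝ) (B : V3 ≃ₗ[ℝ] V3) :
    pull (F * G) B = pull F B * pull G B := map_mul _ _ _

theorem pull_pull (F : MvPolynomial (Fin 3) ℝ) (B : V3 ≃ₗ[ℝ] V3) :
    pull (pull F B) B.symm = F := by
  apply MvPolynomial.funext
  intro v
  rw [eval_pull, eval_pull, LinearEquiv.apply_symm_apply]

theorem pull_pull' (F : MvPolynomial (Fin 3) ℝ) (B : V3 ≃ₗ[ℝ] V3) :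
    pull (pull F B.symm) B = F := by
  apply MvPolynomial.funext
  intro v
  rw [eval_pull, eval_pull, LinearEquiv.symm_apply_apply]

theorem isUnit_pull {F : MvPolynomial (Fin 3) ℝ} (h : IsUnit F) (B : V3 ≃ₗ[ℝ] V3) :
    IsUnit (pull F B) := h.map (aeval fun i => ∑ j, C (B (Pi.single j 1) i) * X j)

theorem irr_pull (hirr : Irreducible F) (B : V3 ≃ₗ[ℝ] V3) : Irreducible (pull F B) := by
  refine ⟨fun h => hirr.not_isUnit ?_, fun a b hab => ?_⟩
  · rw [← pull_pull F B]
    exact isUnit_pull h _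
  · have h1 : F = pull a B.symm * pull b B.symm := by
      rw [← pull_mul, ← hab, pull_pull]
    rcases hirr.isUnit_or_isUnit h1 with h2 | h2
    · left
      rw [← pull_pull' a B]
      exact isUnit_pull h2 _
    · right
      rw [← pull_pull' b B]
      exact isUnit_pull h2 _

theorem curve_pull (C : Curve F d) (B : V3 ≃ₗ[ℝ] V3) : Curve (pull F B) d :=
  ⟨pull_homog C.hF B, C.hd, C.hd0, pull_ns C.hns B⟩

theorem pull_iff (F : MvPolynomial (Fin 3) ℝ) (B : V3 ≃ₗ[ℝ] V3) (v : V3) :
    eval (B v) F = 0 ↔ eval v (pull F B) = 0 := by rw [eval_pull]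

theorem fin3_ne (j : Fin 3) : j + 1 ≠ j ∧ j + 2 ≠ j ∧ j + 1 ≠ j + 2 := by
  revert j
  decide

/-- a semi-invariant form is invariant -/
theorem inv_of_semi (C : Curve F d) (hirr : Irreducible F) (hd : 1 < d) {j : Fin 3} {c : ℝ}
    (h : ∀ v, eval (rf j v) F = c * eval v F) : Sym F d j := by
  have hne : ∃ v, eval v F ≠ 0 := by
    by_contra hcon
    push Not at hcon
    apply hirr.ne_zero
    apply MvPolynomial.funext
    intro v
    rw [hcon, map_zero]
  obtain ⟨v, hv⟩ := hne
  have h1 : c * c = 1 := by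
    have h2 := h (rf j v)
    rw [rf_rf, h] at h2
    have h3 : (c * c - 1) * eval v F = 0 := by linarith
    have := (mul_eq_zero.1 h3).resolve_right hv
    linarith
  rcases mul_self_eq_one_iff.1 h1 with rfl | rfl
  · exact ⟨C, fun v => by rw [h, one_mul]⟩
  · exfalso
    have hz : ∀ v : V3, v j = 0 → eval v F = 0 := by
      intro v hv
      have := h v
      rw [rf_of_zero hv] at this
      linarith
    set u : ℕ → V3 := fun t => Pi.single (j + 1) 1 + (t : ℝ) • Pi.single (j + 2) 1 with hu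
    have hj := fin3_ne j
    have u0 : ∀ t, u t j = 0 := by
      intro t
      simp [hu, hj.1.symm, hj.2.1.symm]
    have u1 : ∀ t, u t (j + 1) = 1 := by
      intro t
      simp [hu, hj.2.2]
    have u2 : ∀ t, u t (j + 2) = t := by
      intro t
      simp [hu, hj.2.2.symm]
    have une : ∀ t, u t ≠ 0 := by
      intro t h0
      have := congrFun h0 (j + 1)
      rw [u1] at this
      norm_num at this
    have hinj : Function.Injective fun t => pr (u t) := by
      intro t s hts
      obtain ⟨c, hc⟩ := (pr_eq (une t) (une s)).1 hts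
      have e1 := congrFun hc (j + 1)
      have e2 := congrFun hc (j + 2)
      rw [Pi.smul_apply, smul_eq_mul, u1, u1, mul_one] at e1
      rw [Pi.smul_apply, smul_eq_mul, u2, u2, ← e1, one_mul] at e2
      exact_mod_cast e2.symm
    classical
    have hX : (X j : MvPolynomial (Fin 3) ℝ).IsHomogeneous 1 := isHomogeneous_X _ _
    have h4 := bez_wt C hX hirr (not_dvd_of_degree hirr C.hF hX (X_ne_zero j) hd)
      ((Finset.range (d + 1)).image fun t => pr (u t)) (by
        intro p hp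
        obtain ⟨t, -, rfl⟩ := Finset.mem_image.1 hp
        have h5 := pr_nrm (une t)
        rw [← h5]
        refine Zr_of C.hF hX (nsq_nrm (une t)) ?_ ?_
        · apply eval_nrm C.hF
          exact hz _ (u0 t)
        · apply eval_nrm hX
          rw [eval_X, u0])
    unfold wt at h4
    rw [Finset.card_image_of_injective _ hinj, Finset.card_range] at h4
    omega

/-- the components preserved by a symmetry -/
def Pres (g : V3 ≃ₗ[ℝ] V3) (κ : ConnectedComponents (realPart F)) : Prop :=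
  ∃ p, InC κ p ∧ InC κ (gmap g p)

theorem pres_iff {g : V3 ≃ₗ[ℝ] V3} (h : ∀ v, eval (g v) F = 0 ↔ eval v F = 0)
    {κ : ConnectedComponents (realPart F)} : Pres g κ ↔ tmap g h κ = κ := by
  constructor
  · rintro ⟨p, h1, h2⟩
    exact (inC_tmap h h1).unique h2
  · intro h1
    obtain ⟨p, hp⟩ := exists_inC κ
    refine ⟨p, hp, ?_⟩
    have := inC_tmap h hp
    rwa [h1] at this

theorem pres_rfL {j : Fin 3} (S : Sym F d j) {κ : ConnectedComponents (realPart F)} :
    Pres (rfL j) κ ↔ S.σ κ = κ := by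
  constructor
  · rintro ⟨p, h1, h2⟩
    exact (S.inC h1).unique h2
  · intro h1
    obtain ⟨p, hp⟩ := exists_inC κ
    refine ⟨p, hp, ?_⟩
    have := S.inC hp
    rwa [h1] at this

/-- transport of the preserved components -/
theorem pres_transport {g g' B : V3 ≃ₗ[ℝ] V3}
    (hgB : ∀ p : RP2, gmap g (gmap B p) = gmap B (gmap g' p))
    {κ : ConnectedComponents (realPart (pull F B))} :
    Pres g (tmap B (pull_iff F B) κ) ↔ Pres g' κ := by
  constructor
  · rintro ⟨p, h1, h2⟩
    have h3 := inC_tmap (symm_iff (pull_iff F B)) h1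
    have h4 := inC_tmap (symm_iff (pull_iff F B)) h2
    rw [tmap_symm_tmap] at h3 h4
    refine ⟨_, h3, ?_⟩
    have h5 : gmap g p = gmap B (gmap g' (gmap B.symm p)) := by
      rw [← hgB, gmap_gmap_symm]
    rwa [h5, gmap_symm_gmap] at h4
  · rintro ⟨p, h1, h2⟩
    refine ⟨gmap B p, inC_tmap _ h1, ?_⟩
    rw [hgB]
    exact inC_tmap _ h2

theorem gmap_congr_smul {g g' : V3 ≃ₗ[ℝ] V3} {s : ℝ} (h : ∀ v, g v = s • g' v) (p : RP2) :
    gmap g p = gmap g' p := by
  induction p using Quotient.inductionOn with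
  | _ w =>
    refine (mkP_eq.2 ⟨s, ?_⟩).symm
    exact h w.1

/-- the structure for an arbitrary involution -/
theorem struct_gen (C : Curve F d) (hirr : Irreducible F) {k : ℕ} (hk : 3 ≤ k) (hdk : d = 2 * k)
    (hM : Nat.card (ConnectedComponents (realPart F)) = (d - 1) * (d - 2) / 2 + 1)
    (g : V3 ≃ₗ[ℝ] V3) {c : ℝ} (hg : ∀ v, eval (g v) F = c * eval v F) {a : ℝ}
    (h2 : ∀ v, g (g v) = a • v) (hs : ¬ ∃ b : ℝ, ∀ v, g v = b • v) :
    {κ : ConnectedComponents (realPart F) | Pres g κ}.ncard = k ∧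
      ∀ κ : ConnectedComponents (realPart F), Pres g κ →
        {p | InC κ p ∧ gmap g p = p}.ncard = 2 := by
  obtain ⟨s, e, f, hs0, hfe, hgv⟩ := exists_refl g h2 hs
  obtain ⟨B, hB⟩ := exists_norm1 hfe
  have hsemi : ∀ v, eval (rf 2 v) (pull F B) = ((s⁻¹) ^ d * c) * eval v (pull F B) := by
    intro v
    rw [eval_pull, eval_pull, hB]
    have h3 : B v - f (B v) • e = s⁻¹ • g (B v) := by
      rw [hgv, smul_smul, inv_mul_cancel₀ hs0, one_smul]
    rw [h3, eval_smul' C.hF, hg]
    ring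
  have hirr' := irr_pull hirr B
  have S := inv_of_semi (curve_pull C B) hirr' (by omega) hsemi
  have hgB : ∀ p : RP2, gmap g (gmap B p) = gmap B (gmap (rfL 2) p) := by
    intro p
    rw [gmap_gmap, gmap_gmap]
    apply gmap_congr_smul (s := s)
    intro v
    rw [LinearEquiv.trans_apply, LinearEquiv.trans_apply, rfL_apply, hB, hgv]
  have hM' : Nat.card (ConnectedComponents (realPart (pull F B))) =
      (d - 1) * (d - 2) / 2 + 1 := by
    rw [← hM]
    exact card_components (homeoOf B (pull_iff F B))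
  obtain ⟨s1, s2, s3⟩ := S.struct hirr' hk hdk hM'
  have hsurj : ∀ κ : ConnectedComponents (realPart F), ∃ κ', κ = tmap B (pull_iff F B) κ' :=
    fun κ => ⟨_, (tmap_tmap_symm (pull_iff F B) κ).symm⟩
  constructor
  · have h5 : {κ : ConnectedComponents (realPart F) | Pres g κ} =
        tmap B (pull_iff F B) '' {κ | S.σ κ = κ} := by
      ext κ
      obtain ⟨κ', rfl⟩ := hsurj κ
      rw [(tmap_inj (pull_iff F B)).mem_set_image]
      exact (pres_transport hgB).trans (pres_rfL S)
    rw [h5, Set.ncard_image_of_injective _ (tmap_inj _), s2]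
  · intro κ hκ
    obtain ⟨κ', rfl⟩ := hsurj κ
    have h6 : S.σ κ' = κ' := (pres_rfL S).1 ((pres_transport hgB).1 hκ)
    have h5 : {p | InC (tmap B (pull_iff F B) κ') p ∧ gmap g p = p} =
        gmap B '' {p | InC κ' p ∧ rp 2 p = p} := by
      ext p
      obtain ⟨q, rfl⟩ : ∃ q, p = gmap B q := ⟨_, (gmap_gmap_symm B p).symm⟩
      rw [(gmap_inj B).mem_set_image]
      constructor
      · rintro ⟨h7, h8⟩
        have h9 := inC_tmap (symm_iff (pull_iff F B)) h7
        rw [tmap_symm_tmap, gmap_symm_gmap] at h9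
        refine ⟨h9, ?_⟩
        rw [hgB] at h8
        exact gmap_inj B h8
      · rintro ⟨h7, h8⟩
        refine ⟨inC_tmap _ h7, ?_⟩
        rw [hgB]
        exact congrArg _ h8
    rw [h5, Set.ncard_image_of_injective _ (gmap_inj B), s3 κ' h6]

end

end Pool.Agent.H25.SO
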