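import Pool.Agent.H25.SO.Groups

/-!
# Rotations
-/

set_option autoImplicit false

open MvPolynomial Set
open Pool.Agent.H83.MC

namespace Pool.Agent.H25.SO

noncomputable section

variable {F : MvPolynomial (Fin 3) ℝ} {γ : ℝ → Fin 3 → ℝ} {d : ℕ} {T θ : ℝ}
  {κ : ConnectedComponents (realPart F)}

theorem nsq_rotF (θ : ℝ) (v : V3) : nsq (rotF θ v) = nsq v := by
  have := Real.cos_sq_add_sin_sq θ
  unfold nsq rotF
  simp only [Matrix.cons_val_zero, Matrix.cons_val_one, Matrix.cons_val]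
  linear_combination (v 0 ^ 2 + v 1 ^ 2) * this

theorem pd_rotF (hs : ∀ v, eval (rotF θ v) F = eval v F) (v : V3) :
    pd F 0 (rotF θ v) = Real.cos θ * pd F 0 v - Real.sin θ * pd F 1 v ∧
      pd F 1 (rotF θ v) = Real.sin θ * pd F 0 v + Real.cos θ * pd F 1 v ∧
      pd F 2 (rotF θ v) = pd F 2 v := by
  have key : ∀ u : V3, pd F 0 (rotF θ v) * rotF θ u 0 + pd F 1 (rotF θ v) * rotF θ u 1 +
      pd F 2 (rotF θ v) * rotF θ u 2 = pd F 0 v * u 0 + pd F 1 v * u 1 + pd F 2 v * u 2 := by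
    intro u
    have h1 := deriv_line F (rotF θ v) (rotF θ u)
    have h2 := deriv_line F v u
    have h3 : (fun y : ℝ => eval (rotF θ v + y • rotF θ u) F) =
        fun y : ℝ => eval (v + y • u) F := by
      funext y
      have e : rotF θ v + y • rotF θ u = rotF θ (v + y • u) := by
        have h4 := (rotL θ).map_add v (y • u)
        rw [(rotL θ).map_smul] at h4
        exact h4.symm
      rw [e, hs]
    rw [h3] at h1
    have h4 := h1.unique h2
    rw [Fin.sum_univ_three, Fin.sum_univ_three] at h4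
    exact h4
  have k0 := key ![1, 0, 0]
  have k1 := key ![0, 1, 0]
  have k2 := key ![0, 0, 1]
  simp only [rotF, Matrix.cons_val_zero, Matrix.cons_val_one, Matrix.cons_val, mul_one, mul_zero,
    add_zero, zero_add, sub_zero, zero_sub] at k0 k1 k2
  have hc := Real.cos_sq_add_sin_sq θ
  change pd F 0 (rotF θ v) * Real.cos θ + pd F 1 (rotF θ v) * Real.sin θ = pd F 0 v at k0
  change pd F 0 (rotF θ v) * -Real.sin θ + pd F 1 (rotF θ v) * Real.cos θ = pd F 1 v at k1
  refine ⟨?_, ?_, k2⟩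
  · linear_combination Real.cos θ * k0 - Real.sin θ * k1 - pd F 0 (rotF θ v) * hc
  · linear_combination Real.sin θ * k0 + Real.cos θ * k1 - pd F 1 (rotF θ v) * hc

theorem fld_rotF (hs : ∀ v, eval (rotF θ v) F = eval v F) (v : V3) :
    fld F (rotF θ v) = rotF θ (fld F v) := by
  obtain ⟨e0, e1, e2⟩ := pd_rotF hs v
  have r0 : rotF θ v 0 = Real.cos θ * v 0 - Real.sin θ * v 1 := by simp [rotF]
  have r1 : rotF θ v 1 = Real.sin θ * v 0 + Real.cos θ * v 1 := by simp [rotF]
  have r2 : rotF θ v 2 = v 2 := by simp [rotF]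
  have hc := Real.cos_sq_add_sin_sq θ
  funext i
  rcases fin3 i with rfl | rfl | rfl
  · simp only [fld, rotF, Matrix.cons_val_zero, Matrix.cons_val_one, Matrix.cons_val] at *
    rw [e1, e2]
    ring
  · simp only [fld, rotF, Matrix.cons_val_zero, Matrix.cons_val_one, Matrix.cons_val] at *
    rw [e0, e2]
    ring
  · simp only [fld, rotF, Matrix.cons_val_zero, Matrix.cons_val_one, Matrix.cons_val] at *
    rw [e0, e1]
    linear_combination (v 0 * pd F 1 v - v 1 * pd F 0 v) * hc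

theorem IsSol.rot (hγ : IsSol F γ) (hs : ∀ v, eval (rotF θ v) F = eval v F) :
    IsSol F fun t => rotF θ (γ t) := by
  refine ⟨fun t => ?_, fun t => by rw [nsq_rotF]; exact hγ.norm _, fun t => by
    rw [hs]; exact hγ.zero _⟩
  have h := hasDerivAt_pi.1 (hγ.deriv t)
  rw [fld_rotF hs, hasDerivAt_pi]
  intro i
  rcases fin3 i with rfl | rfl | rfl
  · have : HasDerivAt (fun y => Real.cos θ * γ y 0 - Real.sin θ * γ y 1)
        (Real.cos θ * fld F (γ t) 0 - Real.sin θ * fld F (γ t) 1) t :=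
      ((h 0).const_mul (Real.cos θ)).sub ((h 1).const_mul (Real.sin θ))
    simpa [rotF] using this
  · have : HasDerivAt (fun y => Real.sin θ * γ y 0 + Real.cos θ * γ y 1)
        (Real.sin θ * fld F (γ t) 0 + Real.cos θ * fld F (γ t) 1) t :=
      ((h 0).const_mul (Real.sin θ)).add ((h 1).const_mul (Real.cos θ))
    simpa [rotF] using this
  · have := h 2
    simpa [rotF] using this

theorem rot_iff (hs : ∀ v, eval (rotF θ v) F = eval v F) (v : V3) :
    eval (rotL θ v) F = 0 ↔ eval v F = 0 := by rw [rotL_apply, hs]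

/-- a rotation which preserves a component acts on it as a shift -/
theorem Curve.rot_shift (C : Curve F d) (hs : ∀ v, eval (rotF θ v) F = eval v F)
    (h2 : ∀ v : V3, rotF θ (rotF θ v) = v → v 0 = 0 ∧ v 1 = 0)
    (hP : eval ![0, 0, 1] F ≠ 0) (P : Par F κ γ T) (h : Pres (rotL θ) κ) :
    ∃ τ, ∀ u, rotF θ (γ u) = γ (τ + u) := by
  have hκ := (pres_iff (rot_iff hs)).1 h
  have hp : InC κ (pr (γ 0)) := (P.mem _).2 ⟨0, rfl⟩
  have h1 := inC_tmap (rot_iff hs) hp
  rw [hκ, gmap_pr _ (P.sol.ne 0)] at h1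
  obtain ⟨t, ht⟩ := (P.mem _).1 h1
  have hδ := P.sol.rot hs
  have h3 : pr (γ t) = pr ((fun t => rotF θ (γ t)) 0) := ht
  rcases C.orb_eq P.sol hδ h3 with h4 | h4
  · refine ⟨t, fun u => ?_⟩
    have := h4 u
    simp only [zero_add] at this
    exact this
  · exfalso
    have h5 : ∀ u, rotF θ (γ u) = -γ (t - u) := by
      intro u
      have := h4 u
      simp only [zero_add] at this
      exact this
    have h6 : rotF θ (rotF θ (γ 0)) = γ 0 := by
      rw [h5]
      have h7 : rotF θ (-γ (t - 0)) = -rotF θ (γ (t - 0)) := (rotL θ).map_neg _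
      rw [h7, h5, neg_neg]
      congr 1
      ring
    obtain ⟨e0, e1⟩ := h2 _ h6
    apply hP
    have h8 : γ 0 = γ 0 2 • ![0, 0, 1] := by
      funext i
      rcases fin3 i with rfl | rfl | rfl
      · simp [e0]
      · simp [e1]
      · simp
    have h9 := P.sol.zero 0
    rw [h8, eval_smul' C.hF] at h9
    rcases mul_eq_zero.1 h9 with h10 | h10
    · exfalso
      have h11 := P.sol.norm 0
      have h12 : γ 0 2 = 0 := by
        have h13 : γ 0 2 ^ d = 0 := by simpa using h10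
        exact pow_eq_zero_iff C.hd0.ne' |>.1 h13
      unfold nsq at h11
      rw [e0, e1, h12] at h11
      norm_num at h11
    · exact h10

/-! ### Order four -/

theorem rot_sq (v : V3) : rotF (2 * Real.pi / (4 : ℕ)) (rotF (2 * Real.pi / (4 : ℕ)) v) =
    -rf 2 v := by
  rw [rotF_rotF]
  have h : 2 * Real.pi / ((4 : ℕ) : ℝ) + 2 * Real.pi / ((4 : ℕ) : ℝ) = Real.pi := by
    push_cast
    ring
  rw [h]
  funext i
  rcases fin3 i with rfl | rfl | rfl <;> simp [rotF, rf]

/-- the normal form of a symmetry of order `n ≥ 3` -/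
theorem exists_rot (C : Curve F d) {n : ℕ} (hn : 3 ≤ n) (g : V3 ≃ₗ[ℝ] V3) {c : ℝ}
    (hg : ∀ v, eval (g v) F = c * eval v F)
    (hord : ∀ k : ℕ, (∃ a : ℝ, ∀ v, g^[k] v = a • v) ↔ n ∣ k) :
    ∃ (B : V3 ≃ₗ[ℝ] V3) (m : ℕ) (a : ℝ), a ≠ 0 ∧
      (∀ v, g^[m] (B v) = a • B (rotF (2 * Real.pi / n) v)) ∧
      (∀ v, eval (rotF (2 * Real.pi / n) v) (pull F B) = eval v (pull F B)) ∧
      eval ![0, 0, 1] (pull F B) ≠ 0 := by
  set M := LinearMap.toMatrix' g.toLinearMap with hM
  have hord' : ∀ k : ℕ, (∃ a : ℝ, M ^ k = a • (1 : Matrix (Fin 3) (Fin 3) ℝ)) ↔ n ∣ k := by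
    intro k
    rw [← hord k]
    constructor
    · rintro ⟨a, ha⟩
      refine ⟨a, fun v => ?_⟩
      rw [← matrix_iterate, ← hM, ha, Matrix.smul_mulVec, Matrix.one_mulVec]
    · rintro ⟨a, ha⟩
      refine ⟨a, ?_⟩
      ext i j
      have h1 := matrix_iterate g k (Pi.single j 1)
      rw [ha, ← hM, Matrix.mulVec_single_one] at h1
      have h2 := congrFun h1 i
      simp only [Matrix.col_apply] at h2
      rw [h2, Matrix.smul_apply, Matrix.one_apply]
      simp [Pi.single_apply]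
  obtain ⟨B, m, a, ha, hB⟩ := exists_normal M hn hord'
  have hB' : ∀ v, g^[m] (B v) = a • B (rotF (2 * Real.pi / n) v) := by
    intro v
    rw [← hB, hM, matrix_iterate]
  have hgk : ∀ (k : ℕ) (v : Fin 3 → ℝ), eval (g^[k] v) F = c ^ k * eval v F := by
    intro k
    induction k with
    | zero => simp
    | succ k ih =>
      intro v
      rw [Function.iterate_succ_apply', hg, ih, pow_succ]
      ring
  have hinv : ∀ v, eval (rotF (2 * Real.pi / n) v) (pull F B) =
      ((a⁻¹) ^ d * c ^ m) * eval v (pull F B) := by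
    intro v
    rw [eval_pull, eval_pull]
    have h2 : B (rotF (2 * Real.pi / n) v) = a⁻¹ • g^[m] (B v) := by
      rw [hB', smul_smul, inv_mul_cancel₀ ha, one_smul]
    rw [h2, eval_smul' C.hF, hgk]
    ring
  have hP := ne_center (pull_homog C.hF B) (pull_ns C.hns B) hn hinv
  have hc1 : (a⁻¹) ^ d * c ^ m = 1 := by
    have h1 := hinv ![0, 0, 1]
    have h2 : rotF (2 * Real.pi / n) ![0, 0, 1] = ![0, 0, 1] := by
      ext i
      fin_cases i <;> simp [rotF]
    rw [h2] at h1
    have h3 : 1 * eval ![0, 0, 1] (pull F B) =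
        ((a⁻¹) ^ d * c ^ m) * eval ![0, 0, 1] (pull F B) := by rw [one_mul]; exact h1
    exact (mul_right_cancel₀ hP h3).symm
  refine ⟨B, m, a, ha, hB', fun v => ?_, hP⟩
  rw [hinv, hc1, one_mul]

theorem even_of_free {K : Type} [Fintype K] (σ : K → K) (hσ : ∀ x, σ (σ x) = x)
    (hf : ∀ x, σ x ≠ x) : Even (Fintype.card K) := by
  obtain ⟨R, -, -, h3⟩ := exists_reps σ hσ (fun _ => False) (fun _ h => h.elim)
  simp only [hf, false_and, Finset.filter_false, Finset.card_empty, zero_add, add_zero] at h3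
  exact ⟨R.card, by omega⟩

theorem no_rot_four (C : Curve F d) (hirr : Irreducible F) {k : ℕ} (hk : 3 ≤ k) (hdk : d = 2 * k)
    (hM : Nat.card (ConnectedComponents (realPart F)) = (d - 1) * (d - 2) / 2 + 1)
    (hs : ∀ v, eval (rotF (2 * Real.pi / (4 : ℕ)) v) F = eval v F)
    (hP : eval ![0, 0, 1] F ≠ 0) : False := by
  classical
  set θ := 2 * Real.pi / ((4 : ℕ) : ℝ) with hθ
  have hrs : ∀ v, eval (rf 2 v) F = eval v F := by
    intro v
    have h1 : rf 2 v = (-1 : ℝ) • rotF θ (rotF θ v) := by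
      rw [hθ, rot_sq, neg_one_smul, neg_neg]
    rw [h1, eval_smul' C.hF, C.hd.neg_one_pow, one_mul, hs, hs]
  have S : Sym F d 2 := ⟨C, hrs⟩
  obtain ⟨s1, s2, -⟩ := S.struct hirr hk hdk hM
  have hodd : ¬ Even k := by
    intro hke
    refine no_order_four C hirr hk hdk hke hM (rotL θ) (c := 1) (a := 1)
      (fun v => by rw [rotL_apply, hs, one_mul]) ?_ ?_
    · intro v
      simp only [rotL_apply]
      rw [hθ, rot_sq, rot_sq, one_smul]
      have : rf 2 (-rf 2 v) = -v := by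
        rw [show -rf 2 v = rf 2 (-v) from ?_, rf_rf]
        funext i
        simp only [rf, Pi.neg_apply]
        split_ifs <;> ring
      rw [this, neg_neg]
    · rintro ⟨b, hb⟩
      have h1 := hb ![1, 0, 1]
      simp only [rotL_apply] at h1
      rw [hθ, rot_sq] at h1
      have h2 := congrFun h1 0
      have h3 := congrFun h1 2
      simp [rf] at h2 h3
      linarith
  apply hodd
  have hfin : Finite (ConnectedComponents (realPart F)) :=
    Nat.finite_of_card_ne_zero (by rw [hM]; omega)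
  have : Fintype (ConnectedComponents (realPart F)) := Fintype.ofFinite _
  set ρ := tmap (rotL θ) (rot_iff hs) with hρ
  have hρ2 : ∀ κ, ρ (ρ κ) = S.σ κ := by
    intro κ
    obtain ⟨p, hp⟩ := exists_inC κ
    have h1 := inC_tmap (rot_iff hs) (inC_tmap (rot_iff hs) hp)
    have h2 : gmap (rotL θ) (gmap (rotL θ) p) = rp 2 p := by
      rw [gmap_gmap]
      apply gmap_congr_smul (s := -1)
      intro v
      rw [LinearEquiv.trans_apply, rotL_apply, rotL_apply, rfL_apply, hθ, rot_sq, neg_one_smul]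
    rw [h2] at h1
    exact h1.unique (S.inC hp)
  have hfree : ∀ κ, S.σ κ = κ → ρ κ ≠ κ := by
    intro κ hκ hρκ
    obtain ⟨γ, T, P⟩ := C.exists_par κ
    obtain ⟨c, hc⟩ := S.dich_ax P (s1 κ hκ)
    obtain ⟨τ, hτ⟩ := C.rot_shift hs (by
      intro v hv
      rw [hθ, rot_sq] at hv
      have h0 := congrFun hv 0
      have h1 := congrFun hv 1
      simp [rf] at h0 h1
      constructor <;> linarith) hP P ((pres_iff (rot_iff hs)).2 hρκ)
    have h1 := rot_sq (γ 0)
    rw [← hθ, hτ, hτ, hc] at h1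
    exact P.sol.ne_neg C.hF C.hd C.hd0 _ _ h1
  have hmem : ∀ x : {κ // S.σ κ = κ}, S.σ (ρ x.1) = ρ x.1 := by
    intro x
    rw [← hρ2, hρ2 x.1, x.2]
  have h3 := even_of_free (K := {κ // S.σ κ = κ}) (fun x => ⟨ρ x.1, hmem x⟩)
    (fun x => Subtype.ext (by
      change ρ (ρ x.1) = x.1
      rw [hρ2, x.2])) (fun x h5 => hfree x.1 x.2 (congrArg Subtype.val h5))
  have h5 : {κ | S.σ κ = κ}.ncard = Fintype.card {κ // S.σ κ = κ} := by
    rw [← Nat.card_coe_set_eq, ← Nat.card_eq_fintype_card]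
    rfl
  rw [s2] at h5
  rwa [h5]

/-- **No symmetry of order four.** -/
theorem no_order_four' (C : Curve F d) (hirr : Irreducible F) {k : ℕ} (hk : 3 ≤ k)
    (hdk : d = 2 * k)
    (hM : Nat.card (ConnectedComponents (realPart F)) = (d - 1) * (d - 2) / 2 + 1)
    (g : V3 ≃ₗ[ℝ] V3) {c : ℝ} (hg : ∀ v, eval (g v) F = c * eval v F)
    (hord : ∀ k : ℕ, (∃ a : ℝ, ∀ v, g^[k] v = a • v) ↔ 4 ∣ k) : False := by
  obtain ⟨B, m, a, ha, hB, hs, hP⟩ := exists_rot C (n := 4) (by norm_num) g hg hord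
  exact no_rot_four (curve_pull C B) (irr_pull hirr B) hk hdk (by
    rw [← hM]
    exact card_components (homeoOf B (pull_iff F B))) hs hP

end

end Pool.Agent.H25.SO
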