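import Pool.Agent.H25.SO.Dich

/-!
# Zeros of a form on the components
-/

set_option autoImplicit false

open MvPolynomial Set
open Pool.Agent.H83.MC

namespace Pool.Agent.H25.SO

noncomputable section

variable {F H : MvPolynomial (Fin 3) ℝ} {γ : ℝ → Fin 3 → ℝ} {d e : ℕ} {T : ℝ} {j : Fin 3}
  {κ κ' : ConnectedComponents (realPart F)}

theorem exists_rep (p : RP2) : ∃ v, nsq v = 1 ∧ pr v = p := by
  induction p using Quotient.inductionOn with
  | _ w => exact ⟨nrm w.1, nsq_nrm w.2, by rw [pr_nrm w.2, pr_of w.2]; rfl⟩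

/-- a unit vector which represents the point -/
def rep (p : RP2) : Fin 3 → ℝ := (exists_rep p).choose

theorem nsq_rep (p : RP2) : nsq (rep p) = 1 := (exists_rep p).choose_spec.1

theorem pr_rep (p : RP2) : pr (rep p) = p := (exists_rep p).choose_spec.2

theorem rep_pr {v : Fin 3 → ℝ} (h : nsq v = 1) : rep (pr v) = v ∨ rep (pr v) = -v :=
  (pr_unit h (nsq_rep _)).1 (pr_rep _).symm

/-- the point is a common zero -/
def Zr (F H : MvPolynomial (Fin 3) ℝ) (p : RP2) : Prop :=
  eval (rep p) F = 0 ∧ eval (rep p) H = 0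

/-- the curves are tangent at the point -/
def Tg (F H : MvPolynomial (Fin 3) ℝ) (p : RP2) : Prop := dd (rep p) (fld F (rep p)) H = 0

theorem eval_neg_zero (hH : H.IsHomogeneous e) {v : Fin 3 → ℝ} (h : eval v H = 0) :
    eval (-v) H = 0 := by
  have := eval_smul' hH (-1) v
  rw [neg_one_smul] at this
  rw [this, h, mul_zero]

theorem eval_rep (hH : H.IsHomogeneous e) {v : Fin 3 → ℝ} (h1 : nsq v = 1) (h : eval v H = 0) :
    eval (rep (pr v)) H = 0 := by
  rcases rep_pr h1 with h2 | h2
  · rw [h2]; exact h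
  · rw [h2]; exact eval_neg_zero hH h

theorem Zr_of (hF : F.IsHomogeneous d) (hH : H.IsHomogeneous e) {v : Fin 3 → ℝ} (h1 : nsq v = 1)
    (h2 : eval v F = 0) (h3 : eval v H = 0) : Zr F H (pr v) :=
  ⟨eval_rep hF h1 h2, eval_rep hH h1 h3⟩

theorem Tg_of (C : Curve F d) (hH : H.IsHomogeneous e) {v : Fin 3 → ℝ} (h1 : nsq v = 1)
    (h2 : dd v (fld F v) H = 0) : Tg F H (pr v) := by
  unfold Tg
  rcases rep_pr h1 with h3 | h3
  · rw [h3]; exact h2
  · rw [h3, fld_neg C, dd_apply]
    have h4 : ∀ i, pd H i (-v) = (-1) ^ (e - 1) * pd H i v := by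
      intro i
      have h5 : (pderiv i H).IsHomogeneous (e - 1) := hH.pderiv
      have := eval_smul' h5 (-1) v
      rw [neg_one_smul] at this
      exact this
    rw [h4, h4, h4]
    rw [dd_apply] at h2
    linear_combination (-1) ^ (e - 1) * h2

open Classical in
/-- the number of points, those of tangency counted twice -/
def wt (F H : MvPolynomial (Fin 3) ℝ) (S : Finset RP2) : ℕ := S.card + (S.filter (Tg F H)).card

theorem bez_wt (C : Curve F d) (hH : H.IsHomogeneous e) (hirr : Irreducible F) (hFH : ¬ F ∣ H)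
    (S : Finset RP2) (hS : ∀ p ∈ S, Zr F H p) : wt F H S ≤ d * e := by
  classical
  have h := bezout (ι := S) C hH hirr hFH (fun p => rep p.1) (fun p => nsq_rep _) (by
    intro p q hpq ⟨c, hc⟩
    apply hpq
    apply Subtype.ext
    rw [← pr_rep p.1, ← pr_rep q.1]
    exact (pr_eq (ne_zero_of_nsq (nsq_rep _)) (ne_zero_of_nsq (nsq_rep _))).2 ⟨c, hc⟩)
    (fun p => (hS p.1 p.2).1) (fun p => (hS p.1 p.2).2)
    (Finset.subtype (fun x => x ∈ S) (S.filter (Tg F H))) (by
      intro p hp
      rw [Finset.mem_subtype, Finset.mem_filter] at hp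
      exact hp.2)
  rw [Fintype.card_coe, Finset.card_subtype] at h
  have e1 : (S.filter (Tg F H)).filter (fun x => x ∈ S) = S.filter (Tg F H) := by
    ext p
    simp only [Finset.mem_filter]
    tauto
  rw [e1] at h
  unfold wt
  convert h using 2

theorem wt_union {A B : Finset RP2} [DecidableEq RP2] (h : Disjoint A B) :
    wt F H (A ∪ B) = wt F H A + wt F H B := by
  classical
  unfold wt
  rw [Finset.card_union_of_disjoint h, Finset.filter_union, Finset.card_union_of_disjoint]
  · ring
  · exact Finset.disjoint_filter_filter h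

theorem wt_biUnion {α : Type} [DecidableEq RP2] (U : Finset α) (f : α → Finset RP2)
    (h : ∀ a ∈ U, ∀ b ∈ U, a ≠ b → Disjoint (f a) (f b)) :
    wt F H (U.biUnion f) = ∑ a ∈ U, wt F H (f a) := by
  classical
  induction U using Finset.induction_on with
  | empty => simp [wt]
  | insert a U ha ih =>
    rw [Finset.biUnion_insert, wt_union, Finset.sum_insert ha, ih]
    · intro x hx y hy
      exact h x (Finset.mem_insert_of_mem hx) y (Finset.mem_insert_of_mem hy)
    · rw [Finset.disjoint_biUnion_right]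
      intro b hb
      exact h a (Finset.mem_insert_self _ _) b (Finset.mem_insert_of_mem hb)
        (fun hab => ha (hab ▸ hb))

/-- a zero with a change of sign of a periodic function is followed by another zero -/
theorem exists_zero {h : ℝ → ℝ} {c t₀ L : ℝ} (hc : Continuous h) (hd : HasDerivAt h c t₀)
    (h0 : h t₀ = 0) (hne : c ≠ 0) (hL : 0 < L) (hper : ∀ u, h (u + L) = h u) :
    ∃ t₁, t₀ < t₁ ∧ t₁ < t₀ + L ∧ h t₁ = 0 := by
  -- the case of a positive derivative
  have key : ∀ (h : ℝ → ℝ) (c : ℝ), Continuous h → HasDerivAt h c t₀ → h t₀ = 0 → 0 < c →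
      (∀ u, h (u + L) = h u) → ∃ t₁, t₀ < t₁ ∧ t₁ < t₀ + L ∧ h t₁ = 0 := by
    intro h c hc hd h0 hpos hper
    have hsl : ∀ᶠ t in nhdsWithin t₀ {t₀}ᶜ, 0 < slope h t₀ t :=
      (hasDerivAt_iff_tendsto_slope.1 hd).eventually (lt_mem_nhds hpos)
    rw [eventually_nhdsWithin_iff] at hsl
    obtain ⟨η, hη, hb⟩ := Metric.eventually_nhds_iff_ball.1 hsl
    set r := min (η / 2) (L / 3) with hr
    have hr0 : 0 < r := lt_min (by linarith) (by linarith)
    have hrη : r < η := lt_of_le_of_lt (min_le_left _ _) (by linarith)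
    have hrL : r ≤ L / 3 := min_le_right _ _
    have b1 := hb (t₀ - r) (by rw [Metric.mem_ball, Real.dist_eq]; simpa [abs_of_pos hr0] using hrη)
      (by simpa using hr0.ne')
    have b2 := hb (t₀ + r) (by rw [Metric.mem_ball, Real.dist_eq]; simpa [abs_of_pos hr0] using hrη)
      (by simpa using hr0.ne')
    have c1 : h (t₀ - r) < 0 := by
      rw [slope_def_field, h0, sub_zero] at b1
      have e : t₀ - r - t₀ = -r := by ring
      rw [e, div_pos_iff] at b1
      rcases b1 with b | b
      · linarith [b.2]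
      · linarith [b.1]
    have c2 : 0 < h (t₀ + r) := by
      rw [slope_def_field, h0, sub_zero] at b2
      have e : t₀ + r - t₀ = r := by ring
      rw [e, div_pos_iff] at b2
      rcases b2 with b | b
      · linarith [b.1]
      · linarith [b.2]
    have c3 : h (t₀ - r + L) < 0 := by rw [hper]; exact c1
    obtain ⟨t, ht, ht0⟩ := intermediate_value_Icc' (show t₀ + r ≤ t₀ - r + L by linarith)
      hc.continuousOn (show (0 : ℝ) ∈ _ from ⟨c3.le, c2.le⟩)
    exact ⟨t, by linarith [ht.1], by linarith [ht.2], ht0⟩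
  rcases lt_or_gt_of_ne hne with hn | hp
  · obtain ⟨t, h1, h2, h3⟩ := key (fun x => -h x) (-c) hc.neg hd.neg (by simp [h0]) (by linarith)
      (fun u => by simp [hper])
    exact ⟨t, h1, h2, by simpa using h3⟩
  · exact key h c hc hd h0 hp hper

theorem Par.deriv (P : Par F κ γ T) (H : MvPolynomial (Fin 3) ℝ) (t : ℝ) :
    HasDerivAt (fun t => eval (γ t) H) (dd (γ t) (fld F (γ t)) H) t :=
  hasDeriv_eval H (P.sol.deriv t)

theorem Par.ne_of (P : Par F κ γ T) (C : Curve F d) {t s : ℝ} (h1 : t < s) (h2 : s < t + T) :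
    pr (γ t) ≠ pr (γ s) := by
  intro h
  obtain ⟨n, hn⟩ := P.pr_inj C h
  have hT := P.pos
  have h3 : (n : ℝ) < 0 := by nlinarith
  have h4 : (-1 : ℝ) < n := by nlinarith
  have h5 : n < 0 := by exact_mod_cast h3
  have h6 : -1 < n := by exact_mod_cast h4
  omega

/-- a form which vanishes on a component vanishes twice -/
theorem Par.two (P : Par F κ γ T) (C : Curve F d) (hH : H.IsHomogeneous e) {t₀ : ℝ}
    (h0 : eval (γ t₀) H = 0) :
    ∃ S : Finset RP2, (∀ p ∈ S, InC κ p ∧ Zr F H p) ∧ 2 ≤ wt F H S := by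
  classical
  have hz : ∀ t, eval (γ t) H = 0 → InC κ (pr (γ t)) ∧ Zr F H (pr (γ t)) := fun t ht =>
    ⟨(P.mem _).2 ⟨t, rfl⟩, Zr_of C.hF hH (P.sol.norm t) (P.sol.zero t) ht⟩
  by_cases hd : dd (γ t₀) (fld F (γ t₀)) H = 0
  · refine ⟨{pr (γ t₀)}, ?_, ?_⟩
    · intro p hp
      rw [Finset.mem_singleton] at hp
      rw [hp]
      exact hz _ h0
    · have hT := Tg_of C hH (P.sol.norm t₀) hd
      unfold wt
      rw [Finset.filter_true_of_mem (by
        intro p hp
        rw [Finset.mem_singleton] at hp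
        rw [hp]
        exact hT)]
      simp
  · obtain ⟨t₁, h1, h2, h3⟩ := exists_zero (h := fun t => eval (γ t) H)
      ((contDiff_eval H).continuous.comp P.sol.cont) (P.deriv H t₀) h0 hd P.pos
      (fun u => by simp only [P.per])
    refine ⟨{pr (γ t₀), pr (γ t₁)}, ?_, ?_⟩
    · intro p hp
      rw [Finset.mem_insert, Finset.mem_singleton] at hp
      rcases hp with rfl | rfl
      · exact hz _ h0
      · exact hz _ h3
    · unfold wt
      rw [Finset.card_pair (P.ne_of C h1 h2)]
      omega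

theorem dd_rf {G : MvPolynomial (Fin 3) ℝ} (hs : ∀ v, eval (rf j v) G = eval v G)
    (S : Sym F d j) (v : Fin 3 → ℝ) :
    dd (rf j v) (fld F (rf j v)) G = -dd v (fld F v) G := by
  have e1 := fun i => pd_rf hs i v
  have e2 := fun i => fld_rf S.hs v i
  rw [dd_apply, dd_apply, e1, e1, e1, e2, e2, e2]
  split_ifs <;> ring

theorem dd_neg {G : MvPolynomial (Fin 3) ℝ} (hG : G.IsHomogeneous e) (he : Even e) (he0 : 0 < e)
    (C : Curve F d) (v : Fin 3 → ℝ) : dd (-v) (fld F (-v)) G = -dd v (fld F v) G := by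
  have e1 := fun i => pd_neg hG he he0 i v
  rw [dd_apply, dd_apply, fld_neg C, e1, e1, e1]
  ring

/-- on an invariant component which does not meet the axis an invariant form vanishes four times -/
theorem Par.four (P : Par F κ γ T) (S : Sym F d j) (hH : H.IsHomogeneous e) (he : Even e)
    (he0 : 0 < e) (hs : ∀ v, eval (rf j v) H = eval v H) (hrot : ∀ u, -rf j (γ u) = γ (u + T / 2))
    {t₀ : ℝ} (h0 : eval (γ t₀) H = 0) :
    ∃ A : Finset RP2, (∀ p ∈ A, InC κ p ∧ Zr F H p) ∧ 4 ≤ wt F H A := by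
  classical
  have C := S.toCurve
  have hT := P.pos
  have hz : ∀ t, eval (γ t) H = 0 → InC κ (pr (γ t)) ∧ Zr F H (pr (γ t)) := fun t ht =>
    ⟨(P.mem _).2 ⟨t, rfl⟩, Zr_of C.hF hH (P.sol.norm t) (P.sol.zero t) ht⟩
  have hper : ∀ u, eval (γ (u + T / 2)) H = eval (γ u) H := by
    intro u
    rw [← hrot]
    have := eval_smul' hH (-1) (rf j (γ u))
    rw [neg_one_smul, he.neg_one_pow, one_mul, hs] at this
    exact this
  have hdper : ∀ u, dd (γ (u + T / 2)) (fld F (γ (u + T / 2))) H = dd (γ u) (fld F (γ u)) H := by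
    intro u
    rw [← hrot, dd_neg hH he he0 C, dd_rf hs S, neg_neg]
  by_cases hd : dd (γ t₀) (fld F (γ t₀)) H = 0
  · refine ⟨{pr (γ t₀), pr (γ (t₀ + T / 2))}, ?_, ?_⟩
    · intro p hp
      rw [Finset.mem_insert, Finset.mem_singleton] at hp
      rcases hp with rfl | rfl
      · exact hz _ h0
      · exact hz _ (by rw [hper]; exact h0)
    · have hT1 := Tg_of C hH (P.sol.norm t₀) hd
      have hT2 := Tg_of C hH (P.sol.norm (t₀ + T / 2)) (by rw [hdper]; exact hd)
      unfold wt
      rw [Finset.filter_true_of_mem (by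
        intro p hp
        rw [Finset.mem_insert, Finset.mem_singleton] at hp
        rcases hp with rfl | rfl
        · exact hT1
        · exact hT2), Finset.card_pair (P.ne_of C (by linarith) (by linarith))]
  · obtain ⟨t₁, h1, h2, h3⟩ := exists_zero (h := fun t => eval (γ t) H)
      ((contDiff_eval H).continuous.comp P.sol.cont) (P.deriv H t₀) h0 hd
      (show 0 < T / 2 by linarith) hper
    set f : Fin 4 → ℝ := ![t₀, t₁, t₀ + T / 2, t₁ + T / 2] with hf
    have hinj : Function.Injective fun i => pr (γ (f i)) := by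
      have key : ∀ a b : Fin 4, a < b → pr (γ (f a)) ≠ pr (γ (f b)) := by
        intro a b hab
        refine P.ne_of C ?_ ?_
        · fin_cases a <;> fin_cases b <;> simp [hf] at hab ⊢ <;> linarith
        · fin_cases a <;> fin_cases b <;> simp [hf] at hab ⊢ <;> linarith
      intro a b hab
      rcases lt_trichotomy a b with h | h | h
      · exact absurd hab (key a b h)
      · exact h
      · exact absurd hab.symm (key b a h)
    refine ⟨Finset.univ.image fun i => pr (γ (f i)), ?_, ?_⟩
    · intro p hp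
      rw [Finset.mem_image] at hp
      obtain ⟨i, -, rfl⟩ := hp
      refine hz _ ?_
      fin_cases i
      · exact h0
      · exact h3
      · change eval (γ (t₀ + T / 2)) H = 0
        rw [hper]; exact h0
      · change eval (γ (t₁ + T / 2)) H = 0
        rw [hper]; exact h3
    · unfold wt
      rw [Finset.card_image_of_injective _ hinj]
      simp

end

end Pool.Agent.H25.SO
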